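import Pool.Agent.H410.FL.Defs

/-!
Definitions for the quantitative form of the linear independence of
`1, ∑ δ^n/U_n, ∑ δ^n V_n/U_n^2, ∑ (δε)^n/U_n^3` (helper410). Everything else is taken from
`Pool.Agent.H410.FL.Defs` and `Pool.Agent.H410.FC.Defs`.
-/

namespace Pool.Agent.H410.FM

open Finset
open Pool.Agent.H410.FL
open Pool.Agent.H410.FC (OK U sD al be pp DK Cj Rl Tt xt XX QQ pik VV EE FF ea ww C3 BF rr)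

/-- `a(K,J)` with `SH` replaced by the integer `s`. -/
noncomputable def aS (a ε δ : ℤ) (r : Fin 3 → ℤ) (s : ℤ) (K : ℕ) (J : ℤ) : ℝ :=
  ac (wr a ε r) (pp a ε) (xd a ε δ) K J -
    (δ * be a ε) ^ K * pp a ε ^ ((K : ℤ) * (J + 1)) * ((s : ℝ) - SH a ε δ r)

/-- The matrix `(aS(K, J0 + j))`, `K = 1, …, N`, `0 ≤ j < N`. -/
noncomputable def SM (a ε δ : ℤ) (r : Fin 3 → ℤ) (s : ℤ) (J0 : ℤ) (N : ℕ) :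
    Matrix (Fin N) (Fin N) ℝ :=
  Matrix.of fun k j => aS a ε δ r s ((k : ℕ) + 1) (J0 + ((j : ℕ) : ℤ))

/-- The last nonzero one of `r 0, r 1, r 2`. -/
def rt (r : Fin 3 → ℤ) : ℤ := if r 2 ≠ 0 then r 2 else if r 1 ≠ 0 then r 1 else r 0

/-- `R(m) = (2 D r 1 (2m+1))² - D (2 r 0 + D r 2 m(m+1))²`. -/
def RR (D : ℤ) (r : Fin 3 → ℤ) (m : ℤ) : ℤ :=
  (2 * D * r 1 * (2 * m + 1)) ^ 2 - D * (2 * r 0 + D * r 2 * (m * (m + 1))) ^ 2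

/-- The number `W` (`V_{2 m0+1}/a` if `ε = -1`, `U_{m0+1} + U_{m0}` if `ε = 1`) and its prime
factors. -/
def PW (a ε : ℤ) (m0 W : ℕ) : Prop :=
  2 ^ m0 ≤ W ∧
  (ε = -1 → V a (-1) (2 * m0 + 1) = a * (W : ℤ) ∧
    ∀ q : ℕ, q.Prime → q ∣ W → 4 * m0 + 1 ≤ q ∧ ∀ σ : ℤ, (σ = 1 ∨ σ = -1) →
      ∃ (F : Type) (_ : Field F) (g : F), CharP F q ∧ g ^ 2 = (a : F) * g + 1 ∧
        g ^ (2 * m0 + 1) = (σ : F) ∧ (∀ k : ℕ, 0 < k → k < 2 * (2 * m0 + 1) → (-g ^ 2) ^ k ≠ 1) ∧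
        (((a ^ 2 + 4 : ℤ)) : F) ≠ 0) ∧
  (ε = 1 → U a 1 (m0 + 1) + U a 1 m0 = (W : ℤ) ∧
    ∀ q : ℕ, q.Prime → q ∣ W → 4 * m0 + 1 ≤ q ∧
      ∃ (F : Type) (_ : Field F) (g : F), CharP F q ∧ g ^ 2 = (a : F) * g - 1 ∧
        g ^ (2 * m0 + 1) = 1 ∧ (∀ k : ℕ, 0 < k → k < 2 * m0 + 1 → (g ^ 2) ^ k ≠ 1) ∧
        (((a ^ 2 - 4 : ℤ)) : F) ≠ 0)

/-- The data of a residue field: as `FL.Dat`, with `U_T/rt r` reducing to `0` instead of the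
condition on the `r i`. -/
structure Dt (a ε δ : ℤ) (r : Fin 3 → ℤ) (m0 : ℕ) (F : Type) [Field F] (g : F) : Prop where
  hm0 : 2 ≤ m0
  hg : g ^ 2 = (a : F) * g - (ε : F)
  hw : (δ : F) * g * ((ε : F) * g ^ 2) ^ m0 = 1
  hord : ∀ k : ℕ, 0 < k → k < Tt ε m0 → ((ε : F) * g ^ 2) ^ k ≠ 1
  h2 : (2 : F) ≠ 0
  h3 : (3 : F) ≠ 0
  hD : (((a ^ 2 - 4 * ε : ℤ)) : F) ≠ 0
  hr : Rl a ε g ((U a ε (Tt ε m0) : ℝ) / (rt r : ℝ)) 0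
  hc : cc (wr a ε r) (pp a ε) (xd a ε δ) m0 ≠ 0 ∧
    Rl a ε g (cc (wr a ε r) (pp a ε) (xd a ε δ) m0)⁻¹ 0
  hc' : cc (wr a ε r) (pp a ε) (xd a ε δ) ((m0 : ℤ) - Tt ε m0) ≠ 0 ∧
    Rl a ε g (cc (wr a ε r) (pp a ε) (xd a ε δ) ((m0 : ℤ) - Tt ε m0))⁻¹ 0

/-- `t = U_T^{jt r}/rt r`. -/
noncomputable def tt (a ε : ℤ) (r : Fin 3 → ℤ) (m0 : ℕ) : ℝ :=
  (U a ε (Tt ε m0) : ℝ) ^ jt r / (rt r : ℝ)

end Pool.Agent.H410.FM
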