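import Pool.Agent.H410.FM.Stm
import Pool.Agent.H410.FC.Bas

/-!
Closed form at `J = -1` and the recurrence of the numbers `aS` (statement `S_ASB`), written by
helper176.
-/

set_option autoImplicit false

namespace Pool.Agent.H410.FM

open Finset Polynomial
open Pool.Agent.H410.FL (V Sg xd S1 S2 S3 hl SH Wt wr Hpx nw cc ac AM DD Dc Dl jt)
open Pool.Agent.H410.FC (OK U sD al be pp DK Cj Rl Tt xt XX QQ pik VV EE FF ea ww C3 BF rr)
open Pool.Agent.H410.FC (eps_sq eps_mul abs_eps al_ge al_pos abs_al abs_be_mul abs_be_le abs_pp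
  pp_inv pp_ne)

namespace P_ASB

theorem abs_xd {a ε δ : ℤ} (h : OK a ε) (hd : Sg ε δ) : |xd a ε δ| = al a ε := by
  have h1 : |(δ : ℝ)| = 1 := by
    rcases hd.1 with h | h <;> subst h <;> norm_num
  unfold xd
  rw [abs_neg, abs_mul, h1, one_mul, abs_al h]

theorem quarter {y : ℝ} (h : |y| ≤ 5 / 8) : 1 / 4 ≤ |1 + y| := by
  obtain ⟨h1, h2⟩ := abs_le.1 h
  rw [abs_of_nonneg (by linarith)]
  linarith

theorem quarter' {y : ℝ} (h : 8 / 5 ≤ |y|) : 1 / 4 ≤ |1 + y| := by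
  have h1 := abs_sub (1 + y) 1
  rw [abs_one, add_sub_cancel_left] at h1
  linarith

theorem hpx {a ε δ : ℤ} (h : OK a ε) (hd : Sg ε δ) : Hpx (pp a ε) (xd a ε δ) := by
  have h1 := al_ge h
  have h2 := abs_xd h hd
  have h3 := abs_pp h
  refine ⟨?_, ?_, ?_, ?_, ?_⟩
  · rw [h3]
    nlinarith
  · rw [h2]
    linarith
  · rw [h2, h3]
    nlinarith
  · exact quarter' (by rw [h2]; exact h1)
  · refine quarter ?_
    rw [abs_mul, h2, pp_inv h, abs_mul, abs_eps h, one_mul, abs_pow]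
    have h4 := abs_be_mul h
    have h5 := abs_be_le h
    calc al a ε * |be a ε| ^ 2 = (|be a ε| * al a ε) * |be a ε| := by ring
      _ = |be a ε| := by rw [h4, one_mul]
      _ ≤ 5 / 8 := h5

end P_ASB

theorem t_ASB (hCF : Pool.Agent.H410.FL.S_CF) (hREC : Pool.Agent.H410.FL.S_REC) : S_ASB := by
  intro a ε δ r h hd s K hK
  refine ⟨?_, fun J => ?_⟩
  · unfold aS
    rw [hCF a ε δ r h hd K hK, neg_add_cancel, mul_zero, zpow_zero]
    ring
  · unfold aS
    rw [hREC _ _ _ (P_ASB.hpx h hd) K hK J]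
    have e : pp a ε ^ ((K : ℤ) * (J + 1 + 1)) = pp a ε ^ K * pp a ε ^ ((K : ℤ) * (J + 1)) := by
      rw [← zpow_natCast, ← zpow_add₀ (pp_ne h)]
      congr 1
      ring
    rw [e]
    ring

end Pool.Agent.H410.FM
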