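import Pool.Agent.H410.FM.Stm

/-!
The entries are conjugate pairs (statement `S_ENT`), helper864 after `FL/P_ENT.lean`.
-/

set_option autoImplicit false
set_option linter.unusedVariables false

namespace Pool.Agent.H410.FM

open Finset Polynomial
open Pool.Agent.H475.QZ (nu)
open Pool.Agent.H410.FL (V Sg xd S1 S2 S3 hl SH Wt wr Hpx nw cc ac AM DD Dc Dl jt eta)
open Pool.Agent.H410.FC (OK U sD al be pp DK Cj Rl Tt xt XX QQ pik VV EE FF ea ww C3 BF rr)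

namespace P_ENT

theorem cyc_aeval (d : ℕ) (z : ℝ) : aeval z (cyclotomic d ℤ) = (cyclotomic d ℝ).eval z := by
  rw [aeval_def, eval₂_eq_eval_map, algebraMap_int_eq, map_cyclotomic_int]

section

variable {a ε : ℤ}

theorem cj_pow (hCJ : Pool.Agent.H410.FC.S_CJ) (h : OK a ε) {z z' : ℝ} (hz : Cj a ε z z')
    (n : ℕ) : Cj a ε (z ^ n) (z' ^ n) := by
  obtain ⟨-, -, -, -, -, -, -, -, -, -, -, h12, -⟩ := hCJ a ε h
  have := h12 (X ^ n) z z' hz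
  simpa using this

theorem cj_Dl (hCJ : Pool.Agent.H410.FC.S_CJ) (h : OK a ε) (δ : ℤ) (J : ℕ) :
    Cj a ε (Dl ε δ (al a ε) J) (Dl ε δ (be a ε) J) := by
  obtain ⟨h1, -, h3, h4, -, h6, -, -, -, h10, -, h12, -⟩ := hCJ a ε h
  have heta : ∀ d : ℕ, Cj a ε (FL.eta ε δ d * al a ε) (FL.eta ε δ d * be a ε) := by
    intro d
    have e1 : FL.eta ε δ d = ((δ * ε ^ ((d - 1) / 2) : ℤ) : ℝ) := by
      unfold FL.eta
      push_cast
      rfl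
    rw [e1]
    exact h3 _ _ _ _ (h1 _) h6
  unfold Dl
  refine h3 _ _ _ _ (h10 _ _ _ fun d _ => ?_) (h10 _ _ _ fun d _ => ?_)
  · rw [← cyc_aeval, ← cyc_aeval]
    exact h12 _ _ _ (heta d)
  · rw [← cyc_aeval, ← cyc_aeval]
    exact h12 _ _ _ (h4 _ _ (heta d))

theorem cj_DK (hDIVR : Pool.Agent.H410.FC.S_DIVR) (h : OK a ε) {K : ℕ} (hK : 1 ≤ K) :
    Cj a ε (DK (pp a ε) K) (DK (pp a ε)⁻¹ K) := by
  have h1 := hDIVR a ε h K 1 le_rfl hK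
  have e1 : (U a ε 1 : ℝ) = 1 := by simp [U]
  rwa [e1, div_one, div_one] at h1

/-- the numbers `D_K^3 h_l` -/
theorem cj_hl (hCJ : Pool.Agent.H410.FC.S_CJ) (hDIVR : Pool.Agent.H410.FC.S_DIVR) (h : OK a ε)
    (δ : ℤ) (r : Fin 3 → ℤ) {K l : ℕ} (hl1 : 1 ≤ l) (hlK : l ≤ K) :
    Cj a ε (DK (pp a ε) K ^ 3 * hl a ε δ r l) (DK (pp a ε)⁻¹ K ^ 3 * hl a ε δ r l) := by
  obtain ⟨h1, h2, h3, h4, h5, h6, h7, h8, h9, -, -, -, -⟩ := hCJ a ε h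
  have hDK := cj_DK hDIVR h (hl1.trans hlK)
  have hD := hDIVR a ε h K l hl1 hlK
  have e : ∀ d : ℝ, d ^ 3 * hl a ε δ r l = ((2 : ℤ) : ℝ) * (((r 0 * δ ^ l : ℤ) : ℝ) *
      (d / (U a ε l : ℝ) * d ^ 2) + ((r 1 * δ ^ l * V a ε l : ℤ) : ℝ) *
      ((d / (U a ε l : ℝ)) ^ 2 * d) + ((r 2 * (δ * ε) ^ l : ℤ) : ℝ) * (d / (U a ε l : ℝ)) ^ 3) := by
    intro d
    unfold hl
    push_cast
    ring
  rw [e, e]
  refine h3 _ _ _ _ (h1 2) (h2 _ _ _ _ (h2 _ _ _ _ ?_ ?_) ?_)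
  · exact h3 _ _ _ _ (h1 _) (h3 _ _ _ _ hD (cj_pow hCJ h hDK 2))
  · exact h3 _ _ _ _ (h1 _) (h3 _ _ _ _ (cj_pow hCJ h hD 2) hDK)
  · exact h3 _ _ _ _ (h1 _) (cj_pow hCJ h hD 3)

/-- the pair of the values at `J = -1` -/
theorem base (hASB : S_ASB) (hCJ : Pool.Agent.H410.FC.S_CJ) (hDIVR : Pool.Agent.H410.FC.S_DIVR)
    (h : OK a ε) {δ : ℤ} (hδ : Sg ε δ) (r : Fin 3 → ℤ) (s : ℤ) {K : ℕ}
    (hK : 1 ≤ K) :
    Cj a ε (DK (pp a ε) K ^ 3 * aS a ε δ r s K (-1))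
      (DK (pp a ε)⁻¹ K ^ 3 * (pp a ε ^ K * aS a ε δ r s K (-1))) := by
  obtain ⟨h1, h2, h3, h4, h5, h6, h7, h8, h9, -, -, -, -⟩ := hCJ a ε h
  have hpb : pp a ε * (δ * be a ε) = δ * al a ε := by
    have k1 := Pool.Agent.H410.FC.al_mul_be h
    have k2 := Pool.Agent.H410.FC.eps_mul h
    unfold Pool.Agent.H410.FC.pp
    calc (ε : ℝ) * al a ε ^ 2 * (δ * be a ε) = ε * (al a ε * be a ε) * (δ * al a ε) := by ring
      _ = δ * al a ε := by rw [k1, k2, one_mul]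
  have e1 : DK (pp a ε) K ^ 3 * aS a ε δ r s K (-1) =
      -((((δ : ℤ) : ℝ) * be a ε) ^ K * (DK (pp a ε) K ^ 3 * ((s : ℤ) : ℝ) +
        -(∑ l ∈ Icc 1 K, DK (pp a ε) K ^ 3 * hl a ε δ r l))) := by
    rw [(hASB a ε δ r h hδ s K hK).1, ← Finset.mul_sum]
    ring
  have e2 : DK (pp a ε)⁻¹ K ^ 3 * (pp a ε ^ K * aS a ε δ r s K (-1)) =
      -((((δ : ℤ) : ℝ) * al a ε) ^ K * (DK (pp a ε)⁻¹ K ^ 3 * ((s : ℤ) : ℝ) +
        -(∑ l ∈ Icc 1 K, DK (pp a ε)⁻¹ K ^ 3 * hl a ε δ r l))) := by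
    rw [(hASB a ε δ r h hδ s K hK).1, ← Finset.mul_sum, ← hpb, mul_pow]
    ring
  rw [e1, e2]
  have hDK := cj_DK hDIVR h hK
  have hab : Cj a ε (((δ : ℤ) : ℝ) * be a ε) (((δ : ℤ) : ℝ) * al a ε) :=
    h3 _ _ _ _ (h1 δ) (h5 _ _ h6)
  refine h4 _ _ (h3 _ _ _ _ (cj_pow hCJ h hab K) (h2 _ _ _ _
    (h3 _ _ _ _ (cj_pow hCJ h hDK 3) (h1 s)) (h4 _ _ (h9 _ _ _ fun l hl => ?_))))
  rw [Finset.mem_Icc] at hl
  exact cj_hl hCJ hDIVR h δ r hl.1 hl.2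

end

end P_ENT

open P_ENT in
theorem t_ENT (hHPX : Pool.Agent.H410.FL.S_HPX) (hASB : S_ASB) (hCJ : Pool.Agent.H410.FC.S_CJ)
    (hDIVR : Pool.Agent.H410.FC.S_DIVR) (hVW : Pool.Agent.H410.FL.S_VW)
    (hDIVC : Pool.Agent.H410.FL.S_DIVC) (hDLS : Pool.Agent.H410.FL.S_DLS) : S_ENT := by
  intro a ε δ r h hδ s K hK
  have h0 := base hASB hCJ hDIVR h hδ r s hK
  have hDK := cj_DK hDIVR h hK
  have hpow := fun {z z' : ℝ} (hz : Cj a ε z z') (n : ℕ) => cj_pow hCJ h hz n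
  have hDl := cj_Dl hCJ h δ
  have hR := (hASB a ε δ r h hδ s K hK).2
  obtain ⟨f, hf⟩ : ∃ f : ℤ → ℝ, ∀ J : ℤ, aS a ε δ r s K J = f J := ⟨_, fun _ => rfl⟩
  rw [hf] at h0
  simp only [hf] at hR
  obtain ⟨h1, h2, h3, h4, h5, h6, h7, h8, -, -, -, -, -⟩ := hCJ a ε h
  have hp : pp a ε ≠ 0 := Pool.Agent.H410.FC.pp_ne h
  set w := wr a ε r with hw
  set α := al a ε with hα
  set β := be a ε with hβ
  set p := pp a ε with hpd
  set x := xd a ε δ with hx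
  have hM : Cj a ε (DK p K ^ 3) (DK p⁻¹ K ^ 3) := hpow hDK 3
  set M : ℝ := DK p K ^ 3 with hMd
  set M' : ℝ := DK p⁻¹ K ^ 3 with hMd'
  have hP : p ^ K ≠ 0 := pow_ne_zero _ hp
  have hpK : Cj a ε (p ^ K) (p ^ K)⁻¹ := by
    rw [← inv_pow]
    exact hpow h7 K
  have hpK' : Cj a ε (p ^ K)⁻¹ (p ^ K) := h5 _ _ hpK
  -- the products `Δ c`
  have hc : ∀ j : ℕ, Cj a ε (Dl ε δ α j * cc w p x (j : ℤ))
      (Dl ε δ β j * (-cc w p x (-1 - (j : ℤ)))) := by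
    intro j
    have k1 := hDIVC a ε δ h hδ j j le_rfl
    have k2 := h3 _ _ _ _ ((hVW a ε r h (j : ℤ)).1) k1
    have k3 : Wt (wr a ε r) (((j : ℤ) : ℝ)) *
        (Dl ε δ (al a ε) j / (1 + xd a ε δ * pp a ε ^ (j : ℤ))) =
        Dl ε δ α j * cc w p x (j : ℤ) := by
      rw [← hα, ← hx, ← hpd, ← hw]
      unfold cc
      ring
    have k4 : -Wt (wr a ε r) (((-1 - (j : ℤ) : ℤ) : ℝ)) *
        (Dl ε δ (be a ε) j / (1 + xd a ε δ * pp a ε ^ (-1 - (j : ℤ)))) =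
        Dl ε δ β j * (-cc w p x (-1 - (j : ℤ))) := by
      rw [← hβ, ← hx, ← hpd, ← hw]
      unfold cc
      ring
    rw [k3, k4] at k2
    exact k2
  have hq : ∀ j : ℕ, Cj a ε (Dl ε δ α (j + 1) / Dl ε δ α j) (Dl ε δ β (j + 1) / Dl ε δ β j) :=
    fun j => (hDLS a ε δ h hδ j).2.2
  have hnα : ∀ j : ℕ, Dl ε δ α j ≠ 0 := fun j => (hDLS a ε δ h hδ j).1
  have hnβ : ∀ j : ℕ, Dl ε δ β j ≠ 0 := fun j => (hDLS a ε δ h hδ j).2.1
  -- the recursion downwards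
  have rdn : ∀ J : ℤ, f (J - 1) = (p ^ K)⁻¹ * (f J + cc w p x J) := by
    intro J
    have := hR (J - 1)
    rw [sub_add_cancel] at this
    rw [this, sub_add_cancel, inv_mul_cancel_left₀ hP]
  have r0 : f ((0 : ℕ) : ℤ) = p ^ K * f (-1) - cc w p x ((0 : ℕ) : ℤ) := by
    have k := hR (-1)
    have e : (-1 : ℤ) + 1 = ((0 : ℕ) : ℤ) := by norm_num
    rw [e] at k
    exact k
  have r1 : f (-2 - ((0 : ℕ) : ℤ)) =
      (p ^ K)⁻¹ * (f (-1) + cc w p x (-1 - ((0 : ℕ) : ℤ))) := by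
    have k := rdn (-1)
    have e : (-1 : ℤ) - 1 = -2 - ((0 : ℕ) : ℤ) := by norm_num
    have e' : (-1 : ℤ) - ((0 : ℕ) : ℤ) = -1 := by norm_num
    rw [e] at k
    rw [e']
    exact k
  have rs : ∀ j : ℕ, f ((j + 1 : ℕ) : ℤ) =
      p ^ K * f (j : ℤ) - cc w p x ((j + 1 : ℕ) : ℤ) := by
    intro j
    have := hR (j : ℤ)
    push_cast
    exact this
  have rt : ∀ j : ℕ, f (-2 - ((j + 1 : ℕ) : ℤ)) =
      (p ^ K)⁻¹ * (f (-2 - (j : ℤ)) + cc w p x (-1 - ((j + 1 : ℕ) : ℤ))) := by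
    intro j
    have := rdn (-2 - (j : ℤ))
    have e1 : -2 - (j : ℤ) - 1 = -2 - ((j + 1 : ℕ) : ℤ) := by
      push_cast
      ring
    have e2 : -1 - ((j + 1 : ℕ) : ℤ) = -2 - (j : ℤ) := by
      push_cast
      ring
    rw [e2, ← e1]
    exact this
  have P1 : ∀ j : ℕ, Cj a ε (M * Dl ε δ α j * f (j : ℤ))
      (M' * Dl ε δ β j * (p ^ K * f (-2 - (j : ℤ)))) := by
    intro j
    induction j with
    | zero =>
      have k := h2 _ _ _ _ (h3 _ _ _ _ (h3 _ _ _ _ (hDl 0) hpK) h0)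
        (h4 _ _ (h3 _ _ _ _ hM (hc 0)))
      have e1 : Dl ε δ α 0 * p ^ K * (M * f (-1)) +
          -(M * (Dl ε δ α 0 * cc w p x ((0 : ℕ) : ℤ))) =
          M * Dl ε δ α 0 * f ((0 : ℕ) : ℤ) := by
        rw [r0]
        ring
      have e2 : Dl ε δ β 0 * (p ^ K)⁻¹ * (M' * (p ^ K * f (-1))) +
          -(M' * (Dl ε δ β 0 * -cc w p x (-1 - ((0 : ℕ) : ℤ)))) =
          M' * Dl ε δ β 0 * (p ^ K * f (-2 - ((0 : ℕ) : ℤ))) := by
        rw [r1]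
        field_simp
      rw [← e1, ← e2]
      exact k
    | succ j ih =>
      have k := h2 _ _ _ _ (h3 _ _ _ _ (h3 _ _ _ _ (hq j) hpK) ih)
        (h4 _ _ (h3 _ _ _ _ hM (hc (j + 1))))
      have e1 : Dl ε δ α (j + 1) / Dl ε δ α j * p ^ K * (M * Dl ε δ α j * f (j : ℤ)) +
          -(M * (Dl ε δ α (j + 1) * cc w p x ((j + 1 : ℕ) : ℤ))) =
          M * Dl ε δ α (j + 1) * f ((j + 1 : ℕ) : ℤ) := by
        rw [rs]
        have := hnα j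
        field_simp
        ring
      have e2 : Dl ε δ β (j + 1) / Dl ε δ β j * (p ^ K)⁻¹ *
          (M' * Dl ε δ β j * (p ^ K * f (-2 - (j : ℤ)))) +
          -(M' * (Dl ε δ β (j + 1) * -cc w p x (-1 - ((j + 1 : ℕ) : ℤ)))) =
          M' * Dl ε δ β (j + 1) * (p ^ K * f (-2 - ((j + 1 : ℕ) : ℤ))) := by
        rw [rt]
        have := hnβ j
        field_simp
      rw [← e1, ← e2]
      exact k
  have P3 : ∀ j : ℕ, Cj a ε (M * Dl ε δ β j * f (-2 - (j : ℤ)))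
      (M' * Dl ε δ α j * (p ^ K * f (j : ℤ))) := by
    intro j
    induction j with
    | zero =>
      have k := h3 _ _ _ _ hpK' (h2 _ _ _ _ (h3 _ _ _ _ (h5 _ _ (hDl 0)) h0)
        (h4 _ _ (h3 _ _ _ _ hM (h5 _ _ (hc 0)))))
      have e1 : (p ^ K)⁻¹ * (Dl ε δ β 0 * (M * f (-1)) +
          -(M * (Dl ε δ β 0 * -cc w p x (-1 - ((0 : ℕ) : ℤ))))) =
          M * Dl ε δ β 0 * f (-2 - ((0 : ℕ) : ℤ)) := by
        rw [r1]
        ring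
      have e2 : p ^ K * (Dl ε δ α 0 * (M' * (p ^ K * f (-1))) +
          -(M' * (Dl ε δ α 0 * cc w p x ((0 : ℕ) : ℤ)))) =
          M' * Dl ε δ α 0 * (p ^ K * f ((0 : ℕ) : ℤ)) := by
        rw [r0]
        ring
      rw [← e1, ← e2]
      exact k
    | succ j ih =>
      have k := h3 _ _ _ _ hpK' (h2 _ _ _ _ (h3 _ _ _ _ (h5 _ _ (hq j)) ih)
        (h4 _ _ (h3 _ _ _ _ hM (h5 _ _ (hc (j + 1))))))
      have e1 : (p ^ K)⁻¹ * (Dl ε δ β (j + 1) / Dl ε δ β j *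
          (M * Dl ε δ β j * f (-2 - (j : ℤ))) +
          -(M * (Dl ε δ β (j + 1) * -cc w p x (-1 - ((j + 1 : ℕ) : ℤ))))) =
          M * Dl ε δ β (j + 1) * f (-2 - ((j + 1 : ℕ) : ℤ)) := by
        rw [rt]
        have := hnβ j
        field_simp
      have e2 : p ^ K * (Dl ε δ α (j + 1) / Dl ε δ α j *
          (M' * Dl ε δ α j * (p ^ K * f (j : ℤ))) +
          -(M' * (Dl ε δ α (j + 1) * cc w p x ((j + 1 : ℕ) : ℤ)))) =
          M' * Dl ε δ α (j + 1) * (p ^ K * f ((j + 1 : ℕ) : ℤ)) := by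
        rw [rs]
        have := hnα j
        field_simp
        ring
      rw [← e1, ← e2]
      exact k
  intro J
  rw [hf, hf]
  rcases J with j | j
  · exact P1 j
  · rcases j with _ | j
    · have e3 : (-2 - Int.negSucc 0 : ℤ) = -1 := rfl
      have e4 : Dc ε δ β α (Int.negSucc 0) = 1 := rfl
      have e5 : Dc ε δ α β (Int.negSucc 0) = 1 := rfl
      have e6 : (Int.negSucc 0 : ℤ) = -1 := rfl
      rw [e3, e4, e5, mul_one, mul_one, e6]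
      exact h0
    · have k := P3 j
      have e0 : Int.negSucc (j + 1) = -2 - (j : ℤ) := by
        rw [Int.negSucc_eq]
        push_cast
        ring
      have e1 : f (Int.negSucc (j + 1)) = f (-2 - (j : ℤ)) := by rw [e0]
      have e2 : f (-2 - Int.negSucc (j + 1)) = f (j : ℤ) := by
        rw [e0, show (-2 - (-2 - (j : ℤ)) : ℤ) = (j : ℤ) by ring]
      have e3 : Dc ε δ α β (Int.negSucc (j + 1)) = Dl ε δ β j := rfl
      have e4 : Dc ε δ β α (Int.negSucc (j + 1)) = Dl ε δ α j := rfl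
      rw [e1, e2, e3, e4]
      exact k

end Pool.Agent.H410.FM
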