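import Pool.Agent.H410.FM.Stm

/-!
The data of the residue field for given `m0, W, q, k` (helper20), after `FL/P_EX.lean` (helper501).
-/

set_option autoImplicit false

namespace Pool.Agent.H410.FM

open Finset Polynomial
open Pool.Agent.H410.FL (V Sg xd S1 S2 S3 hl SH Wt wr Hpx nw cc ac AM DD Dc Dl jt)
open Pool.Agent.H410.FC (OK U sD al be pp DK Cj Rl Tt xt XX QQ pik VV EE FF ea ww C3 BF rr)

namespace P_EXA

theorem Rl_div {a ε : ℤ} {F : Type} [Field F] {g : F} {q k : ℕ} (hq : q.Prime) [CharP F q]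
    {W R : ℤ} (hW : (q : ℤ) ^ (k + 1) ∣ W) (hR : ¬ (q : ℤ) ^ (k + 1) ∣ R) :
    (R : ℝ) ≠ 0 ∧ Rl a ε g ((W : ℝ) / (R : ℝ)) 0 := by
  have hR0 : R ≠ 0 := by
    rintro rfl
    exact hR (dvd_zero _)
  have hR0' : (R : ℝ) ≠ 0 := by exact_mod_cast hR0
  refine ⟨hR0', ?_⟩
  have hfin : FiniteMultiplicity (q : ℤ) R := by
    rw [Int.finiteMultiplicity_iff]
    refine ⟨?_, hR0⟩
    rw [Int.natAbs_natCast]
    exact hq.one_lt.ne'
  obtain ⟨R', hR', hnd⟩ := hfin.exists_eq_pow_mul_and_not_dvd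
  generalize multiplicity (q : ℤ) R = j at hR'
  have hj : j ≤ k := by
    by_contra hc
    push Not at hc
    apply hR
    rw [hR']
    exact Dvd.dvd.mul_right (pow_dvd_pow _ hc) _
  obtain ⟨W', hW'⟩ := hW
  have hq0 : (q : ℝ) ≠ 0 := by exact_mod_cast hq.ne_zero
  obtain ⟨i, hi⟩ := Nat.exists_eq_add_of_le hj
  refine ⟨C ((q : ℤ) ^ (i + 1) * W'), C R', ?_, ?_, ?_⟩
  · rw [aeval_C, eq_intCast]
    intro h0
    exact hnd ((CharP.intCast_eq_zero_iff F q R').1 h0)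
  · rw [aeval_C, aeval_C, eq_intCast, eq_intCast]
    rw [mul_div_assoc', div_eq_iff hR0', hW', hR', hi]
    push_cast
    ring
  · rw [aeval_C, aeval_C, eq_intCast, eq_intCast]
    have : ((q : F)) = 0 := CharP.cast_eq_zero F q
    push_cast
    rw [this]
    simp

theorem core (hRL : Pool.Agent.H410.FC.S_RL) (hHPX : Pool.Agent.H410.FL.S_HPX) (hVW : Pool.Agent.H410.FL.S_VW) {a ε δ : ℤ}
    {r : Fin 3 → ℤ} (hOK : OK a ε) (hSg : Sg ε δ) {F : Type} [iF : Field F] {g : F} {m0 : ℕ}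
    (hg : g ^ 2 = (a : F) * g - (ε : F)) {q k : ℕ} (hq : q.Prime) [CharP F q] {W : ℤ}
    (hW : (q : ℤ) ^ (k + 1) ∣ W)
    (hR : ¬ (q : ℤ) ^ (k + 1) ∣
      RR (a ^ 2 - 4 * ε) r m0 * RR (a ^ 2 - 4 * ε) r (3 * (m0 : ℤ) + 1))
    {κ : ℝ} {κF : F} (hκ : Rl a ε g κ κF) (hu : 1 + xd a ε δ * pp a ε ^ m0 = κ * (W : ℝ))
    (h3 : (3 : F) ≠ 0) (hw : (δ : F) * g * ((ε : F) * g ^ 2) ^ m0 = 1) :
    (cc (wr a ε r) (pp a ε) (xd a ε δ) m0 ≠ 0 ∧
      Rl a ε g (cc (wr a ε r) (pp a ε) (xd a ε δ) m0)⁻¹ 0) ∧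
    (cc (wr a ε r) (pp a ε) (xd a ε δ) ((m0 : ℤ) - Tt ε m0) ≠ 0 ∧
      Rl a ε g (cc (wr a ε r) (pp a ε) (xd a ε δ) ((m0 : ℤ) - Tt ε m0))⁻¹ 0) := by
  obtain ⟨hint, hal, hadd, hmul, hneg, hinv, hzpow, -, -, -⟩ := hRL a ε hOK F iF g hg
  obtain ⟨-, hxabs, hxsq⟩ := hHPX a ε δ hOK hSg
  have hp0 : pp a ε ≠ 0 := Pool.Agent.H410.FC.pp_ne hOK
  have hone : Rl a ε g (1 : ℝ) (1 : F) := by
    have := hint 1
    simpa using this
  have hpow : ∀ (z : ℝ) (f : F), Rl a ε g z f → ∀ n : ℕ, Rl a ε g (z ^ n) (f ^ n) := by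
    intro z f hz n
    induction n with
    | zero => simpa using hone
    | succ n ih =>
      rw [pow_succ, pow_succ]
      exact hmul _ _ _ _ ih hz
  have hnum : ∀ n : ℤ, ∃ f : F, Rl a ε g (n : ℝ) f := fun n => ⟨_, hint n⟩
  have hsD : ∃ f : F, Rl a ε g (sD a ε) f := by
    have h := hadd _ _ _ _ (hmul _ _ _ _ (hint 2) hal) (hneg _ _ (hint a))
    have e : ((2 : ℤ) : ℝ) * al a ε + -(a : ℝ) = sD a ε := by
      unfold al
      push_cast
      ring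
    rw [e] at h
    exact ⟨_, h⟩
  have hWt : ∀ n : ℤ, ∃ f : F, Rl a ε g (Wt (wr a ε r) (n : ℝ)) f := by
    intro n
    obtain ⟨d, hd⟩ := hsD
    have e : Wt (wr a ε r) (n : ℝ) =
        sD a ε * (((2 * r 0 : ℤ) : ℝ) + sD a ε ^ 2 * ((r 2 * (n * (n + 1)) : ℤ) : ℝ)) +
          sD a ε ^ 2 * ((2 * r 1 * (2 * n + 1) : ℤ) : ℝ) := by
      unfold Wt wr
      simp only [Matrix.cons_val_zero, Matrix.cons_val_one, Matrix.cons_val_two, Matrix.head_cons,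
        Matrix.tail_cons, Matrix.cons_val]
      push_cast
      ring
    rw [e]
    exact ⟨_, hadd _ _ _ _ (hmul _ _ _ _ hd (hadd _ _ _ _ (hint _)
      (hmul _ _ _ _ (hpow _ _ hd 2) (hint _)))) (hmul _ _ _ _ (hpow _ _ hd 2) (hint _))⟩
  have hp : Rl a ε g (pp a ε) ((ε : F) * g ^ 2) := by
    unfold pp
    exact hmul _ _ _ _ (hint ε) (hpow _ _ hal 2)
  have hx : Rl a ε g (xd a ε δ) (-((δ : F) * g)) := by
    unfold xd
    exact hneg _ _ (hmul _ _ _ _ (hint δ) hal)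
  -- the number `w`
  obtain ⟨w, hwdef⟩ : ∃ w : ℝ, w = xd a ε δ * pp a ε ^ m0 := ⟨_, rfl⟩
  have hwR : Rl a ε g w (-1) := by
    have h1 := hmul _ _ _ _ hx (hpow _ _ hp m0)
    rw [neg_mul, hw] at h1
    rw [hwdef]
    exact h1
  have hal85 := Pool.Agent.H410.FC.al_ge hOK
  have hwabs : 1 < |w| := by
    rw [hwdef, abs_mul, abs_pow, hxabs]
    have h2 : |pp a ε| = al a ε ^ 2 := Pool.Agent.H410.FC.abs_pp hOK
    have h3 : (1 : ℝ) ≤ |pp a ε| ^ m0 := one_le_pow₀ (by rw [h2]; nlinarith)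
    nlinarith
  have hw0 : w ≠ 0 := by
    intro h
    rw [h, abs_zero] at hwabs
    linarith
  have hu0 : 1 + w ≠ 0 := by
    intro h
    have h1 : w = -1 := by linarith
    rw [h1] at hwabs
    norm_num at hwabs
  have hw2 : w ^ 2 = ε * pp a ε ^ (2 * m0 + 1) := by
    rw [hwdef, mul_pow, hxsq]
    ring
  rw [← hwdef] at hu
  -- the numbers `R`
  have hR1 : ¬ (q : ℤ) ^ (k + 1) ∣ RR (a ^ 2 - 4 * ε) r m0 :=
    fun h => hR (Dvd.dvd.mul_right h _)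
  have hR2 : ¬ (q : ℤ) ^ (k + 1) ∣ RR (a ^ 2 - 4 * ε) r (3 * (m0 : ℤ) + 1) :=
    fun h => hR (Dvd.dvd.mul_left h _)
  obtain ⟨hR10, hR11⟩ := Rl_div (a := a) (ε := ε) (g := g) hq hW hR1
  obtain ⟨hR20, hR21⟩ := Rl_div (a := a) (ε := ε) (g := g) hq hW hR2
  have hv1 : Wt (wr a ε r) (((m0 : ℤ)) : ℝ) * (-Wt (wr a ε r) (((-1 - (m0 : ℤ) : ℤ) : ℝ))) =
      ((RR (a ^ 2 - 4 * ε) r m0 : ℤ) : ℝ) := (hVW a ε r hOK m0).2
  have hv2 : Wt (wr a ε r) (((3 * (m0 : ℤ) + 1 : ℤ)) : ℝ) *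
      (-Wt (wr a ε r) (((-1 - (3 * (m0 : ℤ) + 1) : ℤ) : ℝ))) =
      ((RR (a ^ 2 - 4 * ε) r (3 * (m0 : ℤ) + 1) : ℤ) : ℝ) := (hVW a ε r hOK _).2
  generalize hRa : ((RR (a ^ 2 - 4 * ε) r m0 : ℤ) : ℝ) = R1 at *
  generalize hRb : ((RR (a ^ 2 - 4 * ε) r (3 * (m0 : ℤ) + 1) : ℤ) : ℝ) = R2 at *
  obtain ⟨f1, hf1⟩ := hWt (m0 : ℤ)
  obtain ⟨f1', hf1'⟩ := hWt (-1 - (m0 : ℤ))
  obtain ⟨f2, hf2⟩ := hWt (3 * (m0 : ℤ) + 1)
  -- a general rule
  have rule : ∀ (R A B c : ℝ) (fA fc : F), R ≠ 0 → A * (-B) = R → Rl a ε g ((W : ℝ) / R) 0 →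
      Rl a ε g A fA → c ≠ 0 → Rl a ε g c fc → ∀ z : ℝ, z = B / ((1 + w) * c) →
      z ≠ 0 ∧ Rl a ε g z⁻¹ 0 := by
    intro R A B c fA fc hR0 hAB hWR hA hc0 hc z hz
    have hA0 : A ≠ 0 := by
      rintro rfl
      exact hR0 (by rw [← hAB]; ring)
    have hB0 : B ≠ 0 := by
      rintro rfl
      exact hR0 (by rw [← hAB]; ring)
    refine ⟨?_, ?_⟩
    · rw [hz]
      exact div_ne_zero hB0 (mul_ne_zero hu0 hc0)
    · have e : z⁻¹ = κ * ((W : ℝ) / R) * -A * c := by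
        rw [hz, inv_div, hu, ← hAB]
        field_simp
      rw [e]
      have h5 := hmul _ _ _ _ (hmul _ _ _ _ (hmul _ _ _ _ hκ hWR) (hneg _ _ hA)) hc
      simpa using h5
  refine ⟨?_, ?_⟩
  · have hv1' : Wt (wr a ε r) (((-1 - (m0 : ℤ) : ℤ) : ℝ)) *
        (-Wt (wr a ε r) (((m0 : ℤ)) : ℝ)) = R1 := by rw [← hv1]; ring
    refine rule R1 _ _ 1 _ _ hR10 hv1' hR11 hf1' one_ne_zero hone _ ?_
    unfold cc
    rw [zpow_natCast, ← hwdef, mul_one]
  · have e0 : ∀ Q : ℝ, pp a ε ^ Tt ε m0 = Q →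
        xd a ε δ * pp a ε ^ ((m0 : ℤ) - Tt ε m0) = w / Q := by
      intro Q hQ
      rw [zpow_sub₀ hp0, zpow_natCast, zpow_natCast, hQ, hwdef]
      ring
    have hwinv : Rl a ε g w⁻¹ (-1)⁻¹ := (hinv _ _ hwR (neg_ne_zero.2 one_ne_zero)).2
    rcases Pool.Agent.H410.FC.eps_cases hOK with h | h
    · -- `ε = -1`
      have hT : Tt ε m0 = 2 * (2 * m0 + 1) := by
        unfold Tt
        rw [if_neg (by omega)]
      have hpodd : pp a ε ^ (2 * m0 + 1) = - w ^ 2 := by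
        rw [hw2, h]
        push_cast
        ring
      have hpT : pp a ε ^ Tt ε m0 = w ^ 4 := by
        rw [hT, Nat.mul_comm, pow_mul, hpodd]
        ring
      have hqne : w ^ 2 - w + 1 ≠ 0 := by nlinarith [sq_nonneg (w - 1), sq_nonneg w]
      have rq : Rl a ε g (w ^ 2 - w + 1) 3 := by
        have h1 := hadd _ _ _ _ (hadd _ _ _ _ (hpow _ _ hwR 2) (hneg _ _ hwR)) hone
        have e3 : w ^ 2 + -w + 1 = w ^ 2 - w + 1 := by ring
        have e4 : ((-1 : F)) ^ 2 + - -1 + 1 = 3 := by ring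
        rw [e3, e4] at h1
        exact h1
      refine rule R2 _ _ ((w ^ 2 - w + 1) * w⁻¹ ^ 3) _ _ hR20 hv2 hR21 hf2
        (mul_ne_zero hqne (pow_ne_zero _ (inv_ne_zero hw0)))
        (hmul _ _ _ _ rq (hpow _ _ hwinv 3)) _ ?_
      unfold cc
      have e1 : (((m0 : ℤ) - (Tt ε m0 : ℤ) : ℤ) : ℝ) = ((-1 - (3 * (m0 : ℤ) + 1) : ℤ) : ℝ) := by
        rw [hT]
        push_cast
        ring
      rw [e0 _ hpT, e1]
      have e2 : 1 + w / w ^ 4 = (1 + w) * ((w ^ 2 - w + 1) * w⁻¹ ^ 3) := by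
        field_simp
        ring
      rw [e2]
    · -- `ε = 1`
      have hT : Tt ε m0 = 2 * m0 + 1 := by
        unfold Tt
        rw [if_pos h]
      have hpT : pp a ε ^ Tt ε m0 = w ^ 2 := by
        rw [hT, hw2, h]
        push_cast
        ring
      refine rule R1 _ _ w⁻¹ _ _ hR10 hv1 hR11 hf1 (inv_ne_zero hw0) hwinv _ ?_
      unfold cc
      have e1 : (((m0 : ℤ) - (Tt ε m0 : ℤ) : ℤ) : ℝ) = ((-1 - (m0 : ℤ) : ℤ) : ℝ) := by
        rw [hT]
        push_cast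
        ring
      rw [e0 _ hpT, e1]
      have e2 : 1 + w / w ^ 2 = (1 + w) * w⁻¹ := by
        field_simp
        ring
      rw [e2]

theorem ne_char {F : Type} [Field F] {q : ℕ} [CharP F q] {n : ℤ} (h0 : n ≠ 0)
    (h1 : |n| < q) : (n : F) ≠ 0 := by
  intro h
  have h2 := (CharP.intCast_eq_zero_iff F q n).1 h
  have h3 := Int.le_of_dvd (abs_pos.2 h0) ((dvd_abs _ _).2 h2)
  omega

end P_EXA

open P_EXA in
theorem t_EXA (hRL : Pool.Agent.H410.FC.S_RL) (hHPX : Pool.Agent.H410.FL.S_HPX)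
    (hVW : Pool.Agent.H410.FL.S_VW) (hUV : S_UV) (hUID : Pool.Agent.H410.FL.S_UID) : S_EXA := by
  intro a ε δ r hOK hSg m0 W q k hm0 hPW hq hqW hqR3
  have hqR : ¬ (q : ℤ) ^ (k + 1) ∣
      RR (a ^ 2 - 4 * ε) r m0 * RR (a ^ 2 - 4 * ε) r (3 * (m0 : ℤ) + 1) :=
    fun h => hqR3 (Dvd.dvd.mul_right h _)
  have hqrt : ¬ (q : ℤ) ^ (k + 1) ∣ rt r := fun h => hqR3 (Dvd.dvd.mul_left h _)
  have hqW' : (q : ℤ) ^ (k + 1) ∣ (W : ℤ) := by exact_mod_cast hqW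
  have hqd : q ∣ W := dvd_trans (dvd_pow_self q (Nat.succ_ne_zero k)) hqW
  rcases Pool.Agent.H410.FC.eps_cases hOK with hε | hε
  · -- `ε = -1`
    obtain ⟨hVW', hq'⟩ := hPW.2.1 hε
    obtain ⟨hq1, hF⟩ := hq' q hq hqd
    have hσ : (δ * (-1) ^ m0 = 1 ∨ δ * (-1) ^ m0 = -1) := by
      rcases hSg.1 with h | h <;> rcases neg_one_pow_eq_or ℤ m0 with h' | h' <;>
        rw [h, h'] <;> norm_num
    obtain ⟨F, iF, g, hch, hg, hgl, hgo, hgD⟩ := hF _ hσ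
    have hδ2 : ((δ * (-1) ^ m0 : ℤ) : F) * ((δ * (-1) ^ m0 : ℤ) : F) = 1 := by
      rcases hσ with h | h <;> rw [h] <;> norm_num
    have h2F : (2 : F) ≠ 0 := by
      have := ne_char (F := F) (q := q) (n := 2) (by norm_num) (by
        rw [abs_of_pos (by norm_num)]
        have : 2 < q := by omega
        exact_mod_cast this)
      exact_mod_cast this
    have h3F : (3 : F) ≠ 0 := by
      have := ne_char (F := F) (q := q) (n := 3) (by norm_num) (by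
        rw [abs_of_pos (by norm_num)]
        have : 3 < q := by omega
        exact_mod_cast this)
      exact_mod_cast this
    have hgF : g ^ 2 = (a : F) * g - (ε : F) := by
      rw [hg, hε]
      push_cast
      ring
    have hwF : (δ : F) * g * ((ε : F) * g ^ 2) ^ m0 = 1 := by
      have e : (δ : F) * g * ((ε : F) * g ^ 2) ^ m0 =
          ((δ * (-1) ^ m0 : ℤ) : F) * g ^ (2 * m0 + 1) := by
        rw [hε]
        push_cast
        rw [mul_pow]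
        ring
      rw [e, hgl]
      exact hδ2
    obtain ⟨hint, hal, hadd, hmul, hneg, hinv, hzpow, -, -, -⟩ := hRL a ε hOK F iF g hgF
    have hone : Rl a ε g (1 : ℝ) (1 : F) := by
      have := hint 1
      simpa using this
    have hpow : ∀ (z : ℝ) (f : F), Rl a ε g z f → ∀ n : ℕ, Rl a ε g (z ^ n) (f ^ n) := by
      intro z f hz n
      induction n with
      | zero => simpa using hone
      | succ n ih =>
        rw [pow_succ, pow_succ]
        exact hmul _ _ _ _ ih hz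
    have hden := hadd _ _ _ _ (hpow _ _ hal (2 * m0 + 1)) (hint (δ * (-1) ^ m0))
    have hden0 : g ^ (2 * m0 + 1) + ((δ * (-1) ^ m0 : ℤ) : F) ≠ 0 := by
      rw [hgl, ← two_mul]
      refine mul_ne_zero h2F ?_
      intro h0
      rw [h0, mul_zero] at hδ2
      exact zero_ne_one hδ2
    obtain ⟨hd0, hdi⟩ := hinv _ _ hden hden0
    have hκ := hneg _ _ (hmul _ _ _ _ (hmul _ _ _ _ (hmul _ _ _ _ (hint (δ * (-1) ^ m0))
      (hpow _ _ hal (2 * m0 + 1))) (hint a)) hdi)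
    have hu := (hUID a ε δ hOK hSg m0).1 hε
    have hu' : 1 + xd a ε δ * pp a ε ^ m0 =
        -(((δ * (-1) ^ m0 : ℤ) : ℝ) * al a ε ^ (2 * m0 + 1) * (a : ℝ) *
          (al a ε ^ (2 * m0 + 1) + ((δ * (-1) ^ m0 : ℤ) : ℝ))⁻¹) * ((W : ℤ) : ℝ) := by
      have hV : (V a ε (2 * m0 + 1) : ℝ) = (a : ℝ) * (((W : ℤ)) : ℝ) := by
        rw [hε, hVW']
        push_cast
        ring
      have hc : ((δ * (-1) ^ m0 : ℤ) : ℝ) = (δ : ℝ) * (-1) ^ m0 := by push_cast; ring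
      rw [hV, ← hc] at hu
      generalize ((δ * (-1) ^ m0 : ℤ) : ℝ) = σ at *
      have h5 : (1 + xd a ε δ * pp a ε ^ m0) =
          -(σ * al a ε ^ (2 * m0 + 1) * ((a : ℝ) * (((W : ℤ)) : ℝ))) *
            (al a ε ^ (2 * m0 + 1) + σ)⁻¹ := by
        rw [← hu, mul_assoc, mul_inv_cancel₀ hd0, mul_one]
      rw [h5]
      ring
    have hT : Tt ε m0 = 2 * (2 * m0 + 1) := by
      unfold Tt
      rw [if_neg (by omega)]
    have hUT : (q : ℤ) ^ (k + 1) ∣ U a ε (Tt ε m0) := by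
      rw [hT, (hUV a ε hOK (2 * m0 + 1)).1, hε, hVW']
      exact dvd_mul_of_dvd_right (dvd_mul_of_dvd_right hqW' _) _
    obtain ⟨c1, c2⟩ := core hRL hHPX hVW (r := r) hOK hSg hgF hq (k := k) hqW' hqR hκ hu' h3F hwF
    refine ⟨F, iF, g, ?_⟩
    refine ⟨hm0, hgF, hwF, ?_, h2F, h3F, ?_, ?_, c1, c2⟩
    · intro k hk0 hk1
      rw [hT] at hk1
      have := hgo k hk0 hk1
      rw [hε]
      push_cast
      rw [neg_one_mul]
      exact this
    · rw [hε]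
      have e : (a ^ 2 - 4 * (-1) : ℤ) = a ^ 2 + 4 := by ring
      rw [e]
      exact hgD
    · exact (Rl_div (a := a) (ε := ε) (g := g) hq hUT hqrt).2
  · -- `ε = 1`
    obtain ⟨hUW, hq'⟩ := hPW.2.2 hε
    obtain ⟨hq1, F, iF, g, hch, hg, hgl, hgo, hgD⟩ := hq' q hq hqd
    have hδ : δ = 1 := hSg.2 hε
    have h2F : (2 : F) ≠ 0 := by
      have := ne_char (F := F) (q := q) (n := 2) (by norm_num) (by
        rw [abs_of_pos (by norm_num)]
        have : 2 < q := by omega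
        exact_mod_cast this)
      exact_mod_cast this
    have h3F : (3 : F) ≠ 0 := by
      have := ne_char (F := F) (q := q) (n := 3) (by norm_num) (by
        rw [abs_of_pos (by norm_num)]
        have : 3 < q := by omega
        exact_mod_cast this)
      exact_mod_cast this
    have hgF : g ^ 2 = (a : F) * g - (ε : F) := by
      rw [hg, hε]
      push_cast
      ring
    have hwF : (δ : F) * g * ((ε : F) * g ^ 2) ^ m0 = 1 := by
      rw [hε, hδ, ← hgl]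
      push_cast
      ring
    obtain ⟨hint, hal, hadd, hmul, hneg, hinv, hzpow, -, -, -⟩ := hRL a ε hOK F iF g hgF
    have hone : Rl a ε g (1 : ℝ) (1 : F) := by
      have := hint 1
      simpa using this
    have hpow : ∀ (z : ℝ) (f : F), Rl a ε g z f → ∀ n : ℕ, Rl a ε g (z ^ n) (f ^ n) := by
      intro z f hz n
      induction n with
      | zero => simpa using hone
      | succ n ih =>
        rw [pow_succ, pow_succ]
        exact hmul _ _ _ _ ih hz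
    have hκ := hneg _ _ (hmul _ _ _ _ (hadd _ _ _ _ hal (hneg _ _ hone)) (hpow _ _ hal m0))
    have hu := (hUID a ε δ hOK hSg m0).2 hε
    have hu' : 1 + xd a ε δ * pp a ε ^ m0 =
        -((al a ε + -1) * al a ε ^ m0) * ((W : ℤ) : ℝ) := by
      rw [hu]
      have hV : (U a ε (m0 + 1) : ℝ) + (U a ε m0 : ℝ) = ((W : ℤ) : ℝ) := by
        rw [hε, ← hUW]
        push_cast
        ring
      rw [hV]
      ring
    have hT : Tt ε m0 = 2 * m0 + 1 := by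
      unfold Tt
      rw [if_pos hε]
    have hUT : (q : ℤ) ^ (k + 1) ∣ U a ε (Tt ε m0) := by
      have e : U a ε (m0 + 1) ^ 2 - ε * U a ε m0 ^ 2 =
          (U a ε (m0 + 1) - U a ε m0) * (W : ℤ) := by
        rw [← hUW, hε]
        ring
      rw [hT, (hUV a ε hOK m0).2, e]
      exact dvd_mul_of_dvd_right hqW' _
    obtain ⟨c1, c2⟩ := core hRL hHPX hVW (r := r) hOK hSg hgF hq (k := k) hqW' hqR hκ hu' h3F hwF
    refine ⟨F, iF, g, ?_⟩
    refine ⟨hm0, hgF, hwF, ?_, h2F, h3F, ?_, ?_, c1, c2⟩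
    · intro k hk0 hk1
      rw [hT] at hk1
      have := hgo k hk0 hk1
      rw [hε]
      push_cast
      rw [one_mul]
      exact this
    · rw [hε]
      have e : (a ^ 2 - 4 * 1 : ℤ) = a ^ 2 - 4 := by ring
      rw [e]
      exact hgD
    · exact (Rl_div (a := a) (ε := ε) (g := g) hq hUT hqrt).2

end Pool.Agent.H410.FM
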