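import Pool.Agent.H410.FM.Stm

/-!
Existence of the residue field.
-/

namespace Pool.Agent.H410.FM.P_EXB

open Pool.Agent.H410.FC (OK)
open Pool.Agent.H410.FL (Sg)

lemma rt_ne {r : Fin 3 → ℤ} (hr : r ≠ 0) : rt r ≠ 0 := by
  unfold rt
  split_ifs with h2 h1
  · exact h2
  · exact h1
  · intro h0
    apply hr
    push Not at h2 h1
    funext i
    fin_cases i
    · exact h0
    · exact h1
    · exact h2

lemma H_pos {r : Fin 3 → ℤ} (hr : r ≠ 0) {H : ℕ} (h : ∀ i, |r i| ≤ (H : ℤ)) : 1 ≤ H := by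
  by_contra hH
  apply hr
  funext i
  have h1 := h i
  have h2 : (H : ℤ) = 0 := by
    have : H = 0 := by omega
    exact_mod_cast this
  rw [h2] at h1
  exact abs_nonpos_iff.1 h1

lemma disc {a ε : ℤ} (h : OK a ε) : 5 ≤ a ^ 2 - 4 * ε := by
  rcases h with ⟨rfl, ha⟩ | ⟨rfl, ha⟩ <;> nlinarith

lemma choice (P : ℕ → Prop) (m' B : ℕ) (h : ∀ B', B ≤ B' → ∃ m0, B' ≤ m0 ∧ m0 ≤ 2 * B' ∧ P m0) :
    ∃ m0, B ≤ m0 ∧ m0 ≤ 8 * B + 6 ∧ P m0 ∧ m0 ≠ m' ∧ 3 * m0 + 1 ≠ m' := by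
  obtain ⟨x, hx1, hx2, hx⟩ := h B le_rfl
  obtain ⟨y, hy1, hy2, hy⟩ := h (2 * B + 1) (by omega)
  obtain ⟨z, hz1, hz2, hz⟩ := h (4 * B + 3) (by omega)
  by_cases h1 : x ≠ m' ∧ 3 * x + 1 ≠ m'
  · exact ⟨x, by omega, by omega, hx, h1.1, h1.2⟩
  · by_cases h2 : y ≠ m' ∧ 3 * y + 1 ≠ m'
    · exact ⟨y, by omega, by omega, hy, h2.1, h2.2⟩
    · exact ⟨z, by omega, by omega, hz, by omega, by omega⟩

end Pool.Agent.H410.FM.P_EXB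

namespace Pool.Agent.H410.FM

open Pool.Agent.H410.FC (OK)
open Pool.Agent.H410.FL (Sg)

theorem t_EXB (hRS1 : S_RS1) (hRS2 : S_RS2) (hRNZ : S_RNZ) (hPRM : S_PRM) (hEXA : S_EXA) :
    S_EXB := by
  intro a ε δ hOK hSg
  have hRS : ∃ C : ℕ, ∀ B : ℕ, C ≤ B → ∃ m0 W : ℕ, B ≤ m0 ∧ m0 ≤ 2 * B ∧ PW a ε m0 W := by
    rcases hOK with ⟨rfl, ha⟩ | ⟨rfl, ha⟩
    · exact hRS1 a ha
    · exact hRS2 a ha
  obtain ⟨C₁, hC₁⟩ := hRS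
  obtain ⟨M, hM⟩ := hPRM (a ^ 2 - 4 * ε) (P_EXB.disc hOK)
  refine ⟨M + C₁ + 14, by omega, ?_⟩
  intro r H B hr hH hB hHB
  have hrt := P_EXB.rt_ne hr
  have hH1 := P_EXB.H_pos hr hH
  obtain ⟨m', hm'⟩ := hRNZ a ε hOK r hr
  obtain ⟨m0, h1, h2, ⟨W, hW⟩, h3, h4⟩ := P_EXB.choice (fun m => ∃ W, PW a ε m W) m' B
    (fun B' hB' => by
      obtain ⟨m, W, e1, e2, e3⟩ := hC₁ B' (by omega)
      exact ⟨m, e1, e2, W, e3⟩)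
  have n1 := hm' m0 h3
  have n2 : RR (a ^ 2 - 4 * ε) r (3 * (m0 : ℤ) + 1) ≠ 0 := by
    have := hm' (3 * m0 + 1) h4
    push_cast at this
    exact this
  have hMm : H ^ M ≤ 2 ^ m0 :=
    (Nat.pow_le_pow_right hH1 (by omega)).trans (hHB.trans (Nat.pow_le_pow_right (by norm_num) h1))
  obtain ⟨q, k, hq, hqW, hnd⟩ := hM r H m0 hH (by omega) hMm (mul_ne_zero (mul_ne_zero n1 n2) hrt)
    W hW.1
  refine ⟨m0, h1, ?_, hEXA a ε δ r hOK hSg m0 W q k (by omega) hW hq hqW hnd⟩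
  have : 14 * B ≤ (M + C₁ + 14) * B := Nat.mul_le_mul_right _ (by omega)
  omega

end Pool.Agent.H410.FM
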