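import Pool.Agent.H410.FM.Stm
import Pool.Agent.H410.FC.Bas

/-!
FM, S_LOS: lower bound for `|s - SH|` (helper670).
-/

set_option autoImplicit false

namespace Pool.Agent.H410.FM

open Finset
open Pool.Agent.H410.FL (V Sg xd S1 S2 S3 hl SH Wt wr Hpx nw cc ac AM DD Dc Dl jt)
open Pool.Agent.H410.FC (OK U sD al be pp DK Cj Rl Tt xt XX QQ pik VV EE FF ea ww C3 BF rr)

namespace P_LOS

theorem nw_nonneg (w : Fin 3 → ℝ) : 0 ≤ nw w := by unfold nw; positivity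

theorem one_le_P {a ε : ℤ} (h : OK a ε) : 1 ≤ |pp a ε| := by
  rw [Pool.Agent.H410.FC.abs_pp h]
  have h1 := Pool.Agent.H410.FC.al_ge h
  nlinarith

theorem one_le_H {r : Fin 3 → ℤ} {H : ℕ} (hr : r ≠ 0) (hH : ∀ i, |r i| ≤ (H : ℤ)) : 1 ≤ H := by
  by_contra h
  have h0 : H = 0 := by omega
  apply hr
  funext i
  have h1 := hH i
  rw [h0] at h1
  have h2 : |r i| ≤ 0 := by exact_mod_cast h1
  exact abs_nonpos_iff.1 h2

end P_LOS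

theorem t_LOS (hNV : S_NV) (hSML : S_SML) (hNWB : S_NWB) : S_LOS := by
  intro a ε δ hOK hSg
  obtain ⟨C₁, hC₁, h1⟩ := hNV a ε δ hOK hSg
  obtain ⟨C₂, h2⟩ := hSML a ε δ hOK hSg
  obtain ⟨C₃, hC₃, h3⟩ := hNWB a ε hOK
  refine ⟨C₁ + 2 * C₂ + C₃ ^ (2 * C₂) + C₂ * C₁ ^ 3 + 1, by omega, ?_⟩
  intro r s H B hr hH hCB hHB
  generalize hCdef : C₁ + 2 * C₂ + C₃ ^ (2 * C₂) + C₂ * C₁ ^ 3 + 1 = C at hCB hHB ⊢
  have hH1 : 1 ≤ H := P_LOS.one_le_H hr hH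
  have hP := P_LOS.one_le_P hOK
  have c1 : C₁ ≤ C := by omega
  have c2 : 2 * C₂ ≤ C := by omega
  have c3 : C₃ ^ (2 * C₂) ≤ C := by omega
  have c4 : C₂ * C₁ ^ 3 ≤ C := by omega
  obtain ⟨n, hn1, hn2, hn3⟩ := h1 r s H B hr hH (c1.trans hCB)
    ((Nat.pow_le_pow_right hH1 c1).trans hHB)
  by_contra hcon
  rw [not_lt] at hcon
  apply hn3
  apply h2 r s n (by omega)
  · -- the bound for `nw`
    have d1 : 1 + nw (wr a ε r) ≤ (C₃ : ℝ) * H := h3 r H hH hH1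
    have d0 : 0 ≤ 1 + nw (wr a ε r) := by linarith [P_LOS.nw_nonneg (wr a ε r)]
    have d2 : (1 + nw (wr a ε r)) ^ C₂ ≤ ((C₃ : ℝ) * H) ^ C₂ := pow_le_pow_left₀ d0 d1 _
    have d3 : (C₃ * H) ^ C₂ ≤ 2 ^ B := by
      have d4 : C₃ ^ (2 * C₂) ≤ 2 ^ B := (c3.trans hCB).trans Nat.lt_two_pow_self.le
      have d5 : H ^ (2 * C₂) ≤ 2 ^ B := (Nat.pow_le_pow_right hH1 c2).trans hHB
      have d6 : ((C₃ * H) ^ C₂) ^ 2 ≤ (2 ^ B) ^ 2 := by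
        calc ((C₃ * H) ^ C₂) ^ 2 = C₃ ^ (2 * C₂) * H ^ (2 * C₂) := by
              rw [← pow_mul, mul_comm C₂ 2, mul_pow]
          _ ≤ 2 ^ B * 2 ^ B := Nat.mul_le_mul d4 d5
          _ = (2 ^ B) ^ 2 := (sq _).symm
      exact (Nat.pow_le_pow_iff_left (by norm_num)).1 d6
    have d7 : ((C₃ : ℝ) * H) ^ C₂ ≤ 2 ^ B := by exact_mod_cast d3
    have d8 : (2 : ℝ) ^ B ≤ 2 ^ n := pow_le_pow_right₀ (by norm_num) hn1
    exact (d2.trans d7).trans d8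
  · refine le_trans (mul_le_mul_of_nonneg_left (pow_le_pow_right₀ hP ?_) (abs_nonneg _)) hcon
    calc C₂ * n ^ 3 ≤ C₂ * (C₁ * B) ^ 3 := Nat.mul_le_mul_left _ (Nat.pow_le_pow_left hn2 3)
      _ = (C₂ * C₁ ^ 3) * B ^ 3 := by ring
      _ ≤ C * B ^ 3 := Nat.mul_le_mul_right _ c4

end Pool.Agent.H410.FM
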