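import Pool.Agent.H410.FM.Stm
import Pool.Agent.H410.FC.Bas

/-! Proof of `S_ME` (helper372): the measure from the lower bound `S_LOS`. -/

set_option autoImplicit false

namespace Pool.Agent.H410.FM

open Finset Polynomial
open Pool.Agent.H410.FL (V Sg xd S1 S2 S3 hl SH Wt wr Hpx nw cc ac AM DD Dc Dl jt)
open Pool.Agent.H410.FC (OK U sD al be pp DK Cj Rl Tt xt XX QQ pik VV EE FF ea ww C3 BF rr)

namespace P_ME

/-- the real inequality of the choice of the parameters -/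
theorem num {C0 B l lP l2 c : ℝ} (hC0 : 0 ≤ C0) (hB : 0 ≤ B) (hl2 : 0 < l2) (hl : l2 ≤ l)
    (hlP : 0 ≤ lP) (hc : c ≤ 3 * l / l2) (hBc : B = C0 * c) :
    l2 + C0 * B ^ 3 * lP ≤ (1 / l2 ^ 2 + C0 * (3 * C0 / l2) ^ 3 * lP) * l ^ 3 := by
  have h1 : l2 ≤ 1 / l2 ^ 2 * l ^ 3 := by
    rw [one_div, inv_mul_eq_div, le_div_iff₀ (by positivity)]
    calc l2 * l2 ^ 2 = l2 ^ 3 := by ring
      _ ≤ l ^ 3 := pow_le_pow_left₀ hl2.le hl 3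
  have h2 : B ≤ 3 * C0 / l2 * l := by
    rw [hBc]
    calc C0 * c ≤ C0 * (3 * l / l2) := mul_le_mul_of_nonneg_left hc hC0
      _ = 3 * C0 / l2 * l := by ring
  have h3 : B ^ 3 ≤ (3 * C0 / l2 * l) ^ 3 := pow_le_pow_left₀ hB h2 3
  have h4 : C0 * B ^ 3 * lP ≤ C0 * (3 * C0 / l2) ^ 3 * lP * l ^ 3 := by
    calc C0 * B ^ 3 * lP ≤ C0 * (3 * C0 / l2 * l) ^ 3 * lP :=
          mul_le_mul_of_nonneg_right (mul_le_mul_of_nonneg_left h3 hC0) hlP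
      _ = C0 * (3 * C0 / l2) ^ 3 * lP * l ^ 3 := by ring
  rw [add_mul]
  exact add_le_add h1 h4

/-- the binary length of `⌈H⌉` -/
theorem clog_le {H : ℝ} (hH : 2 ≤ H) :
    (Nat.clog 2 ⌈H⌉₊ : ℝ) ≤ 3 * Real.log H / Real.log 2 := by
  have hl2 : 0 < Real.log 2 := Real.log_pos (by norm_num)
  have hl : Real.log 2 ≤ Real.log H := Real.log_le_log (by norm_num) hH
  have hH2 : 2 ≤ ⌈H⌉₊ := by
    have h : (2 : ℝ) ≤ (⌈H⌉₊ : ℝ) := hH.trans (Nat.le_ceil H)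
    exact_mod_cast h
  have h1 : 2 ^ (Nat.clog 2 ⌈H⌉₊).pred < ⌈H⌉₊ :=
    Nat.pow_pred_clog_lt_self Nat.one_lt_two (by omega)
  have h2 : (2 : ℝ) ^ (Nat.clog 2 ⌈H⌉₊).pred ≤ 2 * H := by
    have h3 : ((2 ^ (Nat.clog 2 ⌈H⌉₊).pred : ℕ) : ℝ) ≤ (⌈H⌉₊ : ℝ) := by exact_mod_cast h1.le
    have h4 : (⌈H⌉₊ : ℝ) < H + 1 := Nat.ceil_lt_add_one (by linarith)
    push_cast at h3
    linarith
  have h3 := Real.log_le_log (by positivity) h2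
  rw [Real.log_pow, Real.log_mul (by norm_num) (by linarith)] at h3
  have h4 : (Nat.clog 2 ⌈H⌉₊ : ℝ) ≤ ((Nat.clog 2 ⌈H⌉₊).pred : ℝ) + 1 := by
    have h5 : Nat.clog 2 ⌈H⌉₊ ≤ (Nat.clog 2 ⌈H⌉₊).pred + 1 := by
      rw [Nat.pred_eq_sub_one]
      omega
    exact_mod_cast h5
  rw [le_div_iff₀ hl2]
  have h6 := mul_le_mul_of_nonneg_right h4 hl2.le
  linarith

end P_ME

theorem t_ME (hSPL : Pool.Agent.H410.FL.S_SPL) (hLOS : S_LOS) : S_ME := by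
  intro a ε δ hOK hSg
  obtain ⟨C0, hC0, hL⟩ := hLOS a ε δ hOK hSg
  have hP : 2 ≤ |pp a ε| := (Pool.Agent.H410.FC.Hpx_ok hOK).1
  have hP0 : 0 < |pp a ε| := by linarith
  have hlP : 0 ≤ Real.log |pp a ε| := Real.log_nonneg (by linarith)
  have hl2 : 0 < Real.log 2 := Real.log_pos (by norm_num)
  have hCpos : 0 < 1 / Real.log 2 ^ 2 + (C0 : ℝ) * (3 * (C0 : ℝ) / Real.log 2) ^ 3 *
      Real.log |pp a ε| := by positivity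
  refine ⟨_, hCpos, fun H b r hH hb hr hne => ?_⟩
  have hl : Real.log 2 ≤ Real.log H := Real.log_le_log (by norm_num) hH
  by_cases hr0 : r = 0
  · have hb0 : b ≠ 0 := by
      rcases hne with h | h
      · exact h
      · exact absurd hr0 h
    subst hr0
    have h1 : (1 : ℝ) ≤ |(b : ℝ)| := by
      have h2 : (1 : ℤ) ≤ |b| := Int.one_le_abs hb0
      exact_mod_cast h2
    have h2 : (b : ℝ) + ((0 : Fin 3 → ℤ) 0 : ℝ) * S1 a ε δ + ((0 : Fin 3 → ℤ) 1 : ℝ) * S2 a ε δ +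
        ((0 : Fin 3 → ℤ) 2 : ℝ) * S3 a ε δ = b := by
      simp
    rw [h2]
    refine le_trans (Real.exp_le_one_iff.2 ?_) h1
    have h3 : 0 ≤ Real.log H ^ 3 := pow_nonneg (hl2.le.trans hl) 3
    have h4 := mul_nonneg hCpos.le h3
    linarith
  · have hH' : (H : ℝ) ≤ (⌈H⌉₊ : ℝ) := Nat.le_ceil H
    have hH2 : 2 ≤ ⌈H⌉₊ := by
      have h : (2 : ℝ) ≤ (⌈H⌉₊ : ℝ) := hH.trans hH'
      exact_mod_cast h
    have hr' : ∀ i, |r i| ≤ ((⌈H⌉₊ : ℕ) : ℤ) := by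
      intro i
      have h1 := (hr i).trans hH'
      exact_mod_cast h1
    have hk1 : 1 ≤ Nat.clog 2 ⌈H⌉₊ := Nat.clog_pos Nat.one_lt_two hH2
    have hk2 : ⌈H⌉₊ ≤ 2 ^ Nat.clog 2 ⌈H⌉₊ := Nat.le_pow_clog Nat.one_lt_two _
    have hB1 : C0 ≤ C0 * Nat.clog 2 ⌈H⌉₊ := Nat.le_mul_of_pos_right _ hk1
    have hB2 : ⌈H⌉₊ ^ C0 ≤ 2 ^ (C0 * Nat.clog 2 ⌈H⌉₊) := by
      calc ⌈H⌉₊ ^ C0 ≤ (2 ^ Nat.clog 2 ⌈H⌉₊) ^ C0 := Nat.pow_le_pow_left hk2 C0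
        _ = 2 ^ (C0 * Nat.clog 2 ⌈H⌉₊) := by rw [← pow_mul, mul_comm]
    have h1 := hL r (-2 * b) ⌈H⌉₊ (C0 * Nat.clog 2 ⌈H⌉₊) hr0 hr' hB1 hB2
    rw [hSPL a ε δ r hOK hSg] at h1
    obtain ⟨X, hX⟩ : ∃ X : ℝ, X = b + r 0 * S1 a ε δ + r 1 * S2 a ε δ + r 2 * S3 a ε δ := ⟨_, rfl⟩
    rw [← hX]
    have h2 : (((-2 * b : ℤ)) : ℝ) - 2 * ((r 0 : ℝ) * S1 a ε δ + (r 1 : ℝ) * S2 a ε δ +
        (r 2 : ℝ) * S3 a ε δ) = (-2) * X := by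
      rw [hX]
      push_cast
      ring
    rw [h2, abs_mul, abs_neg, abs_two] at h1
    obtain ⟨B, hB⟩ : ∃ B : ℕ, B = C0 * Nat.clog 2 ⌈H⌉₊ := ⟨_, rfl⟩
    rw [← hB] at h1
    have hnum := P_ME.num (C0 := (C0 : ℝ)) (B := (B : ℝ)) (l := Real.log H)
      (lP := Real.log |pp a ε|) (l2 := Real.log 2) (c := (Nat.clog 2 ⌈H⌉₊ : ℝ))
      (Nat.cast_nonneg _) (Nat.cast_nonneg _) hl2 hl hlP (P_ME.clog_le hH)
      (by rw [hB]; push_cast; ring)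
    have h3 : Real.exp (-(Real.log 2 + (C0 : ℝ) * (B : ℝ) ^ 3 * Real.log |pp a ε|)) ≤ |X| := by
      have h4 : |pp a ε| ^ (C0 * B ^ 3) = Real.exp ((C0 : ℝ) * (B : ℝ) ^ 3 * Real.log |pp a ε|) := by
        rw [← Real.rpow_natCast, Real.rpow_def_of_pos hP0]
        push_cast
        ring_nf
      rw [h4] at h1
      rw [neg_add, Real.exp_add, Real.exp_neg, Real.exp_neg, Real.exp_log (by norm_num)]
      have h5 := Real.exp_pos ((C0 : ℝ) * (B : ℝ) ^ 3 * Real.log |pp a ε|)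
      rw [← mul_inv, inv_le_iff_one_le_mul₀ (by positivity)]
      calc (1 : ℝ) ≤ 2 * |X| * Real.exp ((C0 : ℝ) * (B : ℝ) ^ 3 * Real.log |pp a ε|) := h1.le
        _ = |X| * (2 * Real.exp ((C0 : ℝ) * (B : ℝ) ^ 3 * Real.log |pp a ε|)) := by ring
    refine le_trans (Real.exp_le_exp.2 ?_) h3
    exact neg_le_neg hnum

end Pool.Agent.H410.FM
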