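import Pool.Agent.H410.FM.Stm

/-!
The norm inequality (task FM NRM, helper387), adapted from `Pool/Agent/H410/FL/P_NRM.lean` (helper870).
-/

set_option autoImplicit false

namespace Pool.Agent.H410.FM

open Finset Polynomial
open Pool.Agent.H410.FL (V Sg xd S1 S2 S3 hl SH Wt wr Hpx nw cc ac AM DD Dc Dl jt)
open Pool.Agent.H410.FC (OK U sD al be pp DK Cj Rl Tt xt XX QQ pik VV EE FF ea ww C3 BF rr)

namespace P_NRM

variable {a ε δ : ℤ}

theorem cyc_ne {y : ℝ} (hy : 1 < |y|) (d : ℕ) (hd : 1 ≤ d) :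
    (Polynomial.cyclotomic d ℝ).eval y ≠ 0 := by
  intro h
  obtain ⟨g, hg⟩ := Polynomial.cyclotomic.dvd_X_pow_sub_one d ℝ
  have h2 : y ^ d - 1 = 0 := by
    have h3 := congrArg (Polynomial.eval y) hg
    rw [eval_mul, h, zero_mul, eval_sub, eval_pow, eval_X, eval_one] at h3
    exact h3
  have h3 : |y| ^ d = 1 := by
    rw [← abs_pow]
    have h4 : y ^ d = 1 := by linarith
    rw [h4, abs_one]
  have h4 : 1 < |y| ^ d := one_lt_pow₀ hy (by omega)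
  linarith

theorem DK_ne (h : OK a ε) (K : ℕ) : DK (pp a ε) K ≠ 0 := by
  unfold DK
  rw [Finset.prod_ne_zero_iff]
  intro d hd
  rw [mem_Icc] at hd
  apply cyc_ne _ d (by omega)
  have := (Pool.Agent.H410.FC.Hpx_ok h).1
  linarith

theorem Dc_ne (hDLS : Pool.Agent.H410.FL.S_DLS) (h : OK a ε) (hδ : Sg ε δ) (J : ℤ) :
    Dc ε δ (al a ε) (be a ε) J ≠ 0 := by
  match J with
  | Int.ofNat j => exact (hDLS a ε δ h hδ j).1
  | Int.negSucc 0 => exact one_ne_zero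
  | Int.negSucc (j + 1) => exact (hDLS a ε δ h hδ j).2.1

/-- scaling the rows and columns -/
theorem det_scale (N : ℕ) (r c : Fin N → ℝ) (M : Matrix (Fin N) (Fin N) ℝ) :
    (Matrix.of fun k j => r k * (c j * M k j)).det = (∏ k, r k) * ((∏ j, c j) * M.det) := by
  have h1 := Matrix.det_mul_column r (Matrix.of fun k j => c j * M k j)
  have h2 := Matrix.det_mul_row c M
  simp only [Matrix.of_apply] at h1
  rw [h1, h2]

theorem sum_succ (n : ℕ) : ∑ k ∈ range (2 * n + 1), (k + 1) = (2 * n + 1) * (n + 1) := by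
  induction n with
  | zero => rfl
  | succ n ih =>
    have e : 2 * (n + 1) + 1 = 2 * n + 1 + 1 + 1 := by ring
    rw [e, Finset.sum_range_succ, Finset.sum_range_succ, ih]
    ring

theorem det_rev (a ε δ : ℤ) (r : Fin 3 → ℤ) (s : ℤ) (n : ℕ) :
    |(Matrix.of fun k j : Fin (2 * n + 1) =>
      aS a ε δ r s ((k : ℕ) + 1) (-2 - (-(n : ℤ) + ((j : ℕ) : ℤ)))).det| =
      |(SM a ε δ r s (-((n + 2 : ℕ) : ℤ)) (2 * n + 1)).det| := by
  have h : (Matrix.of fun k j : Fin (2 * n + 1) =>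
      aS a ε δ r s ((k : ℕ) + 1) (-2 - (-(n : ℤ) + ((j : ℕ) : ℤ)))) =
      (SM a ε δ r s (-((n + 2 : ℕ) : ℤ)) (2 * n + 1)).submatrix id Fin.revPerm := by
    ext k j
    simp only [SM, Matrix.of_apply, Matrix.submatrix_apply, id, Fin.revPerm_apply, Fin.val_rev]
    congr 1
    have := j.2
    push_cast
    omega
  rw [h, Matrix.det_permute', abs_mul]
  have h1 : |(((Equiv.Perm.sign (Fin.revPerm : Equiv.Perm (Fin (2 * n + 1))) : ℤˣ) : ℤ) : ℝ)| = 1 := by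
    rcases Int.units_eq_one_or (Equiv.Perm.sign (Fin.revPerm : Equiv.Perm (Fin (2 * n + 1))))
      with h2 | h2
    · rw [h2]
      norm_num
    · rw [h2]
      norm_num
  rw [h1, one_mul]

theorem abs_row (n : ℕ) (f : ℕ → ℝ) (q : ℕ → ℝ) (hw : ∀ k, |f k| = |q k| ^ 3) :
    |∏ k : Fin (2 * n + 1), f k| = ∏ k ∈ range (2 * n + 1), |q k| ^ 3 := by
  rw [Finset.abs_prod, ← Finset.prod_range (fun k => |f k|)]
  exact Finset.prod_congr rfl fun k _ => hw k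

end P_NRM

open P_NRM in
theorem t_NRM (hENT : S_ENT) (hCJ : Pool.Agent.H410.FC.S_CJ) (hDLS : Pool.Agent.H410.FL.S_DLS) : S_NRM := by
  intro a ε δ r hOK hδ s n hdet
  obtain ⟨-, -, -, -, -, -, -, -, -, -, hCdet, -, hCnorm⟩ := hCJ a ε hOK
  obtain ⟨q, hq⟩ : ∃ q : ℕ → ℝ, ∀ k, q k = DK (pp a ε) (k + 1) ^ 3 :=
    ⟨_, fun _ => rfl⟩
  obtain ⟨q', hq'⟩ : ∃ q' : ℕ → ℝ, ∀ k, q' k = DK (pp a ε)⁻¹ (k + 1) ^ 3 :=
    ⟨_, fun _ => rfl⟩
  obtain ⟨c, hc⟩ : ∃ c : ℕ → ℝ, ∀ j : ℕ, c j = Dc ε δ (al a ε) (be a ε) (-(n : ℤ) + j) :=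
    ⟨_, fun _ => rfl⟩
  obtain ⟨c', hc'⟩ : ∃ c' : ℕ → ℝ, ∀ j : ℕ, c' j = Dc ε δ (be a ε) (al a ε) (-(n : ℤ) + j) :=
    ⟨_, fun _ => rfl⟩
  have key := hCdet (2 * n + 1)
    (Matrix.of fun k j => q k *
      (c j * SM a ε δ r s (-(n : ℤ)) (2 * n + 1) k j))
    (Matrix.of fun k j => (q' k * (pp a ε ^ ((k : ℕ) + 1))) * (c' j *
      (Matrix.of fun k j : Fin (2 * n + 1) =>
        aS a ε δ r s ((k : ℕ) + 1) (-2 - (-(n : ℤ) + ((j : ℕ) : ℤ)))) k j))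
    (by
      intro k j
      have h1 := hENT a ε δ r hOK hδ s ((k : ℕ) + 1) (by omega) (-(n : ℤ) + ((j : ℕ) : ℤ))
      simp only [Matrix.of_apply, SM]
      rw [hq, hq', hc, hc']
      have e1 : DK (pp a ε) ((k : ℕ) + 1) ^ 3 *
          (Dc ε δ (al a ε) (be a ε) (-(n : ℤ) + ((j : ℕ) : ℤ)) *
            aS a ε δ r s ((k : ℕ) + 1) (-(n : ℤ) + ((j : ℕ) : ℤ))) =
          DK (pp a ε) ((k : ℕ) + 1) ^ 3 *
          Dc ε δ (al a ε) (be a ε) (-(n : ℤ) + ((j : ℕ) : ℤ)) *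
            aS a ε δ r s ((k : ℕ) + 1) (-(n : ℤ) + ((j : ℕ) : ℤ)) := by ring
      have e2 : DK (pp a ε)⁻¹ ((k : ℕ) + 1) ^ 3 *
          (pp a ε ^ ((k : ℕ) + 1)) *
          (Dc ε δ (be a ε) (al a ε) (-(n : ℤ) + ((j : ℕ) : ℤ)) *
            aS a ε δ r s ((k : ℕ) + 1) (-2 - (-(n : ℤ) + ((j : ℕ) : ℤ)))) =
          DK (pp a ε)⁻¹ ((k : ℕ) + 1) ^ 3 *
          Dc ε δ (be a ε) (al a ε) (-(n : ℤ) + ((j : ℕ) : ℤ)) *
            (pp a ε ^ ((k : ℕ) + 1) * aS a ε δ r s ((k : ℕ) + 1)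
              (-2 - (-(n : ℤ) + ((j : ℕ) : ℤ)))) := by ring
      rw [e1, e2]
      exact h1)
  have hqn : ∀ k, q k ≠ 0 := by
    intro k
    rw [hq]
    exact pow_ne_zero _ (DK_ne hOK _)
  have hcn : ∀ j, c j ≠ 0 := by
    intro j
    rw [hc]
    exact Dc_ne hDLS hOK hδ _
  rw [det_scale (2 * n + 1) (fun k => q k) (fun j => c j)] at key
  rw [det_scale (2 * n + 1) (fun k => q' k * (pp a ε ^ ((k : ℕ) + 1))) (fun j => c' j)] at key
  have h1 := hCnorm _ _ key (mul_ne_zero (Finset.prod_ne_zero_iff.2 fun k _ => hqn k)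
    (mul_ne_zero (Finset.prod_ne_zero_iff.2 fun j _ => hcn j) hdet))
  have hrow : |∏ k : Fin (2 * n + 1), q k| =
      ∏ k ∈ range (2 * n + 1), |DK (pp a ε) (k + 1)| ^ 3 := by
    apply abs_row n q (fun k => DK (pp a ε) (k + 1))
    intro k
    rw [hq, abs_pow]
  have hrow' : |∏ k : Fin (2 * n + 1), q' k| =
      ∏ k ∈ range (2 * n + 1), |DK (pp a ε)⁻¹ (k + 1)| ^ 3 := by
    apply abs_row n q' (fun k => DK (pp a ε)⁻¹ (k + 1))
    intro k
    rw [hq', abs_pow]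
  have hcol : |∏ j : Fin (2 * n + 1), c j| =
      ∏ j ∈ range (2 * n + 1), |Dc ε δ (al a ε) (be a ε) (-(n : ℤ) + j)| := by
    rw [Finset.abs_prod, ← Finset.prod_range (fun k => |c k|)]
    exact Finset.prod_congr rfl fun k _ => by rw [hc]
  have hcol' : |∏ j : Fin (2 * n + 1), c' j| =
      ∏ j ∈ range (2 * n + 1), |Dc ε δ (be a ε) (al a ε) (-(n : ℤ) + j)| := by
    rw [Finset.abs_prod, ← Finset.prod_range (fun k => |c' k|)]
    exact Finset.prod_congr rfl fun k _ => by rw [hc']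
  have hpp : |∏ k : Fin (2 * n + 1), (pp a ε ^ ((k : ℕ) + 1))| =
      |pp a ε| ^ ((2 * n + 1) * (n + 1)) := by
    rw [Finset.abs_prod, ← Finset.prod_range (fun k => |pp a ε ^ (k + 1)|)]
    rw [Finset.prod_congr rfl fun k _ => abs_pow (pp a ε) (k + 1), Finset.prod_pow_eq_pow_sum,
      sum_succ]
  rw [Finset.prod_mul_distrib, abs_mul, abs_mul, abs_mul, abs_mul, abs_mul, abs_mul, hrow, hrow',
    hcol, hcol', hpp, det_rev] at h1
  unfold DD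
  refine h1.trans (le_of_eq ?_)
  ring

end Pool.Agent.H410.FM
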