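import Pool.Agent.H410.FM.Stm

/-!
Reductions of the `aS(K,J)` (helper887, after `FL/P_NV3.lean`).
-/

namespace Pool.Agent.H410.FM

open Finset Polynomial
open Pool.Agent.H410.FL (V Sg xd S1 S2 S3 hl SH Wt wr Hpx nw cc ac AM DD Dc Dl jt)
open Pool.Agent.H410.FC (OK U sD al be pp DK Cj Rl Tt xt XX QQ pik VV EE FF ea ww C3 BF rr)

theorem t_NV3 (hHPX : Pool.Agent.H410.FL.S_HPX) (hRL : Pool.Agent.H410.FC.S_RL) (hASB : S_ASB)
    (hNV1 : S_NV1) (hNV2 : S_NV2) : S_NV3 := by
  intro a ε δ r hOK hSg hr s m0 F iF g hD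
  obtain ⟨r_int, r_al, r_add, r_mul, r_neg, r_inv, r_zpow, -, -, -⟩ := hRL a ε hOK F iF g hD.hg
  obtain ⟨hp, hPne, hPT, hc, -, hUT, -⟩ := hNV1 a ε δ r hOK hSg m0 F iF g hD
  obtain ⟨ht, h21, h22⟩ := hNV2 a ε δ r hOK hSg hr s m0 F iF g hD
  have hm0 := hD.hm0
  obtain ⟨hcm0, hC0⟩ := hD.hc
  obtain ⟨hcm1, hC1⟩ := hD.hc'
  have hT : m0 + 1 < Tt ε m0 := by
    unfold Tt
    split_ifs <;> omega
  have hp0 : pp a ε ≠ 0 := Pool.Agent.H410.FC.pp_ne hOK
  have hrec : ∀ K : ℕ, 1 ≤ K → ∀ J : ℤ, aS a ε δ r s K (J + 1) =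
      pp a ε ^ (K : ℤ) * aS a ε δ r s K J +
        -cc (wr a ε r) (pp a ε) (xd a ε δ) (J + 1) := by
    intro K hK J
    rw [(hASB a ε δ r hOK hSg s K hK).2 J, zpow_natCast]
    ring
  have hrec' : ∀ K : ℕ, 1 ≤ K → ∀ J : ℤ, aS a ε δ r s K (J - 1) =
      pp a ε ^ (-(K : ℤ)) * (aS a ε δ r s K J +
        cc (wr a ε r) (pp a ε) (xd a ε δ) J) := by
    intro K hK J
    have h1 := hrec K hK (J - 1)
    rw [sub_add_cancel] at h1
    rw [h1, zpow_neg, neg_add_cancel_right, ← mul_assoc, inv_mul_cancel₀ (zpow_ne_zero _ hp0),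
      one_mul]
  generalize tt a ε r m0 = t at *
  generalize aS a ε δ r s = A at *
  clear hUT
  generalize Tt ε m0 = T at *
  generalize hPd : (ε : F) * g ^ 2 = P at *
  generalize pp a ε = p at *
  generalize xd a ε δ = x at *
  generalize wr a ε r = w at *
  have hpz : ∀ n : ℤ, Rl a ε g (p ^ n) (P ^ n) := fun n => r_zpow p P hp hPne n
  generalize hCe : (cc w p x m0)⁻¹ = C at *
  generalize hCe' : (cc w p x ((m0 : ℤ) - T))⁻¹ = C' at *
  have hCc : C * cc w p x m0 = 1 := by rw [← hCe]; exact inv_mul_cancel₀ hcm0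
  have hCc' : C' * cc w p x ((m0 : ℤ) - T) = 1 := by rw [← hCe']; exact inv_mul_cancel₀ hcm1
  have r_one : Rl a ε g 1 1 := by
    have := r_int 1
    push_cast at this
    exact this
  -- part 1
  have part1 : ∀ K : ℕ, 1 ≤ K → K < T → ∀ J : ℤ, (m0 : ℤ) - T ≤ J → J < m0 →
      ∃ f : F, Rl a ε g (A K J) f := by
    intro K hK1 hKT
    have up : ∀ n : ℕ, (n : ℤ) - 1 < m0 → ∃ f : F, Rl a ε g (A K ((n : ℤ) - 1)) f := by
      intro n
      induction n with
      | zero =>
        intro _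
        have := h21 K hK1 hKT
        simpa using this
      | succ n ih =>
        intro hn
        push_cast at hn
        obtain ⟨f, hf⟩ := ih (by omega)
        obtain ⟨f', hf'⟩ := hc (n : ℤ) (by omega) (by omega) (by omega) (by omega)
        have e : (((n + 1 : ℕ) : ℤ)) - 1 = (n : ℤ) - 1 + 1 := by push_cast; ring
        have e1 : (n : ℤ) - 1 + 1 = n := by ring
        rw [e, hrec K hK1, e1]
        exact ⟨_, r_add _ _ _ _ (r_mul _ _ _ _ (hpz K) hf) (r_neg _ _ hf')⟩
    have down : ∀ n : ℕ, (m0 : ℤ) - T ≤ -1 - (n : ℤ) →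
        ∃ f : F, Rl a ε g (A K (-1 - (n : ℤ))) f := by
      intro n
      induction n with
      | zero =>
        intro _
        have := h21 K hK1 hKT
        simpa using this
      | succ n ih =>
        intro hn
        push_cast at hn
        obtain ⟨f, hf⟩ := ih (by omega)
        obtain ⟨f', hf'⟩ := hc (-1 - (n : ℤ)) (by omega) (by omega) (by omega) (by omega)
        have e : (-1 - ((n + 1 : ℕ) : ℤ)) = -1 - (n : ℤ) - 1 := by push_cast; ring
        rw [e, hrec' K hK1]
        exact ⟨_, r_mul _ _ _ _ (hpz _) (r_add _ _ _ _ hf hf')⟩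
    intro J h1 h2
    rcases le_or_gt (-1) J with h | h
    · obtain ⟨n, hn⟩ := Int.eq_ofNat_of_zero_le (show 0 ≤ J + 1 by omega)
      have e : J = (n : ℤ) - 1 := by omega
      rw [e]
      exact up n (by omega)
    · obtain ⟨n, hn⟩ := Int.eq_ofNat_of_zero_le (show 0 ≤ -1 - J by omega)
      have e : J = -1 - (n : ℤ) := by omega
      rw [e]
      exact down n (by omega)
  -- part 4
  have part4 : ∀ K : ℕ, T ≤ K → K < 2 * T → ∃ b : F, b ≠ 0 ∧ ∀ J : ℤ,
      (m0 : ℤ) - T ≤ J → J < m0 → Rl a ε g (t * A K J) (P ^ ((K : ℤ) * (J + 1)) * b) := by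
    intro K hK1 hKT
    obtain ⟨b, hb, hb0⟩ := h22 K hK1 hKT
    have hK0 : 1 ≤ K := by omega
    have ht3 : ∀ m : ℤ, (m0 : ℤ) - T < m → m < m0 → Rl a ε g (t * cc w p x m) 0 := by
      intro m h1 h2
      obtain ⟨f, hf⟩ := hc m (by omega) (by omega) (by omega) (by omega)
      have := r_mul _ _ _ _ ht hf
      rwa [zero_mul] at this
    have up : ∀ n : ℕ, (n : ℤ) - 1 < m0 →
        Rl a ε g (t * A K ((n : ℤ) - 1)) (P ^ ((K : ℤ) * n) * b) := by
      intro n
      induction n with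
      | zero =>
        intro _
        simpa using hb0
      | succ n ih =>
        intro hn
        push_cast at hn
        have h1 := ih (by omega)
        have h2 := ht3 (n : ℤ) (by omega) (by omega)
        have e2 : t * A K (((n + 1 : ℕ) : ℤ) - 1) =
            p ^ (K : ℤ) * (t * A K ((n : ℤ) - 1)) + -(t * cc w p x (n : ℤ)) := by
          have e : (((n + 1 : ℕ) : ℤ)) - 1 = (n : ℤ) - 1 + 1 := by push_cast; ring
          have e1 : (n : ℤ) - 1 + 1 = n := by ring
          rw [e, hrec K hK0, e1]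
          ring
        have e3 : P ^ ((K : ℤ) * ((n + 1 : ℕ) : ℤ)) * b =
            P ^ (K : ℤ) * (P ^ ((K : ℤ) * n) * b) + -0 := by
          rw [Nat.cast_add, Nat.cast_one, mul_add, mul_one, zpow_add₀ hPne]
          ring
        rw [e2, e3]
        exact r_add _ _ _ _ (r_mul _ _ _ _ (hpz K) h1) (r_neg _ _ h2)
    have down : ∀ n : ℕ, (m0 : ℤ) - T ≤ -1 - (n : ℤ) →
        Rl a ε g (t * A K (-1 - (n : ℤ))) (P ^ ((K : ℤ) * -(n : ℤ)) * b) := by
      intro n
      induction n with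
      | zero =>
        intro _
        simpa using hb0
      | succ n ih =>
        intro hn
        push_cast at hn
        have h1 := ih (by omega)
        have h2 := ht3 (-1 - (n : ℤ)) (by omega) (by omega)
        have e2 : t * A K (-1 - ((n + 1 : ℕ) : ℤ)) =
            p ^ (-(K : ℤ)) * (t * A K (-1 - (n : ℤ)) + t * cc w p x (-1 - (n : ℤ))) := by
          have : (-1 - ((n + 1 : ℕ) : ℤ)) = -1 - (n : ℤ) - 1 := by push_cast; ring
          rw [this, hrec' K hK0]
          ring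
        have e3 : P ^ ((K : ℤ) * -((n + 1 : ℕ) : ℤ)) * b =
            P ^ (-(K : ℤ)) * (P ^ ((K : ℤ) * -(n : ℤ)) * b + 0) := by
          have : (K : ℤ) * -((n + 1 : ℕ) : ℤ) = -(K : ℤ) + (K : ℤ) * -(n : ℤ) := by
            push_cast
            ring
          rw [this, zpow_add₀ hPne]
          ring
        rw [e2, e3]
        exact r_mul _ _ _ _ (hpz _) (r_add _ _ _ _ h1 h2)
    refine ⟨b, hb, fun J h1 h2 => ?_⟩
    rcases le_or_gt (-1) J with h | h
    · obtain ⟨n, hn⟩ := Int.eq_ofNat_of_zero_le (show 0 ≤ J + 1 by omega)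
      have e : J = (n : ℤ) - 1 := by omega
      have e1 : (n : ℤ) - 1 + 1 = n := by ring
      rw [e, e1]
      exact up n (by omega)
    · obtain ⟨n, hn⟩ := Int.eq_ofNat_of_zero_le (show 0 ≤ -1 - J by omega)
      have e : J = -1 - (n : ℤ) := by omega
      have e1 : (-1 - (n : ℤ)) + 1 = -(n : ℤ) := by ring
      rw [e, e1]
      exact down n (by omega)
  refine ⟨part1, ?_, ?_, part4, ?_, ?_⟩
  · intro K hK1 hKT
    have key : ∀ n : ℕ, (m0 : ℤ) + n < T →
        Rl a ε g (C * A K ((m0 : ℤ) + n)) (-P ^ ((K : ℤ) * n)) := by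
      intro n
      induction n with
      | zero =>
        intro _
        obtain ⟨f, hf⟩ := part1 K hK1 hKT ((m0 : ℤ) - 1) (by omega) (by omega)
        have e := hrec K hK1 ((m0 : ℤ) - 1)
        rw [sub_add_cancel] at e
        have e2 : C * A K ((m0 : ℤ) + (0 : ℕ)) =
            p ^ (K : ℤ) * (C * A K ((m0 : ℤ) - 1)) + -1 := by
          rw [Nat.cast_zero, add_zero, e, ← hCc]
          ring
        have e3 : -P ^ ((K : ℤ) * ((0 : ℕ) : ℤ)) = P ^ (K : ℤ) * (0 * f) + -1 := by
          rw [Nat.cast_zero, mul_zero, zpow_zero]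
          ring
        rw [e2, e3]
        exact r_add _ _ _ _ (r_mul _ _ _ _ (hpz K) (r_mul _ _ _ _ hC0 hf)) (r_neg _ _ r_one)
      | succ n ih =>
        intro hn
        push_cast at hn
        have h1 := ih (by omega)
        obtain ⟨f', hf'⟩ := hc ((m0 : ℤ) + n + 1) (by omega) (by omega) (by omega) (by omega)
        have e := hrec K hK1 ((m0 : ℤ) + n)
        have e2 : C * A K ((m0 : ℤ) + ((n + 1 : ℕ) : ℤ)) =
            p ^ (K : ℤ) * (C * A K ((m0 : ℤ) + n)) + -(C * cc w p x ((m0 : ℤ) + n + 1)) := by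
          rw [Nat.cast_add, Nat.cast_one, ← add_assoc, e]
          ring
        have e3 : -P ^ ((K : ℤ) * ((n + 1 : ℕ) : ℤ)) =
            P ^ (K : ℤ) * (-P ^ ((K : ℤ) * n)) + -(0 * f') := by
          rw [Nat.cast_add, Nat.cast_one, mul_add, mul_one, zpow_add₀ hPne]
          ring
        rw [e2, e3]
        exact r_add _ _ _ _ (r_mul _ _ _ _ (hpz K) h1) (r_neg _ _ (r_mul _ _ _ _ hC0 hf'))
    intro J h1 h2
    obtain ⟨n, hn⟩ := Int.eq_ofNat_of_zero_le (show 0 ≤ J - m0 by omega)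
    have e : J = (m0 : ℤ) + n := by omega
    rw [hn, e]
    exact key n (by omega)
  · intro K hK1 hKT
    have key : ∀ n : ℕ, -(T : ℤ) < (m0 : ℤ) - T - 1 - n →
        Rl a ε g (C' * A K ((m0 : ℤ) - T - 1 - n)) (P ^ ((K : ℤ) * (-1 - n))) := by
      intro n
      induction n with
      | zero =>
        intro _
        obtain ⟨f, hf⟩ := part1 K hK1 hKT ((m0 : ℤ) - T) (by omega) (by omega)
        have e := hrec' K hK1 ((m0 : ℤ) - T)
        have e2 : C' * A K ((m0 : ℤ) - T - 1 - (0 : ℕ)) =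
            p ^ (-(K : ℤ)) * (C' * A K ((m0 : ℤ) - T) + 1) := by
          rw [Nat.cast_zero, sub_zero, e, ← hCc']
          ring
        have e3 : P ^ ((K : ℤ) * (-1 - ((0 : ℕ) : ℤ))) = P ^ (-(K : ℤ)) * (0 * f + 1) := by
          have : (K : ℤ) * (-1 - ((0 : ℕ) : ℤ)) = -(K : ℤ) := by push_cast; ring
          rw [this]
          ring
        rw [e2, e3]
        exact r_mul _ _ _ _ (hpz _) (r_add _ _ _ _ (r_mul _ _ _ _ hC1 hf) r_one)
      | succ n ih =>
        intro hn
        push_cast at hn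
        have h1 := ih (by omega)
        obtain ⟨f', hf'⟩ := hc ((m0 : ℤ) - T - 1 - n) (by omega) (by omega) (by omega) (by omega)
        have e := hrec' K hK1 ((m0 : ℤ) - T - 1 - n)
        have e2 : C' * A K ((m0 : ℤ) - T - 1 - ((n + 1 : ℕ) : ℤ)) =
            p ^ (-(K : ℤ)) * (C' * A K ((m0 : ℤ) - T - 1 - n) +
              C' * cc w p x ((m0 : ℤ) - T - 1 - n)) := by
          have : (m0 : ℤ) - T - 1 - ((n + 1 : ℕ) : ℤ) = (m0 : ℤ) - T - 1 - n - 1 := by
            push_cast
            ring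
          rw [this, e]
          ring
        have e3 : P ^ ((K : ℤ) * (-1 - ((n + 1 : ℕ) : ℤ))) =
            P ^ (-(K : ℤ)) * (P ^ ((K : ℤ) * (-1 - n)) + 0 * f') := by
          have : (K : ℤ) * (-1 - ((n + 1 : ℕ) : ℤ)) = -(K : ℤ) + (K : ℤ) * (-1 - n) := by
            push_cast
            ring
          rw [this, zpow_add₀ hPne]
          ring
        rw [e2, e3]
        exact r_mul _ _ _ _ (hpz _) (r_add _ _ _ _ h1 (r_mul _ _ _ _ hC1 hf'))
    intro J h1 h2
    obtain ⟨n, hn⟩ := Int.eq_ofNat_of_zero_le (show 0 ≤ (m0 : ℤ) - T - 1 - J by omega)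
    have e : J = (m0 : ℤ) - T - 1 - n := by omega
    have e' : (m0 : ℤ) - T - 1 - n - m0 + T = -1 - n := by ring
    rw [e, e']
    exact key n (by omega)
  · intro K hK1 hKT
    have hK0 : 1 ≤ K := by omega
    obtain ⟨b, -, hb⟩ := part4 K hK1 hKT
    have key : ∀ n : ℕ, (m0 : ℤ) + n < T →
        Rl a ε g (C * (t * A K ((m0 : ℤ) + n))) 0 := by
      intro n
      induction n with
      | zero =>
        intro _
        have hf := hb ((m0 : ℤ) - 1) (by omega) (by omega)
        have e := hrec K hK0 ((m0 : ℤ) - 1)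
        rw [sub_add_cancel] at e
        have e2 : C * (t * A K ((m0 : ℤ) + (0 : ℕ))) =
            p ^ (K : ℤ) * (C * (t * A K ((m0 : ℤ) - 1))) + -t := by
          rw [Nat.cast_zero, add_zero, e]
          linear_combination (-t) * hCc
        have h3 := r_add _ _ _ _ (r_mul _ _ _ _ (hpz K) (r_mul _ _ _ _ hC0 hf)) (r_neg _ _ ht)
        simp only [zero_mul, mul_zero, neg_zero, add_zero] at h3
        rw [e2]
        exact h3
      | succ n ih =>
        intro hn
        push_cast at hn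
        have h1 := ih (by omega)
        obtain ⟨f', hf'⟩ := hc ((m0 : ℤ) + n + 1) (by omega) (by omega) (by omega) (by omega)
        have e := hrec K hK0 ((m0 : ℤ) + n)
        have e2 : C * (t * A K ((m0 : ℤ) + ((n + 1 : ℕ) : ℤ))) =
            p ^ (K : ℤ) * (C * (t * A K ((m0 : ℤ) + n))) +
              -(C * (t * cc w p x ((m0 : ℤ) + n + 1))) := by
          rw [Nat.cast_add, Nat.cast_one, ← add_assoc, e]
          ring
        have h3 := r_add _ _ _ _ (r_mul _ _ _ _ (hpz K) h1)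
          (r_neg _ _ (r_mul _ _ _ _ hC0 (r_mul _ _ _ _ ht hf')))
        simp only [zero_mul, mul_zero, neg_zero, add_zero] at h3
        rw [e2]
        exact h3
    intro J h1 h2
    obtain ⟨n, hn⟩ := Int.eq_ofNat_of_zero_le (show 0 ≤ J - m0 by omega)
    have e : J = (m0 : ℤ) + n := by omega
    rw [e]
    exact key n (by omega)
  · intro K hK1 hKT
    have hK0 : 1 ≤ K := by omega
    obtain ⟨b, -, hb⟩ := part4 K hK1 hKT
    have key : ∀ n : ℕ, -(T : ℤ) < (m0 : ℤ) - T - 1 - n →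
        Rl a ε g (C' * (t * A K ((m0 : ℤ) - T - 1 - n))) 0 := by
      intro n
      induction n with
      | zero =>
        intro _
        have hf := hb ((m0 : ℤ) - T) (by omega) (by omega)
        have e := hrec' K hK0 ((m0 : ℤ) - T)
        have e2 : C' * (t * A K ((m0 : ℤ) - T - 1 - (0 : ℕ))) =
            p ^ (-(K : ℤ)) * (C' * (t * A K ((m0 : ℤ) - T)) + t) := by
          rw [Nat.cast_zero, sub_zero, e]
          linear_combination (p ^ (-(K : ℤ)) * t) * hCc'
        have h3 := r_mul _ _ _ _ (hpz (-(K : ℤ))) (r_add _ _ _ _ (r_mul _ _ _ _ hC1 hf) ht)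
        simp only [zero_mul, mul_zero, neg_zero, add_zero] at h3
        rw [e2]
        exact h3
      | succ n ih =>
        intro hn
        push_cast at hn
        have h1 := ih (by omega)
        obtain ⟨f', hf'⟩ := hc ((m0 : ℤ) - T - 1 - n) (by omega) (by omega) (by omega) (by omega)
        have e := hrec' K hK0 ((m0 : ℤ) - T - 1 - n)
        have e2 : C' * (t * A K ((m0 : ℤ) - T - 1 - ((n + 1 : ℕ) : ℤ))) =
            p ^ (-(K : ℤ)) * (C' * (t * A K ((m0 : ℤ) - T - 1 - n)) +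
              C' * (t * cc w p x ((m0 : ℤ) - T - 1 - n))) := by
          have : (m0 : ℤ) - T - 1 - ((n + 1 : ℕ) : ℤ) = (m0 : ℤ) - T - 1 - n - 1 := by
            push_cast
            ring
          rw [this, e]
          ring
        have h3 := r_mul _ _ _ _ (hpz (-(K : ℤ)))
          (r_add _ _ _ _ h1 (r_mul _ _ _ _ hC1 (r_mul _ _ _ _ ht hf')))
        simp only [zero_mul, mul_zero, neg_zero, add_zero] at h3
        rw [e2]
        exact h3
    intro J h1 h2
    obtain ⟨n, hn⟩ := Int.eq_ofNat_of_zero_le (show 0 ≤ (m0 : ℤ) - T - 1 - J by omega)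
    have e : J = (m0 : ℤ) - T - 1 - n := by omega
    rw [e]
    exact key n (by omega)

end Pool.Agent.H410.FM
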