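import Pool.Agent.H410.FM.Stm

/-!
`S_NWB`: bound for `nw`.
-/

namespace Pool.Agent.H410.FM

open Finset Polynomial
open Pool.Agent.H410.FL (V Sg xd S1 S2 S3 hl SH Wt wr Hpx nw cc ac AM DD Dc Dl jt)
open Pool.Agent.H410.FC (OK U sD al be pp DK Cj Rl Tt xt XX QQ pik VV EE FF ea ww C3 BF rr)

namespace P_NWB

lemma sD_nonneg (a ε : ℤ) : 0 ≤ sD a ε := Real.sqrt_nonneg _

lemma nw_le (a ε : ℤ) (r : Fin 3 → ℤ) (H : ℕ) (h : ∀ i, |r i| ≤ (H : ℤ)) :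
    nw (wr a ε r) ≤ (2 * sD a ε + 6 * sD a ε ^ 2 + 2 * sD a ε ^ 3) * H := by
  have hs := sD_nonneg a ε
  have hr : ∀ i, |(r i : ℝ)| ≤ (H : ℝ) := by
    intro i
    have h1 := h i
    have h2 : ((|r i| : ℤ) : ℝ) ≤ ((H : ℤ) : ℝ) := by exact_mod_cast h1
    rw [Int.cast_abs, Int.cast_natCast] at h2
    exact h2
  have e0 : wr a ε r 0 = 2 * (r 0 : ℝ) * sD a ε + 2 * sD a ε ^ 2 * (r 1 : ℝ) := rfl
  have e1 : wr a ε r 1 = 4 * sD a ε ^ 2 * (r 1 : ℝ) + sD a ε ^ 3 * (r 2 : ℝ) := rfl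
  have e2 : wr a ε r 2 = sD a ε ^ 3 * (r 2 : ℝ) := rfl
  have hmul : ∀ (c : ℝ) (i : Fin 3), 0 ≤ c → |c * (r i : ℝ)| ≤ c * H := by
    intro c i hc
    rw [abs_mul, abs_of_nonneg hc]
    exact mul_le_mul_of_nonneg_left (hr i) hc
  have h0 : |wr a ε r 0| ≤ 2 * sD a ε * H + 2 * sD a ε ^ 2 * H := by
    rw [e0, show 2 * (r 0 : ℝ) * sD a ε = 2 * sD a ε * (r 0 : ℝ) by ring]
    exact (abs_add_le _ _).trans (add_le_add (hmul _ _ (by positivity)) (hmul _ _ (by positivity)))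
  have h1 : |wr a ε r 1| ≤ 4 * sD a ε ^ 2 * H + sD a ε ^ 3 * H := by
    rw [e1]
    exact (abs_add_le _ _).trans (add_le_add (hmul _ _ (by positivity)) (hmul _ _ (by positivity)))
  have h2 : |wr a ε r 2| ≤ sD a ε ^ 3 * H := by
    rw [e2]
    exact hmul _ _ (by positivity)
  unfold nw
  nlinarith [h0, h1, h2]

end P_NWB

theorem t_NWB : S_NWB := by
  intro a ε _
  have hs := P_NWB.sD_nonneg a ε
  obtain ⟨C, hC⟩ := exists_nat_ge (1 + (2 * sD a ε + 6 * sD a ε ^ 2 + 2 * sD a ε ^ 3))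
  refine ⟨C + 1, Nat.le_add_left _ _, ?_⟩
  intro r H h hH
  have h1 := P_NWB.nw_le a ε r H h
  have hH' : (1 : ℝ) ≤ (H : ℝ) := by exact_mod_cast hH
  have h2 : (1 + (2 * sD a ε + 6 * sD a ε ^ 2 + 2 * sD a ε ^ 3)) * (H : ℝ) ≤ (C : ℝ) * H :=
    mul_le_mul_of_nonneg_right hC (by positivity)
  rw [Nat.cast_add, Nat.cast_one]
  linarith

end Pool.Agent.H410.FM
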