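import Pool.Agent.H410.FM.Stm

/-!
The statement `S_PT` (perturbation bound for the determinants; helper234, for helper410).
-/

set_option autoImplicit false

namespace Pool.Agent.H410.FM.P_PT

open Pool.Agent.H410.FL (V Sg xd S1 S2 S3 hl SH Wt wr Hpx nw cc ac AM DD Dc Dl jt)
open Pool.Agent.H410.FC (OK U sD al be pp DK Cj Rl Tt xt XX QQ pik VV EE FF ea ww C3 BF rr)

theorem nw_nonneg (w : Fin 3 → ℝ) : 0 ≤ nw w := by
  unfold Pool.Agent.H410.FL.nw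
  positivity

theorem sq_sum : HasSum (fun n : ℕ => ((n : ℝ) + 1) ^ 2 * (1 / 2 : ℝ) ^ n) 12 := by
  have hr : ‖(1 / 2 : ℝ)‖ < 1 := by
    rw [Real.norm_of_nonneg (by norm_num)]
    norm_num
  have h2 := (hasSum_choose_mul_geometric_of_norm_lt_one 2 hr).mul_left 2
  have h1 := hasSum_choose_mul_geometric_of_norm_lt_one 1 hr
  have h3 := h2.sub h1
  have h4 : (2 : ℝ) * (1 / (1 - 1 / 2) ^ (2 + 1)) - 1 / (1 - 1 / 2) ^ (1 + 1) = 12 := by norm_num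
  rw [h4] at h3
  have h5 : (fun n : ℕ => ((n : ℝ) + 1) ^ 2 * (1 / 2 : ℝ) ^ n) = fun n : ℕ =>
      2 * ((((n + 2).choose 2 : ℕ) : ℝ) * (1 / 2 : ℝ) ^ n) -
        (((n + 1).choose 1 : ℕ) : ℝ) * (1 / 2 : ℝ) ^ n := by
    funext n
    have h6 : (((n + 2).choose 2 : ℕ) : ℝ) = ((n : ℝ) + 2) * ((n : ℝ) + 1) / 2 := by
      rw [Nat.cast_choose_two]
      push_cast
      ring
    rw [h6, Nat.choose_one_right]
    push_cast
    ring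
  rw [h5]
  exact h3

theorem ac_bound (hCB : Pool.Agent.H410.FL.S_CB) {w : Fin 3 → ℝ} {p x : ℝ} (h : Hpx p x)
    (N K : ℕ) (hK : 1 ≤ K) (J : ℤ) (hJ : |(J : ℝ)| ≤ N) :
    |ac w p x K J| ≤ 24 * nw w * ((N : ℝ) + 2) ^ 2 := by
  have hp := h.1
  have hw := nw_nonneg w
  have hN0 : (0 : ℝ) ≤ N := Nat.cast_nonneg N
  have hs := sq_sum.mul_left (2 * nw w * ((N : ℝ) + 2) ^ 2)
  have hb : ‖∑' e : ℕ, (p ^ (K * (e + 1)))⁻¹ * cc w p x ((e : ℤ) + 1 + J)‖ ≤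
      2 * nw w * ((N : ℝ) + 2) ^ 2 * 12 := by
    refine tsum_of_norm_bounded hs fun e => ?_
    rw [Real.norm_eq_abs, abs_mul, abs_inv, abs_pow]
    have h1 : (|p| ^ (K * (e + 1)))⁻¹ ≤ (1 / 2 : ℝ) ^ (e + 1) := by
      rw [one_div, inv_pow]
      apply inv_anti₀ (by positivity)
      calc (2 : ℝ) ^ (e + 1) ≤ |p| ^ (e + 1) := pow_le_pow_left₀ (by norm_num) hp _
        _ ≤ |p| ^ (K * (e + 1)) := pow_le_pow_right₀ (by linarith)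
            (Nat.le_mul_of_pos_left _ (by omega))
    have h2 := (hCB w p x h ((e : ℤ) + 1 + J)).1
    have he : (0 : ℝ) ≤ e := Nat.cast_nonneg e
    have h3 : |((((e : ℤ) + 1 + J : ℤ)) : ℝ)| + 1 ≤ ((e : ℝ) + 1) * ((N : ℝ) + 2) := by
      push_cast
      have a1 := abs_add_le ((e : ℝ) + 1) (J : ℝ)
      have a2 : |(e : ℝ) + 1| = (e : ℝ) + 1 := abs_of_nonneg (by positivity)
      nlinarith [mul_nonneg he hN0]
    have h4 : |cc w p x ((e : ℤ) + 1 + J)| ≤ 4 * nw w * (((e : ℝ) + 1) * ((N : ℝ) + 2)) ^ 2 := by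
      refine h2.trans ?_
      have h5 : (0 : ℝ) ≤ |((((e : ℤ) + 1 + J : ℤ)) : ℝ)| + 1 := by positivity
      exact mul_le_mul_of_nonneg_left (pow_le_pow_left₀ h5 h3 2) (by positivity)
    calc (|p| ^ (K * (e + 1)))⁻¹ * |cc w p x ((e : ℤ) + 1 + J)|
        ≤ (1 / 2 : ℝ) ^ (e + 1) * (4 * nw w * (((e : ℝ) + 1) * ((N : ℝ) + 2)) ^ 2) :=
          mul_le_mul h1 h4 (abs_nonneg _) (by positivity)
      _ = 2 * nw w * ((N : ℝ) + 2) ^ 2 * (((e : ℝ) + 1) ^ 2 * (1 / 2 : ℝ) ^ e) := by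
          rw [pow_succ]
          ring
  unfold Pool.Agent.H410.FL.ac
  rw [← Real.norm_eq_abs]
  refine hb.trans (le_of_eq ?_)
  ring

theorem nat_le_pow {P : ℝ} (hP : 2 ≤ P) (N : ℕ) : (N : ℝ) ≤ P ^ N := by
  have h1 : (N : ℝ) ≤ (2 : ℝ) ^ N := by exact_mod_cast (Nat.lt_two_pow_self (n := N)).le
  exact h1.trans (pow_le_pow_left₀ (by norm_num) hP N)

theorem poly_le {P : ℝ} (hP : 2 ≤ P) (N : ℕ) (hN : 1 ≤ N) :
    24 * ((N : ℝ) + 2) ^ 2 ≤ P ^ (10 * N ^ 2) := by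
  have hP1 : (1 : ℝ) ≤ P := by linarith
  have hN1 : (1 : ℝ) ≤ N := by exact_mod_cast hN
  have h1 : (N : ℝ) + 2 ≤ 3 * N := by linarith
  have h2 : ((N : ℝ) + 2) ^ 2 ≤ 9 * (N : ℝ) ^ 2 := by nlinarith
  have h3 : (N : ℝ) ^ 2 ≤ (P ^ N) ^ 2 := pow_le_pow_left₀ (by positivity) (nat_le_pow hP N) 2
  have h4 : (216 : ℝ) ≤ P ^ 8 := by
    calc (216 : ℝ) ≤ 2 ^ 8 := by norm_num
      _ ≤ P ^ 8 := pow_le_pow_left₀ (by norm_num) hP 8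
  have h5 : N ≤ N ^ 2 := by nlinarith
  have h6 : 8 + N * 2 ≤ 10 * N ^ 2 := by nlinarith
  calc 24 * ((N : ℝ) + 2) ^ 2 ≤ 216 * (N : ℝ) ^ 2 := by linarith
    _ ≤ P ^ 8 * (P ^ N) ^ 2 := mul_le_mul h4 h3 (by positivity) (by positivity)
    _ = P ^ (8 + N * 2) := by rw [← pow_mul, ← pow_add]
    _ ≤ P ^ (10 * N ^ 2) := pow_le_pow_right₀ hP1 h6

theorem fact_le {P : ℝ} (hP : 2 ≤ P) (N : ℕ) : (N.factorial : ℝ) ≤ P ^ (N ^ 2) := by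
  have h1 : (N.factorial : ℝ) ≤ (N : ℝ) ^ N := by exact_mod_cast Nat.factorial_le_pow N
  calc (N.factorial : ℝ) ≤ (N : ℝ) ^ N := h1
    _ ≤ (P ^ N) ^ N := pow_le_pow_left₀ (Nat.cast_nonneg N) (nat_le_pow hP N) N
    _ = P ^ (N ^ 2) := by rw [← pow_mul, sq]

end Pool.Agent.H410.FM.P_PT

namespace Pool.Agent.H410.FM

open Pool.Agent.H410.FL (V Sg xd S1 S2 S3 hl SH Wt wr Hpx nw cc ac AM DD Dc Dl jt)
open Pool.Agent.H410.FC (OK U sD al be pp DK Cj Rl Tt xt XX QQ pik VV EE FF ea ww C3 BF rr)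
open Pool.Agent.H410.FM.P_PT

theorem t_PT (hHPX : Pool.Agent.H410.FL.S_HPX) (hCB : Pool.Agent.H410.FL.S_CB)
    (hSUM : Pool.Agent.H410.FL.S_SUM) (hDD : S_DD) : S_PT := by
  intro a ε δ hOK hSg
  refine ⟨13, ?_⟩
  intro r s n0 h hN hΔ
  have hpx : Hpx (pp a ε) (xd a ε δ) := (hHPX a ε δ hOK hSg).1
  have hP : 2 ≤ |pp a ε| := hpx.1
  have hp0 : pp a ε ≠ 0 := Pool.Agent.H410.FC.pp_ne hOK
  have hbe : |be a ε| ≤ 5 / 8 := Pool.Agent.H410.FC.abs_be_le hOK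
  have hw := nw_nonneg (wr a ε r)
  set w := wr a ε r with hwdef
  set P : ℝ := |pp a ε| with hPdef
  set N : ℕ := n0 + h with hNdef
  set D : ℝ := |(s : ℝ) - SH a ε δ r| with hDdef
  have hP1 : (1 : ℝ) ≤ P := by linarith
  have hD0 : 0 ≤ D := abs_nonneg _
  have hδ : |(δ : ℝ)| = 1 := by
    rcases hSg.1 with h1 | h1 <;> rw [h1] <;> norm_num
  -- the entries of `AM`
  have hA : ∀ i j : Fin N, |AM w (pp a ε) (xd a ε δ) (-(n0 : ℤ)) N i j| ≤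
      nw w * P ^ (10 * N ^ 2) := by
    intro i j
    have hj := j.2
    have hJ : |(((-(n0 : ℤ) + ((j : ℕ) : ℤ)) : ℤ) : ℝ)| ≤ (N : ℝ) := by
      have h1 : |(-(n0 : ℤ) + ((j : ℕ) : ℤ))| ≤ (N : ℤ) := by
        rw [abs_le]
        constructor <;> omega
      exact_mod_cast h1
    have h1 := ac_bound hCB (w := w) hpx N ((i : ℕ) + 1) (by omega) _ hJ
    have h2 := poly_le hP N hN
    show |ac w (pp a ε) (xd a ε δ) ((i : ℕ) + 1) (-(n0 : ℤ) + ((j : ℕ) : ℤ))| ≤ _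
    calc |ac w (pp a ε) (xd a ε δ) ((i : ℕ) + 1) (-(n0 : ℤ) + ((j : ℕ) : ℤ))|
        ≤ 24 * nw w * ((N : ℝ) + 2) ^ 2 := h1
      _ = nw w * (24 * ((N : ℝ) + 2) ^ 2) := by ring
      _ ≤ nw w * P ^ (10 * N ^ 2) := mul_le_mul_of_nonneg_left h2 hw
  -- the difference
  have hdiff : ∀ i j : Fin N, |SM a ε δ r s (-(n0 : ℤ)) N i j -
      AM w (pp a ε) (xd a ε δ) (-(n0 : ℤ)) N i j| ≤ P ^ (N ^ 2) * D := by
    intro i j
    have hi := i.2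
    have hj := j.2
    have e1 : SM a ε δ r s (-(n0 : ℤ)) N i j - AM w (pp a ε) (xd a ε δ) (-(n0 : ℤ)) N i j =
        -((δ * be a ε) ^ ((i : ℕ) + 1) *
          pp a ε ^ ((((i : ℕ) + 1 : ℕ) : ℤ) * ((-(n0 : ℤ) + ((j : ℕ) : ℤ)) + 1)) *
          ((s : ℝ) - SH a ε δ r)) := by
      show aS a ε δ r s ((i : ℕ) + 1) (-(n0 : ℤ) + ((j : ℕ) : ℤ)) -
        ac w (pp a ε) (xd a ε δ) ((i : ℕ) + 1) (-(n0 : ℤ) + ((j : ℕ) : ℤ)) = _
      unfold aS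
      rw [← hwdef]
      ring
    rw [e1, abs_neg, abs_mul, abs_mul, abs_pow, abs_mul, abs_zpow, hδ, one_mul]
    have h1 : |be a ε| ^ ((i : ℕ) + 1) ≤ 1 := pow_le_one₀ (abs_nonneg _) (by linarith)
    have h2 : (((i : ℕ) + 1 : ℕ) : ℤ) * ((-(n0 : ℤ) + ((j : ℕ) : ℤ)) + 1) ≤ ((N ^ 2 : ℕ) : ℤ) := by
      have k1 : (((i : ℕ) + 1 : ℕ) : ℤ) ≤ (N : ℤ) := by exact_mod_cast hi
      have k2 : (-(n0 : ℤ) + ((j : ℕ) : ℤ)) + 1 ≤ (N : ℤ) := by omega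
      have k3 : (0 : ℤ) ≤ (((i : ℕ) + 1 : ℕ) : ℤ) := by positivity
      have k4 : (0 : ℤ) ≤ (N : ℤ) := by positivity
      have k5 : (((i : ℕ) + 1 : ℕ) : ℤ) * ((-(n0 : ℤ) + ((j : ℕ) : ℤ)) + 1) ≤
          (((i : ℕ) + 1 : ℕ) : ℤ) * (N : ℤ) := mul_le_mul_of_nonneg_left k2 k3
      have k6 : (((i : ℕ) + 1 : ℕ) : ℤ) * (N : ℤ) ≤ (N : ℤ) * (N : ℤ) :=
        mul_le_mul_of_nonneg_right k1 k4
      have k7 : ((N ^ 2 : ℕ) : ℤ) = (N : ℤ) * (N : ℤ) := by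
        rw [sq, Nat.cast_mul]
      rw [k7]
      exact k5.trans k6
    have h3 : |pp a ε| ^ ((((i : ℕ) + 1 : ℕ) : ℤ) * ((-(n0 : ℤ) + ((j : ℕ) : ℤ)) + 1)) ≤
        P ^ (N ^ 2) := by
      rw [← hPdef]
      calc P ^ ((((i : ℕ) + 1 : ℕ) : ℤ) * ((-(n0 : ℤ) + ((j : ℕ) : ℤ)) + 1))
          ≤ P ^ ((N ^ 2 : ℕ) : ℤ) := zpow_le_zpow_right₀ hP1 h2
        _ = P ^ (N ^ 2) := zpow_natCast _ _
    have h4 : 0 ≤ |pp a ε| ^ ((((i : ℕ) + 1 : ℕ) : ℤ) * ((-(n0 : ℤ) + ((j : ℕ) : ℤ)) + 1)) :=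
      zpow_nonneg (abs_nonneg _) _
    have h5 : |be a ε| ^ ((i : ℕ) + 1) *
        |pp a ε| ^ ((((i : ℕ) + 1 : ℕ) : ℤ) * ((-(n0 : ℤ) + ((j : ℕ) : ℤ)) + 1)) ≤
        1 * P ^ (N ^ 2) := mul_le_mul h1 h3 h4 (by norm_num)
    rw [one_mul] at h5
    exact mul_le_mul_of_nonneg_right h5 hD0
  have hPn : ∀ m : ℕ, 0 < P ^ m := fun m => pow_pos (by linarith) m
  have hle1 : P ^ (10 * N ^ 2) ≤ P ^ (11 * N ^ 2) := pow_le_pow_right₀ hP1 (by nlinarith)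
  have hle2 : P ^ (N ^ 2) ≤ P ^ (11 * N ^ 2) := pow_le_pow_right₀ hP1 (by nlinarith)
  have hM0 : 0 ≤ (1 + nw w) * P ^ (11 * N ^ 2) := by
    have := hPn (11 * N ^ 2)
    positivity
  have hA' : ∀ i j : Fin N, |AM w (pp a ε) (xd a ε δ) (-(n0 : ℤ)) N i j| ≤
      (1 + nw w) * P ^ (11 * N ^ 2) := by
    intro i j
    refine (hA i j).trans ?_
    have k1 : nw w * P ^ (10 * N ^ 2) ≤ nw w * P ^ (11 * N ^ 2) :=
      mul_le_mul_of_nonneg_left hle1 hw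
    have k2 := (hPn (11 * N ^ 2)).le
    linarith
  have hS' : ∀ i j : Fin N, |SM a ε δ r s (-(n0 : ℤ)) N i j| ≤
      (1 + nw w) * P ^ (11 * N ^ 2) := by
    intro i j
    have k0 : |SM a ε δ r s (-(n0 : ℤ)) N i j| ≤
        |SM a ε δ r s (-(n0 : ℤ)) N i j - AM w (pp a ε) (xd a ε δ) (-(n0 : ℤ)) N i j| +
        |AM w (pp a ε) (xd a ε δ) (-(n0 : ℤ)) N i j| := by
      have := abs_add_le (SM a ε δ r s (-(n0 : ℤ)) N i j -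
        AM w (pp a ε) (xd a ε δ) (-(n0 : ℤ)) N i j)
        (AM w (pp a ε) (xd a ε δ) (-(n0 : ℤ)) N i j)
      rwa [sub_add_cancel] at this
    have k1 := hdiff i j
    have k2 := hA i j
    have k3 : P ^ (N ^ 2) * D ≤ P ^ (11 * N ^ 2) := by
      calc P ^ (N ^ 2) * D ≤ P ^ (N ^ 2) * 1 := mul_le_mul_of_nonneg_left hΔ (hPn _).le
        _ = P ^ (N ^ 2) := mul_one _
        _ ≤ P ^ (11 * N ^ 2) := hle2
    have k4 : nw w * P ^ (10 * N ^ 2) ≤ nw w * P ^ (11 * N ^ 2) :=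
      mul_le_mul_of_nonneg_left hle1 hw
    linarith
  have hd' : ∀ i j : Fin N, |SM a ε δ r s (-(n0 : ℤ)) N i j -
      AM w (pp a ε) (xd a ε δ) (-(n0 : ℤ)) N i j| ≤ (1 + nw w) * P ^ (11 * N ^ 2) * D := by
    intro i j
    refine (hdiff i j).trans ?_
    apply mul_le_mul_of_nonneg_right _ hD0
    have k1 := mul_nonneg hw (hPn (11 * N ^ 2)).le
    linarith
  have hmain := hDD N (SM a ε δ r s (-(n0 : ℤ)) N) (AM w (pp a ε) (xd a ε δ) (-(n0 : ℤ)) N)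
    ((1 + nw w) * P ^ (11 * N ^ 2)) D hM0 hD0 hS' hA' hd'
  refine hmain.trans ?_
  have hN2 : N ^ 2 ≤ N ^ 3 := Nat.pow_le_pow_right hN (by norm_num)
  have hN1 : N ≤ N ^ 3 := by
    calc N = N ^ 1 := (pow_one N).symm
      _ ≤ N ^ 3 := Nat.pow_le_pow_right hN (by norm_num)
  have f1 : (N.factorial : ℝ) ≤ P ^ (N ^ 3) :=
    (fact_le hP N).trans (pow_le_pow_right₀ hP1 hN2)
  have f2 : (N : ℝ) ≤ P ^ (N ^ 3) := (nat_le_pow hP N).trans (pow_le_pow_right₀ hP1 hN1)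
  have hB0 : 0 ≤ (1 + nw w) ^ N * P ^ (11 * N ^ 3) * D := by
    have := hPn (11 * N ^ 3)
    positivity
  have e2 : ((1 + nw w) * P ^ (11 * N ^ 2)) ^ N = (1 + nw w) ^ N * P ^ (11 * N ^ 3) := by
    rw [mul_pow, ← pow_mul]
    congr 2
    ring
  rw [e2]
  calc (N.factorial : ℝ) * ((N : ℝ) * ((1 + nw w) ^ N * P ^ (11 * N ^ 3)) * D)
      = ((N.factorial : ℝ) * (N : ℝ)) * ((1 + nw w) ^ N * P ^ (11 * N ^ 3) * D) := by ring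
    _ ≤ (P ^ (N ^ 3) * P ^ (N ^ 3)) * ((1 + nw w) ^ N * P ^ (11 * N ^ 3) * D) := by
        apply mul_le_mul_of_nonneg_right _ hB0
        exact mul_le_mul f1 f2 (Nat.cast_nonneg N) (hPn _).le
    _ = D * (1 + nw w) ^ N * (P ^ (N ^ 3) * P ^ (N ^ 3) * P ^ (11 * N ^ 3)) := by ring
    _ = D * (1 + nw w) ^ N * P ^ (13 * N ^ 3) := by
        rw [← pow_add, ← pow_add]
        congr 2
        ring

end Pool.Agent.H410.FM
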