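import Pool.Agent.H410.FM.Stm

/-!
`R(m) = 0` for at most one `m ≥ 0` (project FM of helper410; helper42).
-/

set_option autoImplicit false

namespace Pool.Agent.H410.FM.P_RNZ

open Pool.Agent.H410.FC (OK)

/-- an integer strictly between two consecutive squares is not a square -/
theorem not_sq {b D : ℤ} (hb : 0 ≤ b) (h1 : b ^ 2 < D) (h2 : D < (b + 1) ^ 2) (z : ℤ) :
    D ≠ z ^ 2 := by
  intro h
  have h3 : b ^ 2 < z ^ 2 := by rw [← h]; exact h1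
  have h4 : z ^ 2 < (b + 1) ^ 2 := by rw [← h]; exact h2
  have h5 : |b| < |z| := sq_lt_sq.1 h3
  have h6 : |z| < |b + 1| := sq_lt_sq.1 h4
  rw [abs_of_nonneg hb] at h5
  rw [abs_of_nonneg (by linarith : (0 : ℤ) ≤ b + 1)] at h6
  omega

theorem disc {a ε : ℤ} (h : OK a ε) : 0 < a ^ 2 - 4 * ε ∧ ∀ z : ℤ, a ^ 2 - 4 * ε ≠ z ^ 2 := by
  rcases h with ⟨he, ha⟩ | ⟨he, ha⟩
  · subst he
    refine ⟨by nlinarith, ?_⟩
    rcases ha.eq_or_lt with h1 | h1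
    · rw [← h1]
      exact not_sq (b := 2) (by norm_num) (by norm_num) (by norm_num)
    · exact not_sq (b := a) (by linarith) (by linarith) (by nlinarith)
  · subst he
    refine ⟨by nlinarith, ?_⟩
    exact not_sq (b := a - 1) (by linarith) (by nlinarith) (by nlinarith)

theorem zero_of {D : ℤ} (hD : ∀ z : ℤ, D ≠ z ^ 2) {x y : ℤ} (h : x ^ 2 - D * y ^ 2 = 0) :
    x = 0 ∧ y = 0 := by
  have hy : y = 0 := by
    by_contra hy
    have h1 : x ^ 2 = D * y ^ 2 := by linarith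
    have h2 : y ^ 2 ∣ x ^ 2 := ⟨D, by rw [h1]; ring⟩
    obtain ⟨z, hz⟩ := (Int.pow_dvd_pow_iff (by norm_num : (2 : ℕ) ≠ 0)).1 h2
    refine hD z ?_
    have h3 : y ^ 2 * (D - z ^ 2) = 0 := by
      rw [hz] at h1
      linarith [h1, mul_pow y z 2]
    rcases mul_eq_zero.1 h3 with h4 | h4
    · exact absurd (pow_eq_zero_iff (by norm_num : (2 : ℕ) ≠ 0) |>.1 h4) hy
    · linarith
  refine ⟨?_, hy⟩
  rw [hy] at h
  have h1 : x ^ 2 = 0 := by linarith [h]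
  exact pow_eq_zero_iff (by norm_num : (2 : ℕ) ≠ 0) |>.1 h1

/-- what `R(m) = 0` means -/
theorem of_zero {D : ℤ} (hD0 : 0 < D) (hD : ∀ z : ℤ, D ≠ z ^ 2) {r : Fin 3 → ℤ} {m : ℕ}
    (h : RR D r m = 0) : r 1 = 0 ∧ 2 * r 0 + D * r 2 * ((m : ℤ) * (m + 1)) = 0 := by
  unfold RR at h
  obtain ⟨h1, h2⟩ := zero_of hD h
  refine ⟨?_, h2⟩
  have h3 : (2 * (m : ℤ) + 1) ≠ 0 := by omega
  rcases mul_eq_zero.1 h1 with h4 | h4
  · rcases mul_eq_zero.1 h4 with h5 | h5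
    · omega
    · exact h5
  · exact absurd h4 h3

theorem uniq {D : ℤ} (hD0 : 0 < D) (hD : ∀ z : ℤ, D ≠ z ^ 2) {r : Fin 3 → ℤ} (hr : r ≠ 0)
    {m m' : ℕ} (h : RR D r m = 0) (h' : RR D r m' = 0) : m = m' := by
  obtain ⟨h1, h2⟩ := of_zero hD0 hD h
  obtain ⟨-, h2'⟩ := of_zero hD0 hD h'
  have hr2 : r 2 ≠ 0 := by
    intro h0
    apply hr
    rw [h0] at h2
    have h3 : r 0 = 0 := by
      have : 2 * r 0 = 0 := by linarith
      omega
    funext i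
    fin_cases i
    · exact h3
    · exact h1
    · exact h0
  have h3 : (D * r 2) * ((m : ℤ) * (m + 1) - (m' : ℤ) * (m' + 1)) = 0 := by linarith
  rcases mul_eq_zero.1 h3 with h4 | h4
  · rcases mul_eq_zero.1 h4 with h5 | h5
    · omega
    · exact absurd h5 hr2
  · have h5 : ((m : ℤ) - m') * ((m : ℤ) + m' + 1) = 0 := by linarith
    rcases mul_eq_zero.1 h5 with h6 | h6
    · omega
    · omega

end Pool.Agent.H410.FM.P_RNZ

namespace Pool.Agent.H410.FM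

theorem t_RNZ : S_RNZ := by
  intro a ε hOK r hr
  obtain ⟨hD0, hD⟩ := P_RNZ.disc hOK
  by_cases h : ∃ m' : ℕ, RR (a ^ 2 - 4 * ε) r m' = 0
  · obtain ⟨m', hm'⟩ := h
    exact ⟨m', fun m hne h0 => hne (P_RNZ.uniq hD0 hD hr h0 hm')⟩
  · exact ⟨0, fun m _ h0 => h ⟨m, h0⟩⟩

end Pool.Agent.H410.FM
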