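import Pool.Agent.H410.FM.Stm

/-! `S_RS1` (helper909 for helper410): the residue fields, `ε = -1`, with a bounded `m0` (Bertrand's
postulate); adapted from `Pool.Agent.H410.FL.P_RS1` (helper178) and
`Pool.Agent.H410.FC.P_EX1` (helper643). -/

namespace Pool.Agent.H410.FM

open Finset Polynomial
open Pool.Agent.H410.FL (V)
open Pool.Agent.H410.FC (U)

namespace P_RS1

/-- `V_0 = 2`, `V_1 = a`, `V_{n+2} = a V_{n+1} + V_n` -/
def VW (a : ℤ) : ℕ → ℤ
  | 0 => 2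
  | 1 => a
  | (n + 2) => a * VW a (n + 1) + VW a n

theorem V_eq (a : ℤ) (n : ℕ) : V a (-1) n = VW a n ∧ V a (-1) (n + 1) = VW a (n + 1) := by
  induction n with
  | zero => exact ⟨rfl, rfl⟩
  | succ n ih =>
    refine ⟨ih.2, ?_⟩
    have e1 : V a (-1) (n + 1 + 1) = a * V a (-1) (n + 1) - (-1) * V a (-1) n := rfl
    have e2 : VW a (n + 1 + 1) = a * VW a (n + 1) + VW a n := rfl
    rw [e1, e2, ih.1, ih.2]
    ring

theorem V_mod (a : ℤ) (k : ℕ) :
    a ^ 2 ∣ VW a (2 * k) - 2 ∧ a ^ 2 ∣ VW a (2 * k + 1) - (2 * k + 1) * a := by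
  induction k with
  | zero => exact ⟨by simp [VW], by simp [VW]⟩
  | succ k ih =>
    obtain ⟨⟨c, hc⟩, ⟨d, hd⟩⟩ := ih
    have e1 : VW a (2 * (k + 1)) = a * VW a (2 * k + 1) + VW a (2 * k) := rfl
    have e2 : VW a (2 * (k + 1) + 1) = a * VW a (2 * (k + 1)) + VW a (2 * k + 1) := rfl
    have h1 : VW a (2 * (k + 1)) - 2 = a ^ 2 * (a * d + (2 * k + 1) + c) := by
      rw [e1]
      linear_combination a * hd + hc
    refine ⟨⟨_, h1⟩, ⟨a * (a * d + (2 * k + 1) + c) + d, ?_⟩⟩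
    rw [e2]
    push_cast
    linear_combination a * h1 + hd

theorem V_pos {a : ℤ} (ha : 1 ≤ a) (n : ℕ) : 1 ≤ VW a n ∧ 1 ≤ VW a (n + 1) := by
  induction n with
  | zero => exact ⟨by norm_num [VW], by simpa [VW] using ha⟩
  | succ n ih =>
    refine ⟨ih.2, ?_⟩
    have : VW a (n + 1 + 1) = a * VW a (n + 1) + VW a n := rfl
    rw [this]
    nlinarith [ih.1, ih.2]

theorem V_ge {a : ℤ} (ha : 1 ≤ a) (k : ℕ) : a * 2 ^ k ≤ VW a (2 * k + 1) := by
  induction k with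
  | zero => simp [VW]
  | succ k ih =>
    have e1 : VW a (2 * (k + 1)) = a * VW a (2 * k + 1) + VW a (2 * k) := rfl
    have e2 : VW a (2 * (k + 1) + 1) = a * VW a (2 * (k + 1)) + VW a (2 * k + 1) := rfl
    rw [e2, e1]
    have h1 := (V_pos ha (2 * k)).1
    have h2 := (V_pos ha (2 * k)).2
    have h3 : VW a (2 * k + 1) ≤ a * VW a (2 * k + 1) := by nlinarith
    have h4 : VW a (2 * k + 1) ≤ a * (a * VW a (2 * k + 1)) := by nlinarith
    have h5 : 0 ≤ a * VW a (2 * k) := by nlinarith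
    rw [pow_succ]
    nlinarith

theorem V_cast {F : Type} [Field F] {a : ℤ} {g g' : F} (h1 : g + g' = a) (h2 : g * g' = -1)
    (n : ℕ) :
    (VW a n : F) = g ^ n + g' ^ n ∧ (VW a (n + 1) : F) = g ^ (n + 1) + g' ^ (n + 1) := by
  induction n with
  | zero =>
    refine ⟨?_, ?_⟩
    · simp only [VW, pow_zero]; push_cast; norm_num
    · simp [VW, h1]
  | succ n ih =>
    refine ⟨ih.2, ?_⟩
    have e : VW a (n + 1 + 1) = a * VW a (n + 1) + VW a n := rfl
    rw [e]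
    push_cast
    rw [ih.1, ih.2, ← h1]
    linear_combination (g ^ n + g' ^ n) * h2

theorem eq_one_of_pow {F : Type} [Field F] {x : F} {m n : ℕ} (hm : x ^ m = 1) (hn : x ^ n = 1)
    (h : Nat.Coprime m n) : x = 1 := by
  have h1 := Nat.dvd_gcd (orderOf_dvd_of_pow_eq_one hm) (orderOf_dvd_of_pow_eq_one hn)
  rw [Nat.coprime_iff_gcd_eq_one.1 h, Nat.dvd_one] at h1
  exact orderOf_eq_one_iff.1 h1

theorem core' {F : Type} [Field F] [IsAlgClosed F] (r : ℕ) (hr : r.Prime) [CharP F r]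
    (a : ℤ) (m0 ℓ : ℕ) (hℓe : ℓ = 2 * m0 + 1) (hℓ' : ℓ.Prime)
    (h7 : 7 < 2 * m0 + 1)
    (W : ℤ) (hW : VW a ℓ = a * W) (hrW : (r : ℤ) ∣ W) (hra : ¬ (r : ℤ) ∣ a)
    (s : F) (hs : s * s = 1) :
    4 * m0 + 1 ≤ r ∧ ∃ g : F, g ^ 2 = (a : F) * g + 1 ∧
      g ^ (2 * m0 + 1) = s ∧ (∀ k : ℕ, 0 < k → k < 2 * (2 * m0 + 1) → (-g ^ 2) ^ k ≠ 1) ∧
      (((a ^ 2 + 4 : ℤ)) : F) ≠ 0 := by
  have : Fact r.Prime := ⟨hr⟩
  have ha0 : (a : F) ≠ 0 := fun h => hra ((CharP.intCast_eq_zero_iff F r a).1 h)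
  have hW0 : (W : F) = 0 := (CharP.intCast_eq_zero_iff F r W).2 hrW
  have hodd : Odd ℓ := hℓe ▸ odd_two_mul_add_one m0
  -- the root
  obtain ⟨g, hg, hgl, hgl'⟩ : ∃ g : F, g ^ 2 = a * g + 1 ∧ g ^ ℓ = s ∧
      (a - g) ^ ℓ = -s := by
    have hroot : ∃ g : F, g ^ 2 = a * g + 1 := by
      have hd : (X ^ 2 - C (a : F) * X - 1 : F[X]).degree ≠ 0 := by
        have : (X ^ 2 - C (a : F) * X - 1 : F[X]) = C 1 * X ^ 2 + C (-(a : F)) * X + C (-1) := by
          simp only [C_neg, C_1]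
          ring
        rw [this, degree_quadratic one_ne_zero]
        norm_num
      obtain ⟨g, hg⟩ := IsAlgClosed.exists_root _ hd
      refine ⟨g, ?_⟩
      simp only [IsRoot.def, eval_sub, eval_pow, eval_X, eval_mul, eval_C, eval_one] at hg
      linear_combination hg
    obtain ⟨g, hg⟩ := hroot
    have h1 : g + (a - g) = a := by ring
    have h2 : g * (a - g) = -1 := by linear_combination -hg
    have h3 := (V_cast h1 h2 ℓ).1
    rw [hW] at h3
    push_cast at h3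
    rw [hW0, mul_zero] at h3
    have h4 : g ^ ℓ * (a - g) ^ ℓ = -1 := by rw [← mul_pow, h2, hodd.neg_one_pow]
    have h5 : (a - g) ^ ℓ = -g ^ ℓ := by linear_combination -h3
    rw [h5] at h4
    have h6 : (g ^ ℓ - s) * (g ^ ℓ + s) = 0 := by
      linear_combination -h4 - hs
    rcases mul_eq_zero.1 h6 with h | h
    · refine ⟨g, hg, sub_eq_zero.1 h, ?_⟩
      rw [h5, sub_eq_zero.1 h]
    · refine ⟨a - g, ?_, ?_, ?_⟩
      · linear_combination hg
      · rw [h5]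
        linear_combination -h
      · rw [sub_sub_cancel]
        linear_combination h
  have hg0 : g ≠ 0 := by
    intro h
    rw [h] at hg
    norm_num at hg
  have hg2l : g ^ (2 * ℓ) = 1 := by
    rw [mul_comm, pow_mul, hgl, sq, hs]
  -- `r ≠ 2`
  have hr2 : r ≠ 2 := by
    intro h
    have h20 : (2 : F) = 0 := by
      have := (CharP.cast_eq_zero_iff F r 2).2 (by rw [h])
      exact_mod_cast this
    have hao : (a : F) = 1 := by
      have h1 : ¬ (2 : ℤ) ∣ a := by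
        rw [h] at hra
        exact_mod_cast hra
      obtain ⟨b, hb⟩ : ∃ b, a = 2 * b + 1 := ⟨a / 2, by omega⟩
      rw [hb]
      push_cast
      rw [h20]
      ring
    rw [hao, one_mul] at hg
    have h3 : g ^ 3 = 1 := by linear_combination g * hg + hg + g * h20
    have h4 := eq_one_of_pow h3 hg2l (by
      refine (Nat.Coprime.mul_right (by norm_num) ?_)
      refine (Nat.coprime_primes Nat.prime_three hℓ').2 (by omega))
    rw [h4] at hg
    exact one_ne_zero (α := F) (by linear_combination -hg)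
  have h2F : (2 : F) ≠ 0 := by
    intro h
    have h1 : ((2 : ℕ) : F) = 0 := by exact_mod_cast h
    have h2 := (CharP.cast_eq_zero_iff F r 2).1 h1
    exact hr2 ((Nat.prime_dvd_prime_iff_eq hr Nat.prime_two).1 h2)
  -- the element `P`
  have hPl : (-g ^ 2) ^ ℓ = -1 := by
    rw [neg_pow, hodd.neg_one_pow, ← pow_mul, hg2l]
    ring
  have hP2 : (-g ^ 2) ^ 2 ≠ 1 := by
    intro h
    have h1 : (g ^ 2) ^ 2 = 1 := by linear_combination h
    have h2 : (g ^ 2) ^ ℓ = 1 := by rw [← pow_mul]; exact hg2l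
    have h3 := eq_one_of_pow h1 h2 (by
      refine (Nat.coprime_primes Nat.prime_two hℓ').2 (by omega))
    rw [h3] at hg
    have h4 : (a : F) * g = 0 := by linear_combination -hg
    rcases mul_eq_zero.1 h4 with h | h
    · exact ha0 h
    · exact hg0 h
  have hord : 2 * ℓ ∣ orderOf (-g ^ 2) := by
    have ho : orderOf (-g ^ 2) ∣ 2 * ℓ := by
      apply orderOf_dvd_of_pow_eq_one
      rw [mul_comm, pow_mul, hPl]
      norm_num
    have h1 : ℓ ∣ orderOf (-g ^ 2) := by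
      by_contra hc
      have h3 := ((Nat.Prime.coprime_iff_not_dvd hℓ').2 hc).symm.dvd_of_dvd_mul_right ho
      exact hP2 (orderOf_dvd_iff_pow_eq_one.1 h3)
    have h2 : 2 ∣ orderOf (-g ^ 2) := by
      by_contra hc
      have h3 := ((Nat.Prime.coprime_iff_not_dvd Nat.prime_two).2 hc).symm.dvd_of_dvd_mul_left ho
      have h4 := orderOf_dvd_iff_pow_eq_one.1 h3
      rw [hPl] at h4
      apply h2F
      linear_combination -h4
    exact ((Nat.coprime_primes Nat.prime_two hℓ').2 (by omega)).mul_dvd_of_dvd_of_dvd h2 h1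
  -- Frobenius
  have hfr : ∀ x y : F, (x + y) ^ r = x ^ r + y ^ r := fun x y => add_pow_char x y r
  have hfs : ∀ x y : F, (x - y) ^ r = x ^ r - y ^ r := fun x y => sub_pow_char x y
  have hfa : (a : F) ^ r = a := by
    have := map_intCast (frobenius F r) a
    rwa [frobenius_def] at this
  have hgr : g ^ r = g ∨ g ^ r = a - g := by
    have h1 : (g ^ r) ^ 2 = a * g ^ r + 1 := by
      rw [← pow_mul, mul_comm r 2, pow_mul, hg, hfr, mul_pow, hfa, one_pow]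
    have h2 : (g ^ r - g) * (g ^ r - (a - g)) = 0 := by linear_combination h1 - hg
    rcases mul_eq_zero.1 h2 with h | h
    · exact Or.inl (sub_eq_zero.1 h)
    · exact Or.inr (sub_eq_zero.1 h)
  have hgrr : g ^ (r * r) = g := by
    rw [pow_mul]
    rcases hgr with h | h
    · rw [h, h]
    · rw [h, hfs, hfa, h, sub_sub_cancel]
  have hr1 : 1 < r := hr.one_lt
  have hrodd : ∃ q, r = 2 * q + 1 := by
    have := hr.eq_two_or_odd'.resolve_left hr2
    exact this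
  have hgr1 : g ^ (r * r - 1) = 1 := by
    have h1 : g ^ (r * r - 1) * g = g := by
      rw [← pow_succ, Nat.sub_add_cancel (by nlinarith)]
      exact hgrr
    exact mul_right_cancel₀ hg0 (by rw [h1, one_mul])
  have hdvd : 2 * ℓ ∣ r * r - 1 := by
    refine hord.trans (orderOf_dvd_of_pow_eq_one ?_)
    obtain ⟨q, hq⟩ := hrodd
    have he : Even (r * r - 1) := by
      refine ⟨2 * q * q + 2 * q, ?_⟩
      rw [hq]
      have : (2 * q + 1) * (2 * q + 1) = 2 * q * q + 2 * q + (2 * q * q + 2 * q) + 1 := by ring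
      omega
    rw [neg_pow, he.neg_one_pow, ← pow_mul, mul_comm 2, pow_mul, hgr1]
    norm_num
  have hsize : 2 * ℓ ≤ r + 1 := by
    obtain ⟨q, hq⟩ := hrodd
    have h1 : r * r - 1 = (2 * q) * (2 * (q + 1)) := by
      rw [hq]
      have : (2 * q + 1) * (2 * q + 1) = (2 * q) * (2 * (q + 1)) + 1 := by ring
      omega
    have h2 : ℓ ∣ (2 * q) * (2 * (q + 1)) := h1 ▸ (Dvd.intro_left 2 rfl : ℓ ∣ 2 * ℓ).trans hdvd
    have hc2 : Nat.Coprime ℓ 2 := (Nat.coprime_primes hℓ' Nat.prime_two).2 (by omega)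
    rcases (Nat.Prime.dvd_mul hℓ').1 h2 with h | h
    · have h3 : ℓ ∣ q := hc2.dvd_of_dvd_mul_left h
      have h4 : ℓ ≤ q := Nat.le_of_dvd (by omega) h3
      omega
    · have h3 : ℓ ∣ q + 1 := hc2.dvd_of_dvd_mul_left h
      have h4 : ℓ ≤ q + 1 := Nat.le_of_dvd (by omega) h3
      omega
  have hbig : 4 * m0 + 1 ≤ r := by omega
  refine ⟨hbig, g, hg, ?_, ?_, ?_⟩
  · rw [← hℓe]; exact hgl
  · intro k hk hkT h
    have h2 := hord.trans (orderOf_dvd_of_pow_eq_one h)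
    exact absurd (Nat.le_of_dvd hk h2) (by omega)
  · intro h
    have h1 : (g - (a - g)) ^ 2 = 0 := by
      have h2 : ((a : F)) ^ 2 + 4 = 0 := by
        rw [← h]
        push_cast
        ring
      linear_combination h2 + 4 * hg
    have h3 : g = a - g := sub_eq_zero.1 (pow_eq_zero_iff (two_ne_zero) |>.1 h1)
    have h4 : g ^ ℓ = -g ^ ℓ := by
      conv_lhs => rw [h3]
      rw [hgl', hgl]
    have h5 : 2 * g ^ ℓ = 0 := by linear_combination h4
    rcases mul_eq_zero.1 h5 with h | h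
    · exact h2F h
    · exact pow_ne_zero _ hg0 h

theorem core (a : ℤ) (ha : 1 ≤ a) (m0 : ℕ) (hℓ : (2 * m0 + 1).Prime)
    (h7 : 7 < 2 * m0 + 1) (haℓ : a < 2 * (m0 : ℤ) + 1) :
    ∃ W : ℕ, 2 ^ m0 ≤ W ∧ V a (-1) (2 * m0 + 1) = a * (W : ℤ) ∧
    ∀ q : ℕ, q.Prime → q ∣ W → 4 * m0 + 1 ≤ q ∧ ∀ σ : ℤ, (σ = 1 ∨ σ = -1) →
    ∃ (F : Type) (_ : Field F) (g : F), CharP F q ∧ g ^ 2 = (a : F) * g + 1 ∧
      g ^ (2 * m0 + 1) = (σ : F) ∧ (∀ k : ℕ, 0 < k → k < 2 * (2 * m0 + 1) → (-g ^ 2) ^ k ≠ 1) ∧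
      (((a ^ 2 + 4 : ℤ)) : F) ≠ 0 := by
  obtain ⟨ℓ, hℓe⟩ : ∃ ℓ, ℓ = 2 * m0 + 1 := ⟨_, rfl⟩
  have hℓ' : ℓ.Prime := hℓe ▸ hℓ
  -- the number `W`
  obtain ⟨W, hW, hWm⟩ : ∃ W : ℤ, VW a ℓ = a * W ∧ a ∣ W - ℓ := by
    obtain ⟨e, he⟩ := (V_mod a m0).2
    refine ⟨a * e + ℓ, ?_, ⟨e, by ring⟩⟩
    rw [hℓe]
    push_cast
    linear_combination he
  have hW2 : (2 : ℤ) ^ m0 ≤ W := by
    have h1 := V_ge ha m0
    rw [← hℓe, hW] at h1
    exact le_of_mul_le_mul_left h1 (by linarith)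
  have hW0 : 0 ≤ W := le_trans (by positivity) hW2
  obtain ⟨w, hw⟩ : ∃ w : ℕ, W = w := ⟨W.toNat, (Int.toNat_of_nonneg hW0).symm⟩
  subst hw
  refine ⟨w, by exact_mod_cast hW2, ?_, ?_⟩
  · rw [(V_eq a (2 * m0 + 1)).1, ← hℓe, hW]
  intro r hr hrw
  have hrW : (r : ℤ) ∣ (w : ℤ) := Int.natCast_dvd_natCast.2 hrw
  have hra : ¬ (r : ℤ) ∣ a := by
    intro h
    have h1 : (r : ℤ) ∣ ℓ := by
      have h2 := dvd_sub hrW (h.trans hWm)
      rwa [sub_sub_cancel] at h2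
    have h2 : r = ℓ := (Nat.prime_dvd_prime_iff_eq hr hℓ').1 (Int.natCast_dvd_natCast.1 h1)
    have h3 := Int.le_of_dvd (by linarith) h
    rw [h2, hℓe] at h3
    push_cast at h3
    linarith
  have : Fact r.Prime := ⟨hr⟩
  refine ⟨(core' (F := AlgebraicClosure (ZMod r)) r hr a m0 ℓ hℓe hℓ' h7
    w hW hrW hra 1 (by norm_num)).1, ?_⟩
  intro σ hσ
  obtain ⟨_, g, hg⟩ := core' (F := AlgebraicClosure (ZMod r)) r hr a m0 ℓ hℓe hℓ' h7
    w hW hrW hra (σ : AlgebraicClosure (ZMod r)) (by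
      rcases hσ with h | h <;> subst h <;> push_cast <;> ring)
  exact ⟨AlgebraicClosure (ZMod r), inferInstance, g, inferInstance, hg⟩

end P_RS1

open P_RS1 in
theorem t_RS1 : S_RS1 := by
  intro a ha
  refine ⟨a.natAbs + 9, fun B hB => ?_⟩
  obtain ⟨ℓ, hp, hlt, hle⟩ := Nat.exists_prime_lt_and_le_two_mul (2 * B) (by omega)
  have hodd : ℓ % 2 = 1 := by
    rcases hp.eq_two_or_odd with h | h
    · omega
    · exact h
  obtain ⟨m0, hm0⟩ : ∃ m0, ℓ = 2 * m0 + 1 := ⟨ℓ / 2, by omega⟩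
  subst hm0
  obtain ⟨W, hW1, hW2, hW3⟩ := core a ha m0 hp (by omega) (by omega)
  refine ⟨m0, W, by omega, by omega, hW1, fun _ => ⟨hW2, hW3⟩, fun h => ?_⟩
  exact absurd h (by norm_num)

end Pool.Agent.H410.FM
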