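import Pool.Agent.H410.FM.Stm

/-!
If `s` is very close to `SH` the determinant is `0` (statement `S_SML`), helper102, adapted from
`FL/P_FIN.lean`.
-/

set_option autoImplicit false

namespace Pool.Agent.H410.FM

open Finset Polynomial
open Pool.Agent.H410.FL (V Sg xd S1 S2 S3 hl SH Wt wr Hpx nw cc ac AM DD Dc Dl jt)
open Pool.Agent.H410.FC (OK U sD al be pp DK Cj Rl Tt xt XX QQ pik VV EE FF ea ww C3 BF rr)

namespace P_SML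

theorem expo (n C C' : ℕ) (hn : 1 ≤ n)
    (hB : 2 * C + 48600 + 8100 * C' + 1 ≤ n)
    (h : 2 * (225 * ((3 * (2 * n + 1) ^ 3 + 2 * (n + 1) ^ 3) +
        (3 * (2 * n + 1) ^ 3 + 2 * (n - 1) ^ 3))) ≤
      2 * (11648 * n ^ 3 + C * n ^ 2) +
        2 * (4050 * ((2 * n + 1) * (n + 1))) +
        2 * (225 * (2 * (C' * (2 * n + 1) ^ 2)))) : False := by
  obtain ⟨m, rfl⟩ : ∃ m, n = m + 1 := ⟨n - 1, by omega⟩
  rw [Nat.add_sub_cancel] at h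
  have h2 : (2 * (m + 1) + 1) * (m + 1 + 1) ≤ 6 * (m + 1) ^ 2 := by nlinarith
  have h3 : (2 * (m + 1) + 1) ^ 2 ≤ 9 * (m + 1) ^ 2 := by nlinarith
  have h4 : 52 * (m + 1) ^ 3 ≤ (3 * (2 * (m + 1) + 1) ^ 3 + 2 * (m + 1 + 1) ^ 3) +
        (3 * (2 * (m + 1) + 1) ^ 3 + 2 * m ^ 3) := by nlinarith
  have h6 : 2 * (4050 * ((2 * (m + 1) + 1) * (m + 1 + 1))) ≤ 48600 * (m + 1) ^ 2 := by
    calc 2 * (4050 * ((2 * (m + 1) + 1) * (m + 1 + 1))) ≤ 2 * (4050 * (6 * (m + 1) ^ 2)) := by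
          gcongr
      _ = _ := by ring
  have h7 : 2 * (225 * (2 * (C' * (2 * (m + 1) + 1) ^ 2))) ≤ 8100 * C' * (m + 1) ^ 2 := by
    calc 2 * (225 * (2 * (C' * (2 * (m + 1) + 1) ^ 2))) ≤
          2 * (225 * (2 * (C' * (9 * (m + 1) ^ 2)))) := by gcongr
      _ = _ := by ring
  have h8 : 104 * (m + 1) ^ 3 ≤ (2 * C + 48600 + 8100 * C') * (m + 1) ^ 2 := by
    have h9 : 2 * (225 * (52 * (m + 1) ^ 3)) ≤
        2 * (11648 * (m + 1) ^ 3 + C * (m + 1) ^ 2) + 48600 * (m + 1) ^ 2 +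
        8100 * C' * (m + 1) ^ 2 := by
      calc 2 * (225 * (52 * (m + 1) ^ 3)) ≤
          2 * (225 * ((3 * (2 * (m + 1) + 1) ^ 3 + 2 * (m + 1 + 1) ^ 3) +
            (3 * (2 * (m + 1) + 1) ^ 3 + 2 * m ^ 3))) := by gcongr
        _ ≤ _ := h
        _ ≤ _ := by gcongr
    nlinarith
  have h9 : (2 * C + 48600 + 8100 * C') * (m + 1) ^ 2 ≤ m * (m + 1) ^ 2 :=
    Nat.mul_le_mul_right _ (Nat.le_of_succ_le_succ hB)
  have h10 : m * (m + 1) ^ 2 < 104 * (m + 1) ^ 3 := by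
    have : 0 < (m + 1) ^ 2 := by positivity
    nlinarith
  omega

/-- the factor with the weight -/
theorem nu_le {ν α : ℝ} (hν : 1 ≤ ν) (hα : 2 ≤ α ^ 2) {n C e : ℕ} (he : e ≤ C * n)
    (h : ν ^ C ≤ 2 ^ n) : ν ^ e ≤ (α ^ 2) ^ (n ^ 2) := by
  calc ν ^ e ≤ ν ^ (C * n) := pow_le_pow_right₀ hν he
    _ = (ν ^ C) ^ n := pow_mul _ _ _
    _ ≤ ((2 : ℝ) ^ n) ^ n := pow_le_pow_left₀ (by positivity) h n
    _ = (2 : ℝ) ^ (n ^ 2) := by rw [← pow_mul, pow_two]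
    _ ≤ (α ^ 2) ^ (n ^ 2) := pow_le_pow_left₀ (by norm_num) hα _

theorem nw_nonneg (w : Fin 3 → ℝ) : 0 ≤ nw w := by
  unfold nw
  positivity

end P_SML

open P_SML in
theorem t_SML (hHPX : Pool.Agent.H410.FL.S_HPX) (hNRM : S_NRM) (hDDB : Pool.Agent.H410.FL.S_DDB)
    (hUPS : S_UPS) : S_SML := by
  intro a ε δ hok hsg
  have hal1 : (1 : ℝ) < al a ε := by linarith [Pool.Agent.H410.FC.al_ge hok]
  have hal0 : (0 : ℝ) < al a ε := Pool.Agent.H410.FC.al_pos hok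
  have hal2 : (2 : ℝ) ≤ al a ε ^ 2 := by nlinarith [Pool.Agent.H410.FC.al_ge hok]
  obtain ⟨C, hC⟩ := hDDB a ε δ hok hsg
  obtain ⟨C', hC'⟩ := hUPS a ε δ hok hsg
  refine ⟨2 * C + 8127 * C' + 80000, ?_⟩
  intro r s n hn hnw hsm
  by_contra hdet
  have hn1 : 1 ≤ n := by omega
  have hnrm := hNRM a ε δ r hok hsg s n hdet
  have hdd := hC n hn1
  have hup1 := hC' r s n (n + 1) (by omega)
  have hup2 := hC' r s (n + 2) (n - 1) (by omega)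
  rw [show n + (n + 1) = 2 * n + 1 by ring] at hup1
  rw [show n + 2 + (n - 1) = 2 * n + 1 by omega] at hup2
  obtain ⟨d1, hd1⟩ : ∃ d, d = |(SM a ε δ r s (-(n : ℤ)) (2 * n + 1)).det| :=
    ⟨_, rfl⟩
  obtain ⟨d2, hd2⟩ : ∃ d, d =
    |(SM a ε δ r s (-((n + 2 : ℕ) : ℤ)) (2 * n + 1)).det| := ⟨_, rfl⟩
  rw [← hd1] at hup1 hnrm
  rw [← hd2] at hup2 hnrm
  have hd1' : 0 ≤ d1 := by rw [hd1]; exact abs_nonneg _
  have hd2' : 0 ≤ d2 := by rw [hd2]; exact abs_nonneg _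
  obtain ⟨D, hD⟩ : ∃ D, D = DD ε δ (pp a ε) (al a ε) (be a ε) n *
    DD ε δ (pp a ε)⁻¹ (be a ε) (al a ε) n := ⟨_, rfl⟩
  rw [← hD] at hdd hnrm
  have hD' : 0 ≤ D := by
    rw [hD]
    unfold DD
    positivity
  rw [Pool.Agent.H410.FC.abs_pp hok] at hnrm hup1 hup2 hsm
  obtain ⟨Δ, hΔ⟩ : ∃ Δ : ℝ, Δ = |(s : ℝ) - SH a ε δ r| := ⟨_, rfl⟩
  have hΔ0 : 0 ≤ Δ := by rw [hΔ]; exact abs_nonneg _
  obtain ⟨ν, hν⟩ : ∃ ν : ℝ, ν = 1 + nw (wr a ε r) := ⟨_, rfl⟩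
  have hν1 : 1 ≤ ν := by rw [hν]; linarith [nw_nonneg (wr a ε r)]
  have hν0 : 0 ≤ ν := by linarith
  rw [← hΔ] at hsm hup1 hup2
  rw [← hν] at hnw hup1 hup2
  clear hd1 hd2 hD hΔ hν
  obtain ⟨α, hα⟩ : ∃ α, α = al a ε := ⟨_, rfl⟩
  rw [← hα] at hal1 hal0 hal2 hnrm hdd hup1 hup2 hsm
  have hP1 : 1 ≤ α ^ 2 := by linarith
  have hP0 : 0 ≤ α ^ 2 := by linarith
  -- the hypothesis of `S_UPS`
  have hN3 : 2 * n + 1 ≤ 3 * n := by omega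
  have hnu1 : ν ^ (2 * n + 1) ≤ (α ^ 2) ^ (n ^ 2) :=
    nu_le hν1 hal2 (C := 2 * C + 8127 * C' + 80000)
      (hN3.trans (Nat.mul_le_mul_right n (by omega))) hnw
  have hhyp : Δ * ν ^ (2 * n + 1) * (α ^ 2) ^ (C' * (2 * n + 1) ^ 3) ≤ 1 := by
    have e0 : (2 * n + 1) ^ 3 ≤ 27 * n ^ 3 := by
      calc (2 * n + 1) ^ 3 ≤ (3 * n) ^ 3 := Nat.pow_le_pow_left hN3 3
        _ = 27 * n ^ 3 := by ring
    have e1 : n ^ 2 + C' * (2 * n + 1) ^ 3 ≤ (2 * C + 8127 * C' + 80000) * n ^ 3 := by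
      have e2 : n ^ 2 ≤ n ^ 3 := Nat.pow_le_pow_right hn1 (by norm_num)
      have e3 : C' * (2 * n + 1) ^ 3 ≤ C' * (27 * n ^ 3) := Nat.mul_le_mul_left _ e0
      have e4 : (27 * C' + 1) * n ^ 3 ≤ (2 * C + 8127 * C' + 80000) * n ^ 3 :=
        Nat.mul_le_mul_right _ (by omega)
      calc n ^ 2 + C' * (2 * n + 1) ^ 3 ≤ n ^ 3 + C' * (27 * n ^ 3) := Nat.add_le_add e2 e3
        _ = (27 * C' + 1) * n ^ 3 := by ring
        _ ≤ _ := e4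
    calc Δ * ν ^ (2 * n + 1) * (α ^ 2) ^ (C' * (2 * n + 1) ^ 3)
        ≤ Δ * (α ^ 2) ^ (n ^ 2) * (α ^ 2) ^ (C' * (2 * n + 1) ^ 3) :=
          mul_le_mul_of_nonneg_right (mul_le_mul_of_nonneg_left hnu1 hΔ0) (pow_nonneg hP0 _)
      _ = Δ * (α ^ 2) ^ (n ^ 2 + C' * (2 * n + 1) ^ 3) := by rw [pow_add, mul_assoc]
      _ ≤ Δ * (α ^ 2) ^ ((2 * C + 8127 * C' + 80000) * n ^ 3) :=
          mul_le_mul_of_nonneg_left (pow_le_pow_right₀ hP1 e1) hΔ0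
      _ ≤ 1 := hsm
  have hup1 := hup1 hhyp
  have hup2 := hup2 hhyp
  obtain ⟨κ, hκ⟩ : ∃ κ : ℝ, κ = ν ^ (36 * (2 * n + 1)) := ⟨_, rfl⟩
  have hκ0 : 0 ≤ κ := by rw [hκ]; exact pow_nonneg hν0 _
  have hκ1 : κ ^ 225 ≤ (α ^ 2) ^ (n ^ 2) := by
    rw [hκ, ← pow_mul]
    refine nu_le hν1 hal2 (C := 2 * C + 8127 * C' + 80000) ?_ hnw
    calc 36 * (2 * n + 1) * 225 = 8100 * (2 * n + 1) := by ring
      _ ≤ 8100 * (3 * n) := Nat.mul_le_mul_left _ hN3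
      _ = 24300 * n := by ring
      _ ≤ _ := Nat.mul_le_mul_right _ (by omega)
  have hprod : (d1 * d2) ^ 18 * (α ^ 2) ^ ((3 * (2 * n + 1) ^ 3 + 2 * (n + 1) ^ 3) +
        (3 * (2 * n + 1) ^ 3 + 2 * (n - 1) ^ 3)) ≤
        κ * (α ^ 2) ^ (2 * (C' * (2 * n + 1) ^ 2)) := by
    calc (d1 * d2) ^ 18 * (α ^ 2) ^ ((3 * (2 * n + 1) ^ 3 + 2 * (n + 1) ^ 3) +
        (3 * (2 * n + 1) ^ 3 + 2 * (n - 1) ^ 3)) =
        (d1 ^ 18 * (α ^ 2) ^ (3 * (2 * n + 1) ^ 3 + 2 * (n + 1) ^ 3)) *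
          (d2 ^ 18 * (α ^ 2) ^ (3 * (2 * n + 1) ^ 3 + 2 * (n - 1) ^ 3)) := by
          rw [pow_add]; ring
      _ ≤ (ν ^ (18 * (2 * n + 1)) * (α ^ 2) ^ (C' * (2 * n + 1) ^ 2)) *
          (ν ^ (18 * (2 * n + 1)) * (α ^ 2) ^ (C' * (2 * n + 1) ^ 2)) := by
          gcongr
      _ = _ := by
          rw [hκ, show 36 * (2 * n + 1) = 18 * (2 * n + 1) + 18 * (2 * n + 1) by ring, pow_add,
            show 2 * (C' * (2 * n + 1) ^ 2) = C' * (2 * n + 1) ^ 2 + C' * (2 * n + 1) ^ 2 by ring,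
            pow_add (α ^ 2)]
          ring
  apply expo n (C + 1) C' hn1 (by omega)
  obtain ⟨E, hE⟩ : ∃ E, E = (3 * (2 * n + 1) ^ 3 + 2 * (n + 1) ^ 3) +
        (3 * (2 * n + 1) ^ 3 + 2 * (n - 1) ^ 3) := ⟨_, rfl⟩
  rw [← hE] at hprod ⊢
  rw [← pow_le_pow_iff_right₀ hal1]
  obtain ⟨X, hX⟩ : ∃ X, X = (D * (α ^ 2) ^ ((2 * n + 1) * (n + 1)) *
    (d1 * d2)) ^ 4050 := ⟨_, rfl⟩
  have hX1 : 1 ≤ X := by
    rw [hX]
    exact one_le_pow₀ hnrm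
  have hprod2 : ((d1 * d2) ^ 18 * (α ^ 2) ^ E) ^ 225 ≤
      (α ^ 2) ^ (n ^ 2) * ((α ^ 2) ^ (2 * (C' * (2 * n + 1) ^ 2))) ^ 225 := by
    have e3 := pow_le_pow_left₀ (by positivity) hprod 225
    rw [mul_pow κ] at e3
    exact e3.trans (mul_le_mul_of_nonneg_right hκ1 (pow_nonneg (pow_nonneg hP0 _) _))
  calc α ^ (2 * (225 * E)) = 1 * ((α ^ 2) ^ E) ^ 225 := by
        rw [one_mul, ← pow_mul, ← pow_mul]
        congr 1; ring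
    _ ≤ X * ((α ^ 2) ^ E) ^ 225 :=
        mul_le_mul_of_nonneg_right hX1 (by positivity)
    _ = (D * (α ^ 2) ^ ((2 * n + 1) * (n + 1)) * (d1 * d2)) ^ 4050 *
        ((α ^ 2) ^ E) ^ 225 := by rw [hX]
    _ = (D ^ 2025) ^ 2 *
        (α ^ 2) ^ (4050 * ((2 * n + 1) * (n + 1))) * ((d1 * d2) ^ 18 * (α ^ 2) ^ E) ^ 225 := by
        rw [mul_pow, mul_pow, mul_pow ((d1 * d2) ^ 18)]
        rw [← pow_mul D, ← pow_mul (α ^ 2), ← pow_mul (d1 * d2) 18]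
        rw [show (2 * n + 1) * (n + 1) * 4050 = 4050 * ((2 * n + 1) * (n + 1)) by ring]
        norm_num
        ring
    _ ≤ (α ^ (11648 * n ^ 3 + C * n ^ 2)) ^ 2 *
        (α ^ 2) ^ (4050 * ((2 * n + 1) * (n + 1))) *
        ((α ^ 2) ^ (n ^ 2) * ((α ^ 2) ^ (2 * (C' * (2 * n + 1) ^ 2))) ^ 225) := by
        have hD2 : 0 ≤ D ^ 2025 := pow_nonneg hD' _
        have e2 := pow_le_pow_left₀ hD2 hdd 2
        have hα0 := hal0.le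
        exact mul_le_mul (mul_le_mul_of_nonneg_right e2 (pow_nonneg (pow_nonneg hα0 _) _)) hprod2
          (pow_nonneg (mul_nonneg (pow_nonneg (mul_nonneg hd1' hd2') _)
            (pow_nonneg (pow_nonneg hα0 _) _)) _)
          (mul_nonneg (pow_nonneg (pow_nonneg hα0 _) _) (pow_nonneg (pow_nonneg hα0 _) _))
    _ = _ := by
        rw [← pow_mul, ← pow_mul, ← pow_mul, ← pow_mul, ← pow_mul, ← pow_add, ← pow_add, ← pow_add]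
        exact congrArg (fun e => α ^ e) (by ring)

end Pool.Agent.H410.FM
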