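import Pool.Agent.H410.FM.Stm

/-!
Every `k`-th term of a Lucas sequence, quantitative form (helper791 for helper410).
-/

set_option autoImplicit false

namespace Pool.Agent.H410.FM

open Finset
open Pool.Agent.H410.FL (V Sg S1 S2 S3)
open Pool.Agent.H410.FC (OK U)

namespace P_SUB

section

variable (a ε : ℤ)

theorem step (n : ℕ) : U a ε (n + 2) = a * U a ε (n + 1) - ε * U a ε n := rfl

/-- d'Ocagne's identity -/
theorem ocagne (m j : ℕ) :
    U a ε (m + j) * U a ε (j + 1) - U a ε (m + j + 1) * U a ε j = ε ^ j * U a ε m := by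
  induction j with
  | zero =>
    have h0 : U a ε 0 = 0 := rfl
    have h1 : U a ε (0 + 1) = 1 := rfl
    rw [h0, h1]
    simp
  | succ j ih =>
    have h1 := step a ε j
    have h2 := step a ε (m + j)
    have h3 : U a ε (m + (j + 1)) = U a ε (m + j + 1) := rfl
    have h4 : U a ε (m + (j + 1) + 1) = U a ε (m + j + 2) := rfl
    have h5 : U a ε (j + 1 + 1) = U a ε (j + 2) := rfl
    rw [h3, h4, h5, h1, h2, pow_succ]
    linear_combination ε * ih

theorem add (n : ℕ) : ∀ m : ℕ,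
    U a ε (m + n + 1) = U a ε (m + 1) * U a ε (n + 1) - ε * (U a ε m * U a ε n) := by
  induction n with
  | zero =>
    intro m
    have h0 : U a ε 0 = 0 := rfl
    have h1 : U a ε (0 + 1) = 1 := rfl
    rw [h0, h1]
    simp
  | succ n ih =>
    intro m
    have h1 := ih (m + 1)
    have h2 := step a ε n
    have h3 := step a ε m
    have h4 : m + (n + 1) + 1 = m + 1 + n + 1 := by ring
    have h5 : U a ε (n + 1 + 1) = U a ε (n + 2) := rfl
    have h6 : U a ε (m + 1 + 1) = U a ε (m + 2) := rfl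
    rw [h4, h1, h5, h6, h2, h3]
    ring

theorem rec (m j : ℕ) :
    U a ε (m + (j + 1) + (j + 1)) =
      (U a ε (j + 2) - ε * U a ε j) * U a ε (m + (j + 1)) - ε ^ (j + 1) * U a ε m := by
  have h1 := add a ε (j + 1) (m + j)
  have h2 : m + (j + 1) + (j + 1) = m + j + (j + 1) + 1 := by ring
  have h3 := ocagne a ε m j
  have h4 : U a ε (m + (j + 1)) = U a ε (m + j + 1) := rfl
  have h5 : U a ε (j + 1 + 1) = U a ε (j + 2) := rfl
  rw [h2, h1, h4, h5, pow_succ]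
  linear_combination (-ε) * h3

theorem eq (j n : ℕ) :
    U a ε ((j + 1) * n) =
      U a ε (j + 1) * U (U a ε (j + 2) - ε * U a ε j) (ε ^ (j + 1)) n := by
  induction n using Nat.strong_induction_on with
  | _ n ih =>
    match n with
    | 0 => simp [U]
    | 1 => simp [U]
    | (n + 2) =>
      have h1 := ih n (by omega)
      have h2 := ih (n + 1) (by omega)
      have h3 := rec a ε ((j + 1) * n) j
      have h4 : (j + 1) * (n + 2) = (j + 1) * n + (j + 1) + (j + 1) := by ring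
      have h5 : (j + 1) * n + (j + 1) = (j + 1) * (n + 1) := by ring
      rw [h4, h3, h5, h2, h1, step (U a ε (j + 2) - ε * U a ε j) (ε ^ (j + 1)) n]
      ring

/-- growth if `ε = 1`, `a ≥ 3` -/
theorem gr1 (ha : 3 ≤ a) (n : ℕ) : 0 ≤ U a 1 n ∧ 2 * U a 1 n + 1 ≤ U a 1 (n + 1) := by
  induction n with
  | zero =>
    have h0 : U a 1 0 = 0 := rfl
    have h1 : U a 1 (0 + 1) = 1 := rfl
    rw [h0, h1]
    norm_num
  | succ n ih =>
    have h1 := step a 1 n
    have h2 : U a 1 (n + 1 + 1) = U a 1 (n + 2) := rfl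
    rw [h2, h1]
    constructor
    · linarith [ih.1, ih.2]
    · nlinarith [ih.1, ih.2]

/-- growth if `ε = -1`, `a ≥ 1` -/
theorem gr2 (ha : 1 ≤ a) (n : ℕ) : 0 ≤ U a (-1) n ∧ 1 ≤ U a (-1) (n + 1) := by
  induction n with
  | zero =>
    have h0 : U a (-1) 0 = 0 := rfl
    have h1 : U a (-1) (0 + 1) = 1 := rfl
    rw [h0, h1]
    norm_num
  | succ n ih =>
    have h1 := step a (-1) n
    have h2 : U a (-1) (n + 1 + 1) = U a (-1) (n + 2) := rfl
    rw [h2, h1]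
    constructor
    · linarith [ih.2]
    · nlinarith [ih.1, ih.2]

theorem pos (h : OK a ε) (n : ℕ) : 1 ≤ U a ε (n + 1) := by
  rcases h with ⟨rfl, ha⟩ | ⟨rfl, ha⟩
  · exact (gr2 a ha n).2
  · linarith [(gr1 a ha n).1, (gr1 a ha n).2]

theorem ok (h : OK a ε) (j : ℕ) : OK (U a ε (j + 2) - ε * U a ε j) (ε ^ (j + 1)) := by
  rcases h with ⟨rfl, ha⟩ | ⟨rfl, ha⟩
  · rcases Nat.even_or_odd (j + 1) with h | h
    · right
      refine ⟨h.neg_one_pow, ?_⟩
      obtain ⟨i, rfl⟩ : ∃ i, j = i + 1 := by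
        rcases h with ⟨r, hr⟩
        exact ⟨j - 1, by omega⟩
      have h1 := (gr2 a ha i).2
      have h2 := (gr2 a ha (i + 1)).2
      have h3 := step a (-1) (i + 1)
      rw [h3]
      have h4 : U a (-1) (i + 1 + 1) = U a (-1) (i + 2) := rfl
      rw [h4] at h2 ⊢
      nlinarith
    · left
      refine ⟨h.neg_one_pow, ?_⟩
      have h1 := (gr2 a ha j).1
      have h2 := (gr2 a ha (j + 1)).2
      have h4 : U a (-1) (j + 1 + 1) = U a (-1) (j + 2) := rfl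
      rw [h4] at h2
      linarith
  · right
    refine ⟨one_pow _, ?_⟩
    have h1 := gr1 a ha j
    have h2 := gr1 a ha (j + 1)
    have h4 : U a 1 (j + 1 + 1) = U a 1 (j + 2) := rfl
    rw [h4] at h2
    linarith [h1.1, h1.2, h2.2]

theorem vstep (n : ℕ) : V a ε (n + 2) = a * V a ε (n + 1) - ε * V a ε n := rfl

theorem V_eq (n : ℕ) : V a ε n = 2 * U a ε (n + 1) - a * U a ε n := by
  induction n using Nat.strong_induction_on with
  | _ n ih =>
    match n with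
    | 0 => simp [U, V]
    | 1 => simp [U, V]; ring
    | (n + 2) =>
      have h1 := ih n (by omega)
      have h2 := ih (n + 1) (by omega)
      have h3 := step a ε (n + 1)
      have h4 := step a ε n
      have h5 : U a ε (n + 1 + 1) = U a ε (n + 2) := rfl
      have h6 : U a ε (n + 2 + 1) = U a ε (n + 1 + 2) := rfl
      rw [vstep, h1, h2, h6, h3, h5, h4]
      ring

theorem Vk (j : ℕ) : V a ε (j + 1) = U a ε (j + 2) - ε * U a ε j := by
  rw [V_eq]
  have h4 := step a ε j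
  have h5 : U a ε (j + 1 + 1) = U a ε (j + 2) := rfl
  rw [h5, h4]
  ring

theorem vrec (m j : ℕ) :
    V a ε (m + (j + 1) + (j + 1)) =
      (U a ε (j + 2) - ε * U a ε j) * V a ε (m + (j + 1)) - ε ^ (j + 1) * V a ε m := by
  rw [V_eq, V_eq, V_eq]
  have h1 := rec a ε m j
  have h2 := rec a ε (m + 1) j
  have h3 : m + (j + 1) + (j + 1) + 1 = m + 1 + (j + 1) + (j + 1) := by ring
  have h4 : m + (j + 1) + 1 = m + 1 + (j + 1) := by ring
  rw [h3, h4, h1, h2]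
  ring

theorem veq (j n : ℕ) :
    V a ε ((j + 1) * n) = V (U a ε (j + 2) - ε * U a ε j) (ε ^ (j + 1)) n := by
  induction n using Nat.strong_induction_on with
  | _ n ih =>
    match n with
    | 0 => simp [V]
    | 1 =>
      rw [mul_one, Vk]
      simp [V]
    | (n + 2) =>
      have h1 := ih n (by omega)
      have h2 := ih (n + 1) (by omega)
      have h3 := vrec a ε ((j + 1) * n) j
      have h4 : (j + 1) * (n + 2) = (j + 1) * n + (j + 1) + (j + 1) := by ring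
      have h5 : (j + 1) * n + (j + 1) = (j + 1) * (n + 1) := by ring
      rw [h4, h3, h5, h2, h1, vstep (U a ε (j + 2) - ε * U a ε j) (ε ^ (j + 1)) n]


end

/-- The scaling argument. -/
theorem core (u : ℤ) (hu : 1 ≤ u) (T1 T2 T3 C₁ : ℝ) (hC₁ : 0 < C₁)
    (h : ∀ (H : ℝ) (b : ℤ) (r : Fin 3 → ℤ), 2 ≤ H → |(b : ℝ)| ≤ H → (∀ i, |(r i : ℝ)| ≤ H) →
      (b ≠ 0 ∨ r ≠ 0) →
      Real.exp (-(C₁ * Real.log H ^ 3)) ≤ |b + r 0 * T1 + r 1 * T2 + r 2 * T3|)
    (X1 X2 X3 : ℝ) (e1 : (u : ℝ) * X1 = T1) (e2 : (u : ℝ) ^ 2 * X2 = T2)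
    (e3 : (u : ℝ) ^ 3 * X3 = T3) :
    ∃ C : ℝ, 0 < C ∧ ∀ (H : ℝ) (b : ℤ) (r : Fin 3 → ℤ), 2 ≤ H → |(b : ℝ)| ≤ H →
      (∀ i, |(r i : ℝ)| ≤ H) → (b ≠ 0 ∨ r ≠ 0) →
      Real.exp (-(C * Real.log H ^ 3)) ≤ |b + r 0 * X1 + r 1 * X2 + r 2 * X3| := by
  have hl2 : 0 < Real.log 2 := Real.log_pos (by norm_num)
  have hu1 : (1 : ℝ) ≤ (u : ℝ) := by exact_mod_cast hu
  have hu0 : (0 : ℝ) < (u : ℝ) := by linarith
  have hu3 : (1 : ℝ) ≤ (u : ℝ) ^ 3 := one_le_pow₀ hu1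
  have hu3' : (0 : ℝ) < (u : ℝ) ^ 3 := by positivity
  have hu0' : u ≠ 0 := by omega
  obtain ⟨M, hMdef⟩ : ∃ M : ℝ, M = Real.log ((u : ℝ) ^ 3) := ⟨_, rfl⟩
  have hM : 0 ≤ M := by rw [hMdef]; exact Real.log_nonneg hu3
  refine ⟨C₁ * (1 + M / Real.log 2) ^ 3 + M / Real.log 2 ^ 3, by positivity, ?_⟩
  intro H b r hH hb hr hne
  have hH0 : (0 : ℝ) < H := by linarith
  obtain ⟨L, hLdef⟩ : ∃ L : ℝ, L = Real.log H := ⟨_, rfl⟩
  have hL : Real.log 2 ≤ L := by
    rw [hLdef]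
    exact Real.log_le_log (by norm_num) hH
  have hL0 : 0 ≤ L := hl2.le.trans hL
  have hLM : Real.log (H * (u : ℝ) ^ 3) = L + M := by
    rw [Real.log_mul hH0.ne' hu3'.ne', ← hLdef, ← hMdef]
  have hHu : H ≤ H * (u : ℝ) ^ 3 := le_mul_of_one_le_right hH0.le hu3
  have hu2 : (u : ℝ) ^ 2 ≤ (u : ℝ) ^ 3 := pow_le_pow_right₀ hu1 (by norm_num)
  have hu13 : (u : ℝ) ≤ (u : ℝ) ^ 3 := le_self_pow₀ hu1 (by norm_num)
  have h1 := h (H * (u : ℝ) ^ 3) (b * u ^ 3) ![r 0 * u ^ 2, r 1 * u, r 2] (hH.trans hHu) (by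
      push_cast
      rw [abs_mul, abs_of_pos hu3']
      exact mul_le_mul_of_nonneg_right hb hu3'.le) (by
      intro i
      fin_cases i
      · change |((r 0 * u ^ 2 : ℤ) : ℝ)| ≤ _
        push_cast
        rw [abs_mul, abs_of_pos (pow_pos hu0 2)]
        exact mul_le_mul (hr 0) hu2 (by positivity) hH0.le
      · change |((r 1 * u : ℤ) : ℝ)| ≤ _
        push_cast
        rw [abs_mul, abs_of_pos hu0]
        exact mul_le_mul (hr 1) hu13 (by positivity) hH0.le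
      · change |((r 2 : ℤ) : ℝ)| ≤ _
        exact (hr 2).trans hHu) (by
      rcases hne with hb0 | hr0
      · exact Or.inl (mul_ne_zero hb0 (pow_ne_zero 3 hu0'))
      · refine Or.inr fun h0 => hr0 ?_
        have f0 : r 0 * u ^ 2 = 0 := congrFun h0 0
        have f1 : r 1 * u = 0 := congrFun h0 1
        have f2 : r 2 = 0 := congrFun h0 2
        have g0 : r 0 = 0 := (mul_eq_zero.1 f0).resolve_right (pow_ne_zero 2 hu0')
        have g1 : r 1 = 0 := (mul_eq_zero.1 f1).resolve_right hu0'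
        funext i
        fin_cases i
        · exact g0
        · exact g1
        · exact f2)
  have h2 : ((b * u ^ 3 : ℤ) : ℝ) + ((![r 0 * u ^ 2, r 1 * u, r 2] 0 : ℤ) : ℝ) * T1 +
      ((![r 0 * u ^ 2, r 1 * u, r 2] 1 : ℤ) : ℝ) * T2 +
      ((![r 0 * u ^ 2, r 1 * u, r 2] 2 : ℤ) : ℝ) * T3 =
      (u : ℝ) ^ 3 * (b + r 0 * X1 + r 1 * X2 + r 2 * X3) := by
    change ((b * u ^ 3 : ℤ) : ℝ) + ((r 0 * u ^ 2 : ℤ) : ℝ) * T1 + ((r 1 * u : ℤ) : ℝ) * T2 +
      ((r 2 : ℤ) : ℝ) * T3 = _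
    push_cast
    rw [← e1, ← e2, ← e3]
    ring
  rw [h2, abs_mul, abs_of_pos hu3', hLM] at h1
  have h3 : (L + M) ^ 3 ≤ (1 + M / Real.log 2) ^ 3 * L ^ 3 := by
    rw [← mul_pow]
    refine pow_le_pow_left₀ (by positivity) ?_ 3
    have h4 : M ≤ M / Real.log 2 * L := by
      rw [div_mul_eq_mul_div, le_div_iff₀ hl2]
      exact mul_le_mul_of_nonneg_left hL hM
    linarith
  have h5 : M ≤ M / Real.log 2 ^ 3 * L ^ 3 := by
    rw [div_mul_eq_mul_div, le_div_iff₀ (by positivity)]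
    exact mul_le_mul_of_nonneg_left (pow_le_pow_left₀ hl2.le hL 3) hM
  have h6 : -((C₁ * (1 + M / Real.log 2) ^ 3 + M / Real.log 2 ^ 3) * L ^ 3) ≤
      -(C₁ * (L + M) ^ 3) + -M := by
    have h7 := mul_le_mul_of_nonneg_left h3 hC₁.le
    have h8 : (C₁ * (1 + M / Real.log 2) ^ 3 + M / Real.log 2 ^ 3) * L ^ 3 =
        C₁ * ((1 + M / Real.log 2) ^ 3 * L ^ 3) + M / Real.log 2 ^ 3 * L ^ 3 := by ring
    rw [h8]
    linarith
  rw [← hLdef]
  refine (Real.exp_le_exp.2 h6).trans ?_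
  rw [Real.exp_add, Real.exp_neg M, hMdef, Real.exp_log hu3', ← hMdef, ← div_eq_mul_inv,
    div_le_iff₀ hu3']
  refine h1.trans (le_of_eq (mul_comm _ _))

end P_SUB

/-- **SUB.** -/
theorem t_SUB (hME : S_ME) : S_SUB := by
  intro a ε h k hk δ hδ
  obtain ⟨j, rfl⟩ : ∃ j, k = j + 1 := ⟨k - 1, by omega⟩
  obtain ⟨C₁, hC₁, h1⟩ := hME (U a ε (j + 2) - ε * U a ε j) (ε ^ (j + 1)) δ (P_SUB.ok a ε h j) hδ
  have hp := P_SUB.pos a ε h j
  have hf : U a ε (j + 1) ≠ 0 := by omega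
  have hfr : (U a ε (j + 1) : ℝ) ≠ 0 := by exact_mod_cast hf
  have hU : ∀ n : ℕ, (U a ε ((j + 1) * (n + 1)) : ℝ) = (U a ε (j + 1) : ℝ) *
      (U (U a ε (j + 2) - ε * U a ε j) (ε ^ (j + 1)) (n + 1) : ℝ) := by
    intro n
    exact_mod_cast P_SUB.eq a ε j (n + 1)
  have hV : ∀ n : ℕ, (V a ε ((j + 1) * (n + 1)) : ℝ) =
      (V (U a ε (j + 2) - ε * U a ε j) (ε ^ (j + 1)) (n + 1) : ℝ) := by
    intro n
    exact_mod_cast P_SUB.veq a ε j (n + 1)
  refine P_SUB.core (U a ε (j + 1)) hp _ _ _ C₁ hC₁ h1 _ _ _ ?_ ?_ ?_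
  · unfold S1
    rw [← tsum_mul_left]
    refine tsum_congr fun n => ?_
    rw [hU n]
    field_simp
  · unfold S2
    rw [← tsum_mul_left]
    refine tsum_congr fun n => ?_
    rw [hU n, hV n]
    field_simp
  · unfold S3
    rw [← tsum_mul_left]
    refine tsum_congr fun n => ?_
    rw [hU n]
    push_cast
    field_simp

end Pool.Agent.H410.FM
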