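import Pool.Agent.H410.FM.Stm

set_option autoImplicit false

/-!
UPM: upper bound for the determinant, uniform in the weight (helper389, after `FL/P_UP.lean` of
helper878).
-/

namespace Pool.Agent.H410.FM

open Finset Polynomial
open Pool.Agent.H475.QZ (nu)
open Pool.Agent.H410.FL (V Sg xd S1 S2 S3 hl SH Wt wr Hpx nw cc ac AM DD Dc Dl jt LW)
open Pool.Agent.H410.FC (OK U sD al be pp DK Cj Rl Tt xt XX QQ pik VV EE FF ea ww C3 BF rr)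

namespace P_UPM

theorem LW_eq (w : Fin 3 → ℝ) (p x : ℝ) (n0 N : ℕ) (F G : Polynomial ℝ) :
    ∑ k : Fin N, ∑ l : Fin N, F.eval (p ^ ((k : ℕ) + 1)) / pik p N k *
      AM w p x (-(n0 : ℤ)) N k l * G.coeff l = LW w p x N n0 F G := by
  unfold LW
  rw [← Fin.sum_univ_eq_sum_range (fun k => ∑ j ∈ range N,
    F.eval (p ^ (k + 1)) / pik p N k * ac w p x (k + 1) (-(n0 : ℤ) + (j : ℤ)) * G.coeff j) N]
  refine Finset.sum_congr rfl fun k _ => ?_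
  rw [← Fin.sum_univ_eq_sum_range (fun j =>
    F.eval (p ^ ((k : ℕ) + 1)) / pik p N k * ac w p x ((k : ℕ) + 1) (-(n0 : ℤ) + (j : ℤ)) *
      G.coeff j) N]
  rfl

theorem ww_pow (p : ℝ) (hp : 2 ≤ |p|) (N : ℕ) :
    ww p N ^ (18 * N) * |p| ^ (9 * N ^ 2 * (N + 1)) = 1 := by
  have hP0 : (0 : ℝ) < |p| := by linarith
  unfold ww
  rw [inv_pow, ← pow_mul]
  have h1 : N * (N + 1) / 2 * (18 * N) = 9 * N ^ 2 * (N + 1) := by
    obtain ⟨m, hm⟩ := (Nat.even_mul_succ_self N).two_dvd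
    have hm' : N * (N + 1) = 2 * m := hm
    rw [hm', Nat.mul_div_cancel_left _ (by norm_num)]
    calc m * (18 * N) = 9 * N * (2 * m) := by ring
      _ = 9 * N * (N * (N + 1)) := by rw [hm']
      _ = 9 * N ^ 2 * (N + 1) := by ring
  rw [h1]
  exact inv_mul_cancel₀ (pow_pos hP0 _).ne'

theorem fac_le (P : ℝ) (hP : 2 ≤ P) (N : ℕ) : (N.factorial : ℝ) ≤ P ^ (N ^ 2) := by
  have h1 : (N.factorial : ℝ) ≤ (N : ℝ) ^ N := by
    exact_mod_cast Nat.factorial_le_pow N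
  have h2 : (N : ℝ) ≤ P ^ N := by
    have h3 : (N : ℝ) ≤ 2 ^ N := by exact_mod_cast (Nat.lt_two_pow_self).le
    exact h3.trans (pow_le_pow_left₀ (by norm_num) hP _)
  calc (N.factorial : ℝ) ≤ (N : ℝ) ^ N := h1
    _ ≤ (P ^ N) ^ N := pow_le_pow_left₀ (Nat.cast_nonneg _) h2 _
    _ = P ^ (N ^ 2) := by rw [← pow_mul]; congr 1; ring

theorem fin_ineq (P D V f B0 w R Q : ℝ) (N h C' : ℕ) (hP : 2 ≤ P) (hN : 1 ≤ N) (hh : h ≤ N)
    (hD0 : 0 ≤ D) (hV0 : 0 ≤ V) (hf0 : 0 ≤ f) (hB00 : 0 ≤ B0) (hw0 : 0 ≤ w) (hR0 : 0 ≤ R)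
    (hQ0 : 0 ≤ Q)
    (hD : D ≤ V * (f * (B0 * w) ^ N * R)) (hV : V ^ 6 ≤ P ^ (2 * N ^ 3 + 3 * N ^ 2))
    (hf : f ≤ P ^ (N ^ 2)) (hB : B0 ≤ Q * P ^ (C' + 2 * N + 2))
    (hw : w ^ (18 * N) * P ^ (9 * N ^ 2 * (N + 1)) = 1)
    (hR : R ^ 9 * P ^ (h ^ 3) ≤ P ^ (7 * h ^ 2)) :
    D ^ 18 * P ^ (3 * N ^ 3 + 2 * h ^ 3) ≤ Q ^ (18 * N) * P ^ ((104 + 18 * C') * N ^ 2) := by
  have hP0 : 0 < P := by linarith
  have hP1 : 1 ≤ P := by linarith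
  have hX : 0 < P ^ (9 * N ^ 2 * (N + 1)) := pow_pos hP0 _
  refine le_of_mul_le_mul_right ?_ hX
  have hD' : D ^ 18 ≤ (V * (f * (B0 * w) ^ N * R)) ^ 18 := pow_le_pow_left₀ hD0 hD 18
  calc D ^ 18 * P ^ (3 * N ^ 3 + 2 * h ^ 3) * P ^ (9 * N ^ 2 * (N + 1))
      ≤ (V * (f * (B0 * w) ^ N * R)) ^ 18 * P ^ (3 * N ^ 3 + 2 * h ^ 3) *
          P ^ (9 * N ^ 2 * (N + 1)) :=
        mul_le_mul_of_nonneg_right (mul_le_mul_of_nonneg_right hD' (by positivity)) hX.le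
    _ = (V ^ 6) ^ 3 * f ^ 18 * B0 ^ (18 * N) * (w ^ (18 * N) * P ^ (9 * N ^ 2 * (N + 1))) *
          (R ^ 9 * P ^ (h ^ 3)) ^ 2 * P ^ (3 * N ^ 3) := by
        have e1 : w ^ (18 * N) = (w ^ N) ^ 18 := by rw [← pow_mul]; congr 1; ring
        have e2 : B0 ^ (18 * N) = (B0 ^ N) ^ 18 := by rw [← pow_mul]; congr 1; ring
        have e3 : P ^ (3 * N ^ 3 + 2 * h ^ 3) = P ^ (3 * N ^ 3) * (P ^ (h ^ 3)) ^ 2 := by
          rw [← pow_mul, ← pow_add]; congr 1; ring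
        rw [e1, e2, e3, mul_pow B0 w]
        ring
    _ ≤ (P ^ (2 * N ^ 3 + 3 * N ^ 2)) ^ 3 * (P ^ (N ^ 2)) ^ 18 *
          (Q * P ^ (C' + 2 * N + 2)) ^ (18 * N) * 1 * (P ^ (7 * h ^ 2)) ^ 2 * P ^ (3 * N ^ 3) := by
        rw [hw]
        gcongr
    _ = Q ^ (18 * N) * P ^ (3 * (2 * N ^ 3 + 3 * N ^ 2) + 18 * N ^ 2 +
          (C' + 2 * N + 2) * (18 * N) + 14 * h ^ 2 + 3 * N ^ 3) := by
        rw [mul_pow Q, pow_add P _ (3 * N ^ 3), pow_add P _ (14 * h ^ 2),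
          pow_add P _ ((C' + 2 * N + 2) * (18 * N)), pow_add P _ (18 * N ^ 2),
          ← pow_mul P (C' + 2 * N + 2) (18 * N), ← pow_mul P (N ^ 2) 18,
          ← pow_mul P (7 * h ^ 2) 2, ← pow_mul P (2 * N ^ 3 + 3 * N ^ 2) 3,
          show (2 * N ^ 3 + 3 * N ^ 2) * 3 = 3 * (2 * N ^ 3 + 3 * N ^ 2) by ring,
          show N ^ 2 * 18 = 18 * N ^ 2 by ring, show 7 * h ^ 2 * 2 = 14 * h ^ 2 by ring]
        ring
    _ ≤ Q ^ (18 * N) * P ^ ((104 + 18 * C') * N ^ 2 + 9 * N ^ 2 * (N + 1)) := by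
        refine mul_le_mul_of_nonneg_left (pow_le_pow_right₀ hP1 ?_) (pow_nonneg hQ0 _)
        have h1 : h ^ 2 ≤ N ^ 2 := Nat.pow_le_pow_left hh 2
        have h2 : N ≤ N ^ 2 := by nlinarith
        have h3 : C' * N ≤ C' * N ^ 2 := Nat.mul_le_mul_left _ h2
        nlinarith
    _ = Q ^ (18 * N) * P ^ ((104 + 18 * C') * N ^ 2) * P ^ (9 * N ^ 2 * (N + 1)) := by
        rw [pow_add]; ring

end P_UPM

open P_UPM in
theorem t_UPM (hDET : Pool.Agent.H410.FC.S_DET) (hENB : Pool.Agent.H410.FL.S_ENB)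
    (hDEG : Pool.Agent.H410.FC.S_DEG) (hVB : Pool.Agent.H410.FC.S_VB)
    (hDU : Pool.Agent.H475.QZ.S_DU) : S_UPM := by
  intro p x hpx
  have hp : 2 ≤ |p| := hpx.1
  obtain ⟨C', hC'⟩ := pow_unbounded_of_one_lt C3 (by norm_num : (1 : ℝ) < 2)
  refine ⟨104 + 18 * C', fun w n0 h hN => ?_⟩
  have hC3p : (0 : ℝ) ≤ C3 := by unfold C3; positivity
  have hnw : 0 ≤ nw w := by unfold nw; positivity
  obtain ⟨hV1, hV2⟩ := hVB p hp
  have hC30 : (0 : ℝ) ≤ C3 * nw w := by unfold C3 nw; positivity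
  have hww : 0 ≤ ww p (n0 + h) := by unfold ww; positivity
  have hea : ∀ a, 0 ≤ ea p a := fun a => by unfold ea; positivity
  have hrr : ∀ i, 0 ≤ rr p n0 i := by
    intro i
    unfold rr
    split_ifs
    · exact zero_le_one
    · exact pow_nonneg (hea _) _
  have hdet := hDET p hp (n0 + h) (AM w p x (-(n0 : ℤ)) (n0 + h)) (fun i => BF p n0 i)
    (fun i => BF p n0 i) (fun i => (hDEG p).2 n0 i) (fun i => (hDEG p).2 n0 i)
  obtain ⟨T, hT⟩ : ∃ T : Matrix (Fin (n0 + h)) (Fin (n0 + h)) ℝ,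
      T = Matrix.of fun i j : Fin (n0 + h) => ∑ k : Fin (n0 + h), ∑ l : Fin (n0 + h),
      (BF p n0 i).eval (p ^ ((k : ℕ) + 1)) / pik p (n0 + h) k *
        AM w p x (-(n0 : ℤ)) (n0 + h) k l * (BF p n0 j).coeff l := ⟨_, rfl⟩
  rw [← hT] at hdet
  have hTb : ∀ i j, |T i j| ≤ (C3 * nw w * (((n0 + h : ℕ) : ℝ) + 2) ^ 2 * ww p (n0 + h)) *
      rr p n0 i * rr p n0 j := by
    intro i j
    have e : T i j = LW w p x (n0 + h) n0 (BF p n0 i) (BF p n0 j) := by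
      rw [hT]
      exact LW_eq w p x n0 (n0 + h) _ _
    rw [e]
    exact hENB w p x hpx (n0 + h) n0 i j (Nat.le_add_right _ _) i.2 j.2
  have hdu := hDU (n0 + h) T (C3 * nw w * (((n0 + h : ℕ) : ℝ) + 2) ^ 2 * ww p (n0 + h))
    (fun i => rr p n0 i) (by positivity) (fun i => hrr i) hTb
  refine fin_ineq |p| _ |VV p (n0 + h)| ((n0 + h).factorial : ℝ)
    (C3 * nw w * (((n0 + h : ℕ) : ℝ) + 2) ^ 2) (ww p (n0 + h))
    (∏ i : Fin (n0 + h), rr p n0 (i : ℕ) ^ 2) (1 + nw w) (n0 + h) h C' hp hN (Nat.le_add_left _ _)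
    (abs_nonneg _) (abs_nonneg _) (Nat.cast_nonneg _) (by positivity) hww
    (Finset.prod_nonneg fun i _ => sq_nonneg _) (by positivity) ?_ (hV1 _) (fac_le _ hp _) ?_ (ww_pow p hp _)
    (hV2 n0 h)
  · rw [hdet]
    exact mul_le_mul_of_nonneg_left hdu (abs_nonneg _)
  · have h1 : ((n0 + h : ℕ) : ℝ) + 2 ≤ 2 ^ (n0 + h + 1) := by
      have h2 : n0 + h + 1 + 1 ≤ 2 ^ (n0 + h + 1) := Nat.lt_two_pow_self
      have h3 : ((n0 + h + 1 + 1 : ℕ) : ℝ) ≤ ((2 ^ (n0 + h + 1) : ℕ) : ℝ) := by exact_mod_cast h2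
      push_cast at h3 ⊢
      linarith
    calc C3 * nw w * (((n0 + h : ℕ) : ℝ) + 2) ^ 2
        = nw w * (C3 * (((n0 + h : ℕ) : ℝ) + 2) ^ 2) := by ring
      _ ≤ (1 + nw w) * (2 ^ C' * (2 ^ (n0 + h + 1)) ^ 2) :=
          mul_le_mul (by linarith) (mul_le_mul hC'.le (pow_le_pow_left₀ (by positivity) h1 2)
            (by positivity) (by positivity)) (by positivity) (by positivity)
      _ = (1 + nw w) * 2 ^ (C' + 2 * (n0 + h) + 2) := by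
          rw [← pow_mul, ← pow_add]
          congr 2
          ring
      _ ≤ (1 + nw w) * |p| ^ (C' + 2 * (n0 + h) + 2) :=
          mul_le_mul_of_nonneg_left (pow_le_pow_left₀ (by norm_num) hp _) (by positivity)

end Pool.Agent.H410.FM
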