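import Pool.Agent.H410.FM.Stm

/-!
Upper bound for the determinant of `SM` (statement `S_UPS`).
-/

namespace Pool.Agent.H410.FM

open Finset Polynomial
open Pool.Agent.H410.FL (V Sg xd S1 S2 S3 hl SH Wt wr Hpx nw cc ac AM DD Dc Dl jt)
open Pool.Agent.H410.FC (OK U sD al be pp DK Cj Rl Tt xt XX QQ pik VV EE FF ea ww C3 BF rr)

namespace P_UPS

/-- the computation with real numbers -/
lemma core (D D' Δ W P : ℝ) (N h C₁ C₂ : ℕ) (hN : 1 ≤ N) (hh : h ≤ N) (hW : 1 ≤ W)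
    (hP : 2 ≤ P) (hΔ : 0 ≤ Δ)
    (hyp : Δ * W ^ N * P ^ ((C₁ + C₂ + 19) * N ^ 3) ≤ 1)
    (hUP : |D| ^ 18 * P ^ (3 * N ^ 3 + 2 * h ^ 3) ≤ W ^ (18 * N) * P ^ (C₁ * N ^ 2))
    (hPT : Δ ≤ 1 → |D' - D| ≤ Δ * W ^ N * P ^ (C₂ * N ^ 3)) :
    |D'| ^ 18 * P ^ (3 * N ^ 3 + 2 * h ^ 3) ≤
      W ^ (18 * N) * P ^ ((C₁ + C₂ + 19) * N ^ 2) := by
  have hP1 : (1 : ℝ) ≤ P := by linarith
  have hP0 : (0 : ℝ) ≤ P := by linarith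
  have hW0 : (0 : ℝ) ≤ W := by linarith
  have hΔ1 : Δ ≤ 1 := by
    have h1 : (1 : ℝ) ≤ W ^ N * P ^ ((C₁ + C₂ + 19) * N ^ 3) :=
      one_le_mul_of_one_le_of_one_le (one_le_pow₀ hW) (one_le_pow₀ hP1)
    calc Δ = Δ * 1 := by ring
      _ ≤ Δ * (W ^ N * P ^ ((C₁ + C₂ + 19) * N ^ 3)) := mul_le_mul_of_nonneg_left h1 hΔ
      _ = Δ * W ^ N * P ^ ((C₁ + C₂ + 19) * N ^ 3) := by ring
      _ ≤ 1 := hyp
  obtain ⟨τ, hτdef⟩ : ∃ τ : ℝ, τ = Δ * W ^ N * P ^ (C₂ * N ^ 3) := ⟨_, rfl⟩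
  have hτ0 : 0 ≤ τ := by
    rw [hτdef]
    exact mul_nonneg (mul_nonneg hΔ (pow_nonneg hW0 _)) (pow_nonneg hP0 _)
  have hτ1 : τ * P ^ (N ^ 3) ≤ 1 := by
    have h1 : P ^ (N ^ 3) ≤ P ^ ((C₁ + 19) * N ^ 3) :=
      pow_le_pow_right₀ hP1 (Nat.le_mul_of_pos_left _ (by omega))
    calc τ * P ^ (N ^ 3) ≤ τ * P ^ ((C₁ + 19) * N ^ 3) := mul_le_mul_of_nonneg_left h1 hτ0
      _ = Δ * W ^ N * (P ^ (C₂ * N ^ 3) * P ^ ((C₁ + 19) * N ^ 3)) := by rw [hτdef]; ring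
      _ = Δ * W ^ N * P ^ ((C₁ + C₂ + 19) * N ^ 3) := by
        rw [← pow_add]
        congr 2
        ring
      _ ≤ 1 := hyp
  have hexp : 3 * N ^ 3 + 2 * h ^ 3 ≤ N ^ 3 * 18 := by
    have h1 : h ^ 3 ≤ N ^ 3 := Nat.pow_le_pow_left hh 3
    omega
  have hτ18 : τ ^ 18 * P ^ (3 * N ^ 3 + 2 * h ^ 3) ≤ 1 := by
    calc τ ^ 18 * P ^ (3 * N ^ 3 + 2 * h ^ 3) ≤ τ ^ 18 * P ^ (N ^ 3 * 18) :=
          mul_le_mul_of_nonneg_left (pow_le_pow_right₀ hP1 hexp) (pow_nonneg hτ0 _)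
      _ = (τ * P ^ (N ^ 3)) ^ 18 := by rw [mul_pow, pow_mul]
      _ ≤ 1 := pow_le_one₀ (mul_nonneg hτ0 (pow_nonneg hP0 _)) hτ1
  have habs : |D'| ≤ |D| + τ := by
    have h1 := hPT hΔ1
    rw [← hτdef] at h1
    calc |D'| = |D + (D' - D)| := by congr 1; ring
      _ ≤ |D| + |D' - D| := abs_add_le _ _
      _ ≤ |D| + τ := by linarith
  have h18 : |D'| ^ 18 ≤ 2 ^ 17 * (|D| ^ 18 + τ ^ 18) := by
    calc |D'| ^ 18 ≤ (|D| + τ) ^ 18 := pow_le_pow_left₀ (abs_nonneg _) habs 18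
      _ ≤ 2 ^ (18 - 1) * (|D| ^ 18 + τ ^ 18) := add_pow_le (abs_nonneg _) hτ0 18
      _ = 2 ^ 17 * (|D| ^ 18 + τ ^ 18) := by norm_num
  have hE0 : 0 ≤ P ^ (3 * N ^ 3 + 2 * h ^ 3) := pow_nonneg hP0 _
  have hWP : 1 ≤ W ^ (18 * N) * P ^ (C₁ * N ^ 2) :=
    one_le_mul_of_one_le_of_one_le (one_le_pow₀ hW) (one_le_pow₀ hP1)
  have h2P : (2 : ℝ) ^ 18 ≤ P ^ ((C₂ + 19) * N ^ 2) := by
    have h1 : 18 ≤ (C₂ + 19) * N ^ 2 := by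
      have h2 : 1 ≤ N ^ 2 := Nat.one_le_pow _ _ hN
      have h3 : (C₂ + 19) * 1 ≤ (C₂ + 19) * N ^ 2 := Nat.mul_le_mul_left _ h2
      omega
    calc (2 : ℝ) ^ 18 ≤ P ^ 18 := pow_le_pow_left₀ (by norm_num) hP 18
      _ ≤ P ^ ((C₂ + 19) * N ^ 2) := pow_le_pow_right₀ hP1 h1
  calc |D'| ^ 18 * P ^ (3 * N ^ 3 + 2 * h ^ 3)
      ≤ (2 ^ 17 * (|D| ^ 18 + τ ^ 18)) * P ^ (3 * N ^ 3 + 2 * h ^ 3) :=
        mul_le_mul_of_nonneg_right h18 hE0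
    _ = 2 ^ 17 * (|D| ^ 18 * P ^ (3 * N ^ 3 + 2 * h ^ 3) +
        τ ^ 18 * P ^ (3 * N ^ 3 + 2 * h ^ 3)) := by ring
    _ ≤ 2 ^ 17 * (W ^ (18 * N) * P ^ (C₁ * N ^ 2) + W ^ (18 * N) * P ^ (C₁ * N ^ 2)) := by
        apply mul_le_mul_of_nonneg_left _ (by norm_num)
        exact add_le_add hUP (le_trans hτ18 hWP)
    _ = (W ^ (18 * N) * P ^ (C₁ * N ^ 2)) * 2 ^ 18 := by ring
    _ ≤ (W ^ (18 * N) * P ^ (C₁ * N ^ 2)) * P ^ ((C₂ + 19) * N ^ 2) :=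
        mul_le_mul_of_nonneg_left h2P (by linarith)
    _ = W ^ (18 * N) * (P ^ (C₁ * N ^ 2) * P ^ ((C₂ + 19) * N ^ 2)) := by ring
    _ = W ^ (18 * N) * P ^ ((C₁ + C₂ + 19) * N ^ 2) := by
        rw [← pow_add]
        congr 2
        ring

lemma nw_nonneg (w : Fin 3 → ℝ) : 0 ≤ nw w :=
  add_nonneg (add_nonneg (abs_nonneg _) (abs_nonneg _)) (abs_nonneg _)

end P_UPS

open P_UPS

theorem t_UPS (hHPX : Pool.Agent.H410.FL.S_HPX) (hUPM : S_UPM) (hPT : S_PT) : S_UPS := by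
  intro a ε δ hOK hSg
  have hH : Hpx (pp a ε) (xd a ε δ) := (hHPX a ε δ hOK hSg).1
  obtain ⟨C₁, hC₁⟩ := hUPM (pp a ε) (xd a ε δ) hH
  obtain ⟨C₂, hC₂⟩ := hPT a ε δ hOK hSg
  refine ⟨C₁ + C₂ + 19, ?_⟩
  intro r s n0 h hN hyp
  exact core (AM (wr a ε r) (pp a ε) (xd a ε δ) (-(n0 : ℤ)) (n0 + h)).det _
    |(s : ℝ) - SH a ε δ r| (1 + nw (wr a ε r)) |pp a ε| (n0 + h) h C₁ C₂ hN
    (Nat.le_add_left _ _) (by linarith [nw_nonneg (wr a ε r)]) hH.1 (abs_nonneg _) hyp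
    (hC₁ (wr a ε r) n0 h hN) (fun h1 => hC₂ r s n0 h hN h1)

end Pool.Agent.H410.FM
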