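import Pool.Agent.H410.FM.Stm

/-! Doubling formulas for Lucas sequences (project FM). -/

set_option autoImplicit false

namespace Pool.Agent.H410.FM

open Pool.Agent.H410.FL
open Pool.Agent.H410.FC (OK U)

namespace P_UV

theorem V_eq (a ε : ℤ) (n : ℕ) : V a ε n = 2 * U a ε (n + 1) - a * U a ε n ∧
    V a ε (n + 1) = 2 * U a ε (n + 2) - a * U a ε (n + 1) := by
  induction n with
  | zero =>
    constructor
    · show (2 : ℤ) = 2 * 1 - a * 0
      ring
    · show a = 2 * (a * 1 - ε * 0) - a * 1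
      ring
  | succ n ih =>
    refine ⟨ih.2, ?_⟩
    have h1 : V a ε (n + 2) = a * V a ε (n + 1) - ε * V a ε n := rfl
    have h2 : U a ε (n + 1 + 2) = a * U a ε (n + 2) - ε * U a ε (n + 1) := rfl
    have h3 : U a ε (n + 2) = a * U a ε (n + 1) - ε * U a ε n := rfl
    show V a ε (n + 2) = 2 * U a ε (n + 1 + 2) - a * U a ε (n + 2)
    rw [h1, h2, ih.1, ih.2, h3]
    ring

theorem main (a ε : ℤ) (n : ℕ) : U a ε (2 * n) = U a ε n * V a ε n ∧
    U a ε (2 * n + 1) = U a ε (n + 1) ^ 2 - ε * U a ε n ^ 2 := by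
  induction n with
  | zero =>
    constructor
    · show (0 : ℤ) = 0 * 2
      ring
    · show (1 : ℤ) = 1 ^ 2 - ε * 0 ^ 2
      ring
  | succ n ih =>
    have hV := (V_eq a ε n).1
    have hV' := (V_eq a ε (n + 1)).1
    have h1 : U a ε (2 * n + 2) = a * U a ε (2 * n + 1) - ε * U a ε (2 * n) := rfl
    have h2 : U a ε (2 * n + 1 + 2) = a * U a ε (2 * n + 2) - ε * U a ε (2 * n + 1) := rfl
    have h3 : U a ε (n + 2) = a * U a ε (n + 1) - ε * U a ε n := rfl
    have h3' : U a ε (n + 1 + 1) = a * U a ε (n + 1) - ε * U a ε n := rfl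
    constructor
    · show U a ε (2 * n + 2) = U a ε (n + 1) * V a ε (n + 1)
      rw [h1, ih.1, ih.2, hV, hV', h3']
      ring
    · show U a ε (2 * n + 1 + 2) = U a ε (n + 2) ^ 2 - ε * U a ε (n + 1) ^ 2
      rw [h2, h1, ih.1, ih.2, hV, h3]
      ring

end P_UV

theorem t_UV : S_UV := fun a ε _ n => P_UV.main a ε n

end Pool.Agent.H410.FM
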