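import Pool.Agent.H410.FL.Main
import Pool.Agent.H410.QM.P_DD
import Pool.Agent.H410.FM.P_ASB
import Pool.Agent.H410.FM.P_ENT
import Pool.Agent.H410.FM.P_NRM
import Pool.Agent.H410.FM.P_UPM
import Pool.Agent.H410.FM.P_PT
import Pool.Agent.H410.FM.P_UPS
import Pool.Agent.H410.FM.P_SML
import Pool.Agent.H410.FM.P_NWB
import Pool.Agent.H410.FM.P_RS1
import Pool.Agent.H410.FM.P_RS2
import Pool.Agent.H410.FM.P_RNZ
import Pool.Agent.H410.FM.P_PRM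
import Pool.Agent.H410.FM.P_UV
import Pool.Agent.H410.FM.P_EXA
import Pool.Agent.H410.FM.P_EXB
import Pool.Agent.H410.FM.P_NV1
import Pool.Agent.H410.FM.P_NV2
import Pool.Agent.H410.FM.P_NV3
import Pool.Agent.H410.FM.P_NV
import Pool.Agent.H410.FM.P_LOS
import Pool.Agent.H410.FM.P_ME
import Pool.Agent.H410.FM.P_SUB

/-!
Assembly (helper410).
-/

namespace Pool.Agent.H410.FM

theorem main : S_SUB := by
  have hHPX := Pool.Agent.H410.FL.t_HPX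
  have hCB := Pool.Agent.H410.FL.t_CB
  have hSUM := Pool.Agent.H410.FL.t_SUM hCB
  have hREC := Pool.Agent.H410.FL.t_REC hSUM
  have hCF := Pool.Agent.H410.FL.t_CF hHPX
  have hCJ := Pool.Agent.H410.FC.t_CJ
  have hDIVR := Pool.Agent.H410.FC.t_DIVR hCJ
  have hVW := Pool.Agent.H410.FL.t_VW hCJ
  have hDIVC := Pool.Agent.H410.FL.t_DIVC hCJ
  have hDLS := Pool.Agent.H410.FL.t_DLS hCJ
  have hPHI := Pool.Agent.H410.FC.t_PHI
  have hDDB := Pool.Agent.H410.FL.t_DDB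
    (Pool.Agent.H410.FC.t_DKB hPHI Pool.Agent.H475.QZ.t_TOT)
    (Pool.Agent.H410.FL.t_DLB hPHI Pool.Agent.H410.FC.t_TOT2)
  have hHLL := Pool.Agent.H410.FL.t_HLL (Pool.Agent.H410.FL.t_ASER hCB
    Pool.Agent.H410.FL.t_KER) Pool.Agent.H410.FC.t_LAG
  have hNU := Pool.Agent.H475.QZ.t_NU
  have hNUX := Pool.Agent.H410.FC.t_NUX hNU
  have hNUQ := Pool.Agent.H410.FC.t_NUQ hNU
  have hNUE := Pool.Agent.H410.FC.t_NUE hNU hNUX
  have hKB := Pool.Agent.H410.FL.t_KB hNU hNUX hNUQ hNUE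
  have hUP1 := Pool.Agent.H410.FL.t_UP1 hHLL Pool.Agent.H410.FL.t_VAN hKB
    Pool.Agent.H410.FC.t_DVD
  have hDIV := Pool.Agent.H410.FC.t_DIV
  have hRED := Pool.Agent.H410.FL.t_RED hREC hDIV
  have hAA := Pool.Agent.H410.FL.t_AA hCB hSUM hDIV
  have hDEG := Pool.Agent.H410.FC.t_DEG
  have hENB := Pool.Agent.H410.FL.t_ENB hAA hRED hUP1 hDEG
  have hRL := Pool.Agent.H410.FC.t_RL
  have hASB := t_ASB hCF hREC
  have hENT := t_ENT hHPX hASB hCJ hDIVR hVW hDIVC hDLS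
  have hNRM := t_NRM hENT hCJ hDLS
  have hUPM := t_UPM Pool.Agent.H410.FC.t_DET hENB hDEG Pool.Agent.H410.FC.t_VB
    Pool.Agent.H475.QZ.t_DU
  have hPT := t_PT hHPX hCB hSUM Pool.Agent.H410.QM.t_DD
  have hUPS := t_UPS hHPX hUPM hPT
  have hSML := t_SML hHPX hNRM hDDB hUPS
  have hEXA := t_EXA hRL hHPX hVW t_UV Pool.Agent.H410.FL.t_UID
  have hEXB := t_EXB t_RS1 t_RS2 t_RNZ t_PRM hEXA
  have hNV1 := t_NV1 hRL hHPX
  have hNV2 := t_NV2 hRL hASB hNV1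
  have hNV3 := t_NV3 hHPX hRL hASB hNV1 hNV2
  have hNV := t_NV hEXB hNV1 hNV3 (Pool.Agent.H410.FL.t_NV4 hRL)
  exact t_SUB (t_ME Pool.Agent.H410.FL.t_SPL (t_LOS hNV hSML t_NWB))

end Pool.Agent.H410.FM
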