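import Pool.Agent.H410.FM.Stm

/-!
Choice of the prime (`S_PRM` of the project FM, helper410), adapted from `FL/P_PRM.lean` by helper600.
-/

namespace Pool.Agent.H410.FM

namespace P_PRM

open Filter Polynomial

/-- a polynomial grows slower than `2 ^ m` -/
theorem growth (Q : ℤ[X]) : ∃ M : ℕ, ∀ m : ℕ, M ≤ m → |Q.eval (m : ℤ)| < 2 ^ m := by
  have h1 : (fun m : ℕ => (Q.map (Int.castRingHom ℝ)).eval (m : ℝ)) =o[atTop]
      fun m : ℕ => (2 : ℝ) ^ m := by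
    simp only [Polynomial.eval_eq_sum_range]
    have h0 : ∀ i ∈ Finset.range ((Q.map (Int.castRingHom ℝ)).natDegree + 1),
        (fun m : ℕ => (Q.map (Int.castRingHom ℝ)).coeff i * (m : ℝ) ^ i) =o[atTop]
          fun m : ℕ => (2 : ℝ) ^ m := by
      intro i _
      exact (isLittleO_pow_const_const_pow_of_one_lt (R := ℝ) (r := 2) i
        (by norm_num)).const_mul_left ((Q.map (Int.castRingHom ℝ)).coeff i)
    exact Asymptotics.IsLittleO.fun_sum h0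
  have h2 := h1.bound (show (0 : ℝ) < 1 / 2 by norm_num)
  obtain ⟨M, hM⟩ := Filter.eventually_atTop.1 h2
  refine ⟨M, fun m hm => ?_⟩
  have h3 := hM m hm
  have h4 : (Q.map (Int.castRingHom ℝ)).eval (m : ℝ) = ((Q.eval (m : ℤ) : ℤ) : ℝ) := by
    simp
  rw [h4, Real.norm_eq_abs, Real.norm_eq_abs, abs_of_pos (show (0 : ℝ) < 2 ^ m by positivity)]
    at h3
  have h5 : (0 : ℝ) < 2 ^ m := by positivity
  have h6 : ((|Q.eval (m : ℤ)| : ℤ) : ℝ) < ((2 ^ m : ℤ) : ℝ) := by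
    push_cast
    linarith
  exact_mod_cast h6

/-- the bound for `R` is `H ^ 2` times this -/
noncomputable def P (D : ℤ) : ℤ[X] :=
  (C (2 * D) * (2 * X + 1)) ^ 2 + C D * (C 2 + C D * (X * (X + 1))) ^ 2

theorem P_eval (D z : ℤ) : (P D).eval z =
    (2 * D * (2 * z + 1)) ^ 2 + D * (2 + D * (z * (z + 1))) ^ 2 := by
  simp [P]

theorem P_nonneg {D : ℤ} (hD : 5 ≤ D) (z : ℤ) : 0 ≤ (P D).eval z := by
  rw [P_eval]
  have : 0 ≤ D := by omega
  positivity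

theorem RR_le {D : ℤ} (hD : 5 ≤ D) (r : Fin 3 → ℤ) (H : ℕ) (hr : ∀ i, |r i| ≤ (H : ℤ)) (z : ℤ)
    (hz : 0 ≤ z) : |RR D r z| ≤ (H : ℤ) ^ 2 * (P D).eval z := by
  have hD0 : 0 ≤ D := by omega
  have hH : (0 : ℤ) ≤ H := Int.natCast_nonneg H
  have a0 := hr 0
  have a1 := hr 1
  have a2 := hr 2
  have k1 : (2 * D * r 1 * (2 * z + 1)) ^ 2 ≤ (H : ℤ) ^ 2 * (2 * D * (2 * z + 1)) ^ 2 := by
    have h1 : |r 1| ^ 2 ≤ (H : ℤ) ^ 2 := pow_le_pow_left₀ (abs_nonneg _) a1 2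
    rw [sq_abs] at h1
    have h2 : 0 ≤ (2 * D * (2 * z + 1)) ^ 2 := sq_nonneg _
    calc (2 * D * r 1 * (2 * z + 1)) ^ 2 = r 1 ^ 2 * (2 * D * (2 * z + 1)) ^ 2 := by ring
      _ ≤ (H : ℤ) ^ 2 * (2 * D * (2 * z + 1)) ^ 2 := mul_le_mul_of_nonneg_right h1 h2
  have k2 : (2 * r 0 + D * r 2 * (z * (z + 1))) ^ 2 ≤
      (H : ℤ) ^ 2 * (2 + D * (z * (z + 1))) ^ 2 := by
    have hzz : 0 ≤ D * (z * (z + 1)) := by positivity
    have h1 : |2 * r 0 + D * r 2 * (z * (z + 1))| ≤ (H : ℤ) * (2 + D * (z * (z + 1))) := by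
      have h2 := abs_add_le (2 * r 0) (D * r 2 * (z * (z + 1)))
      have h3 : |2 * r 0| ≤ 2 * H := by
        rw [abs_mul, abs_two]
        linarith
      have h4 : |D * r 2 * (z * (z + 1))| ≤ (H : ℤ) * (D * (z * (z + 1))) := by
        rw [show D * r 2 * (z * (z + 1)) = r 2 * (D * (z * (z + 1))) by ring, abs_mul,
          abs_of_nonneg hzz]
        exact mul_le_mul_of_nonneg_right a2 hzz
      linarith
    have h5 := pow_le_pow_left₀ (abs_nonneg _) h1 2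
    rw [sq_abs, mul_pow] at h5
    exact h5
  rw [P_eval, mul_add]
  have k3 : D * (2 * r 0 + D * r 2 * (z * (z + 1))) ^ 2 ≤
      (H : ℤ) ^ 2 * (D * (2 + D * (z * (z + 1))) ^ 2) := by
    have := mul_le_mul_of_nonneg_left k2 hD0
    linarith
  have k4 : 0 ≤ (2 * D * r 1 * (2 * z + 1)) ^ 2 := sq_nonneg _
  have k5 : 0 ≤ D * (2 * r 0 + D * r 2 * (z * (z + 1))) ^ 2 := by positivity
  unfold RR
  rw [abs_le]
  constructor <;> linarith

theorem rt_le (r : Fin 3 → ℤ) (H : ℕ) (hr : ∀ i, |r i| ≤ (H : ℤ)) : |rt r| ≤ (H : ℤ) := by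
  unfold rt
  split_ifs
  · exact hr 2
  · exact hr 1
  · exact hr 0

end P_PRM

open P_PRM Polynomial in
/-- Choice of the prime. -/
theorem t_PRM : S_PRM := by
  intro D hD
  obtain ⟨M1, hM1⟩ := growth ((P D * (P D).comp (3 * X + 1)) ^ 2)
  refine ⟨max M1 10, fun r H m hr hm hH hne W hW => ?_⟩
  have hm1 : M1 ≤ m := le_trans (le_max_left _ _) hm
  set z : ℤ := RR D r m * RR D r (3 * (m : ℤ) + 1) * rt r with hz
  have hH1 : 1 ≤ H := by
    rcases Nat.eq_zero_or_pos H with h0 | h0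
    · exfalso
      apply hne
      have h1 := rt_le r H hr
      rw [h0] at h1
      have h2 : |rt r| = 0 := le_antisymm (by simpa using h1) (abs_nonneg _)
      rw [hz, abs_eq_zero.1 h2, mul_zero]
    · exact h0
  have hH10 : H ^ 10 ≤ 2 ^ m :=
    (Nat.pow_le_pow_right hH1 (le_max_right M1 10)).trans hH
  have hH10' : (H : ℤ) ^ 10 ≤ 2 ^ m := by exact_mod_cast hH10
  set Q : ℤ := (P D).eval (m : ℤ) * (P D).eval (3 * (m : ℤ) + 1) with hQ
  have hQ0 : 0 ≤ Q := mul_nonneg (P_nonneg hD _) (P_nonneg hD _)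
  have h3 := hM1 m hm1
  have h4 : ((P D * (P D).comp (3 * X + 1)) ^ 2).eval (m : ℤ) = Q ^ 2 := by
    rw [Polynomial.eval_pow, Polynomial.eval_mul, Polynomial.eval_comp]
    simp [hQ]
  rw [h4, abs_of_nonneg (sq_nonneg _)] at h3
  have hHn : (0 : ℤ) ≤ H := Int.natCast_nonneg H
  have hzle : |z| ≤ (H : ℤ) ^ 5 * Q := by
    rw [hz, abs_mul, abs_mul]
    have b1 := RR_le hD r H hr (m : ℤ) (Int.natCast_nonneg m)
    have b2 := RR_le hD r H hr (3 * (m : ℤ) + 1) (by positivity)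
    have b3 := rt_le r H hr
    calc |RR D r m| * |RR D r (3 * (m : ℤ) + 1)| * |rt r|
        ≤ ((H : ℤ) ^ 2 * (P D).eval (m : ℤ)) * ((H : ℤ) ^ 2 * (P D).eval (3 * (m : ℤ) + 1)) * H := by
          have c1 := P_nonneg hD (m : ℤ)
          have c2 := P_nonneg hD (3 * (m : ℤ) + 1)
          gcongr
      _ = (H : ℤ) ^ 5 * Q := by
          rw [hQ]
          ring
  have hlt : (H : ℤ) ^ 5 * Q < 2 ^ m := by
    refine lt_of_pow_lt_pow_left₀ 2 (by positivity) ?_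
    calc ((H : ℤ) ^ 5 * Q) ^ 2 = (H : ℤ) ^ 10 * Q ^ 2 := by ring
      _ ≤ 2 ^ m * Q ^ 2 := mul_le_mul_of_nonneg_right hH10' (sq_nonneg _)
      _ < 2 ^ m * 2 ^ m := mul_lt_mul_of_pos_left h3 (by positivity)
      _ = (2 ^ m) ^ 2 := by ring
  have hz0 : z ≠ 0 := hne
  have h5 : z.natAbs < W := by
    have h6 : ((z.natAbs : ℕ) : ℤ) < ((2 ^ m : ℕ) : ℤ) := by
      push_cast
      exact lt_of_le_of_lt hzle hlt
    have h7 : z.natAbs < 2 ^ m := by exact_mod_cast h6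
    omega
  have h6 : ¬ W ∣ z.natAbs := by
    intro h7
    have h8 := Nat.le_of_dvd (Int.natAbs_pos.2 hz0) h7
    omega
  rw [Nat.dvd_iff_prime_pow_dvd_dvd] at h6
  push Not at h6
  obtain ⟨q, k, hq, hk1, hk2⟩ := h6
  obtain ⟨j, rfl⟩ : ∃ j, k = j + 1 := by
    rcases Nat.eq_zero_or_pos k with h0 | h0
    · exfalso
      apply hk2
      rw [h0, pow_zero]
      exact one_dvd _
    · exact ⟨k - 1, by omega⟩
  refine ⟨q, j, hq, hk1, fun h7 => hk2 ?_⟩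
  have h8 : ((q ^ (j + 1) : ℕ) : ℤ) ∣ z := by
    push_cast
    exact h7
  exact Int.natCast_dvd.1 h8

end Pool.Agent.H410.FM
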