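import Pool.Agent.H410.FM.Defs
import Pool.Agent.H410.FL.Stm

/-!
Statements (with complete paper proofs in the docstrings) for the quantitative form of the theorem
of `Pool.Agent.H410.FL`: a lower bound `exp(-C (log H)^3)` for the linear forms in
`1, ∑ δ^n/U_n, ∑ δ^n V_n/U_n^2, ∑ (δε)^n/U_n^3` with integral coefficients of absolute value at most
`H` (helper410). Definitions in `FM/Defs.lean`, `FL/Defs.lean`, `FC/Defs.lean`; basic facts about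
`α = al a ε`, `β = be a ε`, `p = pp a ε = ε α²` in `FC/Bas.lean`. The statements `FL.S_*`, `FC.S_*`
are proved (files `FL/P_*.lean`, `FC/P_*.lean`). Most of the statements below are small
modifications of a statement of `FL/Stm.lean`, `[FL: NAME]`, with the model `FL/P_NAME.lean`.
-/

namespace Pool.Agent.H410.FM

open Finset Polynomial
open Pool.Agent.H410.FL (V Sg xd S1 S2 S3 hl SH Wt wr Hpx nw cc ac AM DD Dc Dl jt)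
open Pool.Agent.H410.FC (OK U sD al be pp DK Cj Rl Tt xt XX QQ pik VV EE FF ea ww C3 BF rr)

/-! ## A. the modified numbers `aS` -/

/-- Closed form at `J = -1` and the recurrence.
Proof. `J = -1`: the exponent `K (J+1)` is `0`, and `FL.S_CF`. Recurrence: `FL.S_REC` and
`p^{K(J+2)} = p^K p^{K(J+1)}`. -/
def S_ASB : Prop := ∀ (a ε δ : ℤ) (r : Fin 3 → ℤ), OK a ε → Sg ε δ → ∀ (s : ℤ) (K : ℕ), 1 ≤ K →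
  aS a ε δ r s K (-1) = -((δ * be a ε) ^ K * ((s : ℝ) - ∑ l ∈ Icc 1 K, hl a ε δ r l)) ∧
  ∀ J : ℤ, aS a ε δ r s K (J + 1) =
    pp a ε ^ K * aS a ε δ r s K J - cc (wr a ε r) (pp a ε) (xd a ε δ) (J + 1)

/-- The entries. [FL: ENT] (the same proof; `S_ASB` takes the place of `S_CF` and `S_REC`) -/
def S_ENT : Prop := ∀ (a ε δ : ℤ) (r : Fin 3 → ℤ), OK a ε → Sg ε δ → ∀ s : ℤ,
  ∀ K : ℕ, 1 ≤ K → ∀ J : ℤ,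
  Cj a ε
    (DK (pp a ε) K ^ 3 * Dc ε δ (al a ε) (be a ε) J * aS a ε δ r s K J)
    (DK (pp a ε)⁻¹ K ^ 3 * Dc ε δ (be a ε) (al a ε) J *
      (pp a ε ^ K * aS a ε δ r s K (-2 - J)))

/-- The norm inequality. [FL: NRM] (the same proof) -/
def S_NRM : Prop := ∀ (a ε δ : ℤ) (r : Fin 3 → ℤ), OK a ε → Sg ε δ → ∀ s : ℤ, ∀ n : ℕ,
  (SM a ε δ r s (-(n : ℤ)) (2 * n + 1)).det ≠ 0 →
  1 ≤ (DD ε δ (pp a ε) (al a ε) (be a ε) n * DD ε δ (pp a ε)⁻¹ (be a ε) (al a ε) n) *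
    |pp a ε| ^ ((2 * n + 1) * (n + 1)) *
    (|(SM a ε δ r s (-(n : ℤ)) (2 * n + 1)).det| *
      |(SM a ε δ r s (-((n + 2 : ℕ) : ℤ)) (2 * n + 1)).det|)

/-! ## B. upper bounds -/

/-- Upper bound for the determinant, uniform in the weight. [FL: UP] (the same proof; keep the factor
`(1 + nw w)^{18N}`, `N = n0 + h`, instead of `(nw w)^{18N} ≤ 2^{18C'N}`) -/
def S_UPM : Prop := ∀ (p x : ℝ), Hpx p x → ∃ C : ℕ, ∀ (w : Fin 3 → ℝ) (n0 h : ℕ), 1 ≤ n0 + h →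
  |(AM w p x (-(n0 : ℤ)) (n0 + h)).det| ^ 18 * |p| ^ (3 * (n0 + h) ^ 3 + 2 * h ^ 3) ≤
    (1 + nw w) ^ (18 * (n0 + h)) * |p| ^ (C * (n0 + h) ^ 2)

/-- Difference of two determinants. -/
def S_DD : Prop := ∀ (N : ℕ) (A B : Matrix (Fin N) (Fin N) ℝ) (M δ : ℝ), 0 ≤ M → 0 ≤ δ →
  (∀ i j, |A i j| ≤ M) → (∀ i j, |B i j| ≤ M) → (∀ i j, |A i j - B i j| ≤ M * δ) →
  |A.det - B.det| ≤ (N.factorial : ℝ) * (N * M ^ N * δ)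

/-- Perturbation bound. `P = |pp a ε|`, `N = n0 + h`, `Δ = |s - SH| ≤ 1`.
Proof. Entries `K = k+1 ≤ N`, `J = -n0+j`, `-N ≤ J ≤ N-1`. `|SM - AM| = |β|^K P^{K(J+1)} Δ ≤
P^{N^2} Δ` (`|β| ≤ 1`, `|δ| = 1`). `FL.S_CB`: `|AM| ≤ ∑_{e≥0} P^{-K(e+1)} 4 nw (|e+1+J|+1)^2 ≤
4 nw ∑_{e≥0} 2^{-(e+1)} (e+1)^2 (N+2)^2 ≤ 24 nw (N+2)^2` (`e+1+N+1 ≤ (e+1)(N+2)`,
`∑_{k≥1} k^2 2^{-k} = 6`; any cruder constant is fine) `≤ (1 + nw) P^{20 N^2}`. So all entries of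
`AM`, `SM` are at most `M = (1+nw) P^{21N^2}` and `|SM - AM| ≤ M Δ`. `S_DD`:
`N! N M^N Δ ≤ P^{2N^2} (1+nw)^N P^{21N^3} Δ`. -/
def S_PT : Prop := ∀ a ε δ : ℤ, OK a ε → Sg ε δ → ∃ C : ℕ, ∀ (r : Fin 3 → ℤ) (s : ℤ) (n0 h : ℕ),
  1 ≤ n0 + h → |(s : ℝ) - SH a ε δ r| ≤ 1 →
  |(SM a ε δ r s (-(n0 : ℤ)) (n0 + h)).det -
    (AM (wr a ε r) (pp a ε) (xd a ε δ) (-(n0 : ℤ)) (n0 + h)).det| ≤
  |(s : ℝ) - SH a ε δ r| * (1 + nw (wr a ε r)) ^ (n0 + h) * |pp a ε| ^ (C * (n0 + h) ^ 3)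

/-- Upper bound for the determinant of `SM`, if `s` is very close to `SH`.
Proof. Let `C₁, C₂` be the constants of `S_UPM` (`p = pp a ε`, `x = xd a ε δ`, `FL.S_HPX`) and `S_PT`,
`C = C₁ + C₂ + 19`. By `S_PT` `|det SM| ≤ |det AM| + τ` with
`τ = Δ (1+nw)^N P^{C₂N^3} ≤ P^{-(C-C₂) N^3} ≤ P^{-N^3}` (the hypothesis also gives `Δ ≤ 1`).
`(u+τ)^18 ≤ 2^18 (u^18 + τ^18)`, `u = |det AM|`, and `τ^18 P^{3N^3+2h^3} ≤ P^{-18N^3+5N^3} ≤ 1`. So the left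
side is at most `2^18 ((1+nw)^{18N} P^{C₁N^2} + 1) ≤ (1+nw)^{18N} P^{(C₁+19)N^2}` (`N ≥ 1`, `P ≥ 2`). -/
def S_UPS : Prop := ∀ a ε δ : ℤ, OK a ε → Sg ε δ → ∃ C : ℕ, ∀ (r : Fin 3 → ℤ) (s : ℤ) (n0 h : ℕ),
  1 ≤ n0 + h →
  |(s : ℝ) - SH a ε δ r| * (1 + nw (wr a ε r)) ^ (n0 + h) * |pp a ε| ^ (C * (n0 + h) ^ 3) ≤ 1 →
  |(SM a ε δ r s (-(n0 : ℤ)) (n0 + h)).det| ^ 18 * |pp a ε| ^ (3 * (n0 + h) ^ 3 + 2 * h ^ 3) ≤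
    (1 + nw (wr a ε r)) ^ (18 * (n0 + h)) * |pp a ε| ^ (C * (n0 + h) ^ 2)

/-- If `s` is very close to `SH` the determinant is `0`.
Proof. [FL: FIN], the same computation with the additional factor `(1+nw)^{18N}` from `S_UPS`. Suppose
`det ≠ 0`. `S_NRM` to the power `4050`; `FL.S_DDB` (constant `C₁`); `S_UPS` (constant `C₂`) with
`(n0,h) = (n, n+1)` and `(n+2, n-1)`, `N = 2n+1`, product of the two to the power `225`; the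
hypothesis of `S_UPS` follows from `N ≤ 3n`, `(1+nw)^N ≤ ((1+nw)^C)^n ≤ 2^{n^2} ≤ P^{n^2}` and
`C ≥ 27 C₂ + 1`. As in `FL.FIN`: `23400 n^3 ≤ 23296 n^3 + C₃ n^2` in the exponents of `α`, plus the
factor `(1+nw)^{8100 (2n+1)} ≤ ((1+nw)^{24300})^n ≤ 2^{n^2} ≤ α^{2n^2}` (`C ≥ 24300`, `α^2 ≥ 2`). So
`104 n^3 ≤ (C₃+2) n^2`, a contradiction for `n ≥ C ≥ C₃ + 3`. -/
def S_SML : Prop := ∀ a ε δ : ℤ, OK a ε → Sg ε δ → ∃ C : ℕ,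
  ∀ (r : Fin 3 → ℤ) (s : ℤ) (n : ℕ), C ≤ n → (1 + nw (wr a ε r)) ^ C ≤ 2 ^ n →
  |(s : ℝ) - SH a ε δ r| * |pp a ε| ^ (C * n ^ 3) ≤ 1 →
  (SM a ε δ r s (-(n : ℤ)) (2 * n + 1)).det = 0

/-- Bound for `nw`.
Proof. `|w 0| ≤ 2 H √D + 2 D H` etc. -/
def S_NWB : Prop := ∀ a ε : ℤ, OK a ε → ∃ C : ℕ, 1 ≤ C ∧ ∀ (r : Fin 3 → ℤ) (H : ℕ),
  (∀ i, |r i| ≤ (H : ℤ)) → 1 ≤ H → 1 + nw (wr a ε r) ≤ (C : ℝ) * H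

/-! ## C. nonvanishing -/

/-- Residue fields, `ε = -1`. [FL: RS1] (the same proof; the prime `ℓ = 2 m0 + 1` is now taken from
Bertrand's postulate `Nat.exists_prime_lt_and_le_two_mul` with `2B < ℓ ≤ 4B`; `C` is large in terms of
`a`) -/
def S_RS1 : Prop := ∀ a : ℤ, 1 ≤ a → ∃ C : ℕ, ∀ B : ℕ, C ≤ B →
  ∃ m0 W : ℕ, B ≤ m0 ∧ m0 ≤ 2 * B ∧ PW a (-1) m0 W

/-- Residue fields, `ε = 1`. [FL: RS2] (the same, with Bertrand's postulate) -/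
def S_RS2 : Prop := ∀ a : ℤ, 3 ≤ a → ∃ C : ℕ, ∀ B : ℕ, C ≤ B →
  ∃ m0 W : ℕ, B ≤ m0 ∧ m0 ≤ 2 * B ∧ PW a 1 m0 W

/-- `R(m) = 0` for at most one `m ≥ 0`.
Proof. `D = a² - 4ε` (`a²+4`, `a ≥ 1`, or `a²-4`, `a ≥ 3`) is positive and not the square of an integer
(between consecutive squares: `a² < a²+4 < (a+1)²` for `a ≥ 2`, `a = 1`: `5`; `(a-1)² < a²-4 < a²` for
`a ≥ 3`), so `X² = D Y²` with integers implies `X = Y = 0`. So `R(m) = 0` gives `r 1 = 0` and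
`2 r 0 + D r 2 m(m+1) = 0`; `r 2 ≠ 0` (otherwise `r = 0`), so `m(m+1)` is determined. -/
def S_RNZ : Prop := ∀ a ε : ℤ, OK a ε → ∀ r : Fin 3 → ℤ, r ≠ 0 → ∃ m' : ℕ, ∀ m : ℕ, m ≠ m' →
  RR (a ^ 2 - 4 * ε) r m ≠ 0

/-- Choice of the prime. [FL: PRM, last part]
Proof. `|R(m)| ≤ c H^2 (m+1)^4`, so `|R(m) R(3m+1) rt r| ≤ H^5 Q(m)` with a polynomial `Q` depending only
on `D`. For `m ≥ M`: `Q(m)^2 < 2^m`, and `H^{10} ≤ H^M ≤ 2^m` (`M ≥ 10`, `H ≥ 1` because `rt r ≠ 0`). So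
`(H^5 Q(m))^2 < 4^m` and `|R(m)R(3m+1) rt r| < 2^m ≤ W`. So `W` does not divide this nonzero integer,
and there are `q, k` as claimed (as in `FL/P_PRM.lean`). -/
def S_PRM : Prop := ∀ D : ℤ, 5 ≤ D → ∃ M : ℕ, ∀ (r : Fin 3 → ℤ) (H m : ℕ),
  (∀ i, |r i| ≤ (H : ℤ)) → M ≤ m → H ^ M ≤ 2 ^ m →
  RR D r m * RR D r (3 * (m : ℤ) + 1) * rt r ≠ 0 →
  ∀ W : ℕ, 2 ^ m ≤ W → ∃ q k : ℕ, q.Prime ∧ q ^ (k + 1) ∣ W ∧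
    ¬ ((q : ℤ) ^ (k + 1) ∣ RR D r m * RR D r (3 * (m : ℤ) + 1) * rt r)

/-- `U_{2n} = U_n V_n`, `U_{2m+1} = U_{m+1}^2 - ε U_m^2`.
Proof. Induction, or `√D U_n = α^n - β^n`, `V_n = α^n + β^n`. -/
def S_UV : Prop := ∀ a ε : ℤ, OK a ε → ∀ n : ℕ, U a ε (2 * n) = U a ε n * V a ε n ∧
  U a ε (2 * n + 1) = U a ε (n + 1) ^ 2 - ε * U a ε n ^ 2

/-- The data of the residue field for given `m0, W, q, k`. [FL: EX] (the same proof, the model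
`FL/P_EX.lean` after the choice of `m0, W, q, k`)
New: `hr`. `W ∣ U_T` (`S_UV`: `ε = -1`: `T = 2ℓ`, `ℓ = 2 m0 + 1`, `U_{2ℓ} = U_ℓ V_ℓ = U_ℓ a W`;
`ε = 1`: `T = ℓ`, `U_ℓ = (U_{m0+1}-U_{m0}) W`), so `q^{k+1} ∣ U_T`, and `rt r = q^j R'` with `j ≤ k`,
`q ∤ R'` (because `q^{k+1}` does not divide a multiple of `rt r`, and `rt r ≠ 0` for the same reason), so
`U_T/rt r = q·(integer)/R'` reduces to `0`. In `hc`, `hc'` use that `q^{k+1}` divides neither `R(m0)`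
nor `R(3 m0+1)`, both nonzero. -/
def S_EXA : Prop := ∀ (a ε δ : ℤ) (r : Fin 3 → ℤ), OK a ε → Sg ε δ → ∀ m0 W q k : ℕ, 2 ≤ m0 →
  PW a ε m0 W → q.Prime → q ^ (k + 1) ∣ W →
  ¬ ((q : ℤ) ^ (k + 1) ∣ RR (a ^ 2 - 4 * ε) r m0 * RR (a ^ 2 - 4 * ε) r (3 * (m0 : ℤ) + 1) * rt r) →
  ∃ (F : Type) (_ : Field F) (g : F), Dt a ε δ r m0 F g

/-- Existence of the residue field.
Proof. `D = a² - 4ε ≥ 5` (`FC.disc_ge`). Let `M` be the constant of `S_PRM`, `C₁` the one of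
`S_RS1`/`S_RS2`, `C = max(M, C₁, 14)`. Apply `S_RS1`/`S_RS2` with `B`, `2B+1`, `4B+3`: three different
numbers `m0` (in `[B,2B]`, `[2B+1,4B+2]`, `[4B+3,8B+6]`), all `≤ 14 B`. By `S_RNZ` (exceptional value
`m'`) `R(m0) = 0` only if `m0 = m'` and `R(3m0+1) = 0` only if `3 m0 + 1 = m'`; so for one of the three
`m0` both are nonzero; `rt r ≠ 0` as `r ≠ 0`. `S_PRM` (`H^M ≤ H^C ≤ 2^B ≤ 2^m0`, `H ≥ 1`), `S_EXA`. -/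
def S_EXB : Prop := ∀ a ε δ : ℤ, OK a ε → Sg ε δ → ∃ C : ℕ, 1 ≤ C ∧
  ∀ (r : Fin 3 → ℤ) (H B : ℕ), r ≠ 0 → (∀ i, |r i| ≤ (H : ℤ)) → C ≤ B → H ^ C ≤ 2 ^ B →
  ∃ m0 : ℕ, B ≤ m0 ∧ m0 ≤ C * B ∧ ∃ (F : Type) (_ : Field F) (g : F), Dt a ε δ r m0 F g

/-- Reductions of the `c_m` and of `U_l`. [FL: NV1] (literally the same proof, the field `hr` of the
structure is not used there) -/
def S_NV1 : Prop := ∀ (a ε δ : ℤ) (r : Fin 3 → ℤ), OK a ε → Sg ε δ →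
  ∀ (m0 : ℕ) (F : Type) (_ : Field F) (g : F), Dt a ε δ r m0 F g →
  Rl a ε g (pp a ε) ((ε : F) * g ^ 2) ∧ ((ε : F) * g ^ 2 ≠ 0) ∧
  ((ε : F) * g ^ 2) ^ Tt ε m0 = 1 ∧
  (∀ m : ℤ, -(Tt ε m0 : ℤ) < m → m < Tt ε m0 → m ≠ m0 → m ≠ m0 - Tt ε m0 →
    ∃ f : F, Rl a ε g (cc (wr a ε r) (pp a ε) (xd a ε δ) m) f) ∧
  (∀ l : ℕ, 1 ≤ l → l < 2 * Tt ε m0 → l ≠ Tt ε m0 →
    ∃ f : F, f ≠ 0 ∧ Rl a ε g (U a ε l : ℝ) f) ∧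
  Rl a ε g (U a ε (Tt ε m0) : ℝ) 0 ∧
  (∃ v : F, v ≠ 0 ∧ Rl a ε g (V a ε (Tt ε m0) : ℝ) v)

/-- Reductions of `aS(K,-1)`, and `t = tt a ε r m0 = U_T^j/rt r` reduces to `0`. [FL: NV2]
Proof. As in `FL.NV2`, with `S_ASB` in the place of `S_CF`. `t = U_T^{j-1} (U_T/rt r)`, `j = jt r ≥ 1`,
reduces to `0` (`Dt.hr`, and `U_T` reduces to `0`). For `K ≥ T` everything in
`t (s - ∑_{l≤K} h_l)` except `t h_T` reduces to `0`, and `t h_T = 2 t (r 0 δ^T/U_T + r 1 δ^T V_T/U_T² +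
r 2 (δε)^T/U_T³)`. `j = 3` (`rt r = r 2`): `2 (r 0 δ^T U_T (U_T/r 2) + r 1 δ^T V_T (U_T/r 2) + (δε)^T)`
reduces to `2 (δε)^T`; `j = 2` (`r 2 = 0`, `rt r = r 1`): `2 (r 0 δ^T (U_T/r 1) + δ^T V_T)` to
`2 δ^T v`; `j = 1`: `2 δ^T`. All nonzero (`h2`). (`rt r ≠ 0`, `U_T ≠ 0` as real numbers.) -/
def S_NV2 : Prop := ∀ (a ε δ : ℤ) (r : Fin 3 → ℤ), OK a ε → Sg ε δ → r ≠ 0 → ∀ s : ℤ,
  ∀ (m0 : ℕ) (F : Type) (_ : Field F) (g : F), Dt a ε δ r m0 F g →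
  Rl a ε g (tt a ε r m0) 0 ∧
  (∀ K : ℕ, 1 ≤ K → K < Tt ε m0 →
    ∃ f : F, Rl a ε g (aS a ε δ r s K (-1)) f) ∧
  (∀ K : ℕ, Tt ε m0 ≤ K → K < 2 * Tt ε m0 →
    ∃ f : F, f ≠ 0 ∧ Rl a ε g (tt a ε r m0 * aS a ε δ r s K (-1)) f)

/-- Reductions of the `aS(K,J)`. [FL: NV3] (the same proof with `aS` for `ac`, `tt a ε r m0` for
`U_T^{jt r}`, and `S_ASB` for `S_REC`; only the recurrence, `S_NV1` and `S_NV2` are used) -/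
def S_NV3 : Prop := ∀ (a ε δ : ℤ) (r : Fin 3 → ℤ), OK a ε → Sg ε δ → r ≠ 0 → ∀ s : ℤ,
  ∀ (m0 : ℕ) (F : Type) (_ : Field F) (g : F), Dt a ε δ r m0 F g →
  (∀ K : ℕ, 1 ≤ K → K < Tt ε m0 → ∀ J : ℤ, (m0 : ℤ) - Tt ε m0 ≤ J → J < m0 →
    ∃ f : F, Rl a ε g (aS a ε δ r s K J) f) ∧
  (∀ K : ℕ, 1 ≤ K → K < Tt ε m0 → ∀ J : ℤ, (m0 : ℤ) ≤ J → J < Tt ε m0 →
    Rl a ε g ((cc (wr a ε r) (pp a ε) (xd a ε δ) m0)⁻¹ *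
      aS a ε δ r s K J) (-((ε : F) * g ^ 2) ^ ((K : ℤ) * (J - m0)))) ∧
  (∀ K : ℕ, 1 ≤ K → K < Tt ε m0 → ∀ J : ℤ, -(Tt ε m0 : ℤ) < J → J < (m0 : ℤ) - Tt ε m0 →
    Rl a ε g ((cc (wr a ε r) (pp a ε) (xd a ε δ) ((m0 : ℤ) - Tt ε m0))⁻¹ *
      aS a ε δ r s K J)
      (((ε : F) * g ^ 2) ^ ((K : ℤ) * (J - m0 + Tt ε m0)))) ∧
  (∀ K : ℕ, Tt ε m0 ≤ K → K < 2 * Tt ε m0 → ∃ b : F, b ≠ 0 ∧ ∀ J : ℤ,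
    (m0 : ℤ) - Tt ε m0 ≤ J → J < m0 →
    Rl a ε g (tt a ε r m0 * aS a ε δ r s K J)
      (((ε : F) * g ^ 2) ^ ((K : ℤ) * (J + 1)) * b)) ∧
  (∀ K : ℕ, Tt ε m0 ≤ K → K < 2 * Tt ε m0 → ∀ J : ℤ, (m0 : ℤ) ≤ J → J < Tt ε m0 →
    Rl a ε g ((cc (wr a ε r) (pp a ε) (xd a ε δ) m0)⁻¹ * (tt a ε r m0 *
      aS a ε δ r s K J)) 0) ∧
  (∀ K : ℕ, Tt ε m0 ≤ K → K < 2 * Tt ε m0 → ∀ J : ℤ, -(Tt ε m0 : ℤ) < J →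
    J < (m0 : ℤ) - Tt ε m0 →
    Rl a ε g ((cc (wr a ε r) (pp a ε) (xd a ε δ) ((m0 : ℤ) - Tt ε m0))⁻¹ *
      (tt a ε r m0 * aS a ε δ r s K J)) 0)

/-- Nonvanishing. [FL: NV]
Proof. `S_EXB` gives `m0` with `B ≤ m0 ≤ C₁ B`; `S_NV1`, `S_NV3` and `FL.S_NV4` with `T = Tt ε m0`,
`n = T - 1`, `m0 ≤ n ≤ 4 m0 + 1 ≤ 5 C₁ B`; take `C = 5 C₁`. -/
def S_NV : Prop := ∀ a ε δ : ℤ, OK a ε → Sg ε δ → ∃ C : ℕ, 1 ≤ C ∧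
  ∀ (r : Fin 3 → ℤ) (s : ℤ) (H B : ℕ), r ≠ 0 → (∀ i, |r i| ≤ (H : ℤ)) → C ≤ B →
  H ^ C ≤ 2 ^ B → ∃ n : ℕ, B ≤ n ∧ n ≤ C * B ∧ (SM a ε δ r s (-(n : ℤ)) (2 * n + 1)).det ≠ 0

/-! ## D. conclusion -/

/-- Lower bound for `|s - SH|`.
Proof. Constants `C₁` (`S_NV`), `C₂` (`S_SML`), `C₃` (`S_NWB`). `C` large. `S_NV` gives
`n ∈ [B, C₁B]` with `det SM ≠ 0`. `H ≥ 1` (as `r ≠ 0`). `(1+nw)^{C₂} ≤ (C₃ H)^{C₂} ≤ 2^B ≤ 2^n`, because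
`(C₃H)^{2C₂} = C₃^{2C₂} H^{2C₂} ≤ 2^B 2^B` if `C ≥ 2C₂` and `C ≥ C₃^{2C₂}` (`x ≤ 2^x`). So by `S_SML`
`|s - SH| P^{C₂n^3} > 1`, and `C₂ n^3 ≤ C₂ C₁^3 B^3 ≤ C B^3`. -/
def S_LOS : Prop := ∀ a ε δ : ℤ, OK a ε → Sg ε δ → ∃ C : ℕ, 1 ≤ C ∧
  ∀ (r : Fin 3 → ℤ) (s : ℤ) (H B : ℕ), r ≠ 0 → (∀ i, |r i| ≤ (H : ℤ)) → C ≤ B →
  H ^ C ≤ 2 ^ B → 1 < |(s : ℝ) - SH a ε δ r| * |pp a ε| ^ (C * B ^ 3)

/-- The measure.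
Proof. `r = 0`: `|b| ≥ 1`. `r ≠ 0`: `H' = ⌈H⌉₊ ≤ 2H`, `B = C₀ (⌈log H'/log 2⌉ + 1)` with `C₀` the constant
of `S_LOS`: `H'^{C₀} ≤ 2^B`, `C₀ ≤ B ≤ C₀ (log(2H)/log 2 + 2) ≤ c log H` (`log H ≥ log 2`). With
`s = -2b`: `b + r 0 S1 + r 1 S2 + r 2 S3 = (SH - s)/2` (`FL.S_SPL`), so the absolute value is at least
`P^{-C₀B^3}/2 ≥ exp(-C (log H)^3)`. -/
def S_ME : Prop := ∀ a ε δ : ℤ, OK a ε → Sg ε δ → ∃ C : ℝ, 0 < C ∧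
  ∀ (H : ℝ) (b : ℤ) (r : Fin 3 → ℤ), 2 ≤ H → |(b : ℝ)| ≤ H → (∀ i, |(r i : ℝ)| ≤ H) →
  (b ≠ 0 ∨ r ≠ 0) →
  Real.exp (-(C * Real.log H ^ 3)) ≤
    |b + r 0 * S1 a ε δ + r 1 * S2 a ε δ + r 2 * S3 a ε δ|

/-- The same for every `k`-th term.
Proof. See `Pool/Agent/H410/FL/Sub.lean` (lemma `sub` and the lemmas before it, which may be used by
copying them; do not import `FL/Sub.lean`, it is slow to build): with `u = U_k`,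
`a' = U_{k+1} - ε U_{k-1}`, `ε' = ε^k`, `U_{kn}(a,ε) = u U_n(a',ε')`, `V_{kn}(a,ε) = V_n(a',ε')`. So
the three sums are `S1/u, S2/u², S3/u³` (for `a', ε', δ`), and `u³ (b + r 0 X1 + r 1 X2 + r 2 X3) =
b u³ + r 0 u² S1 + r 1 u S2 + r 2 S3`; `S_ME` with `H u³` and `log(H u³) ≤ c log H`
(`log H ≥ log 2`). -/
def S_SUB : Prop := ∀ a ε : ℤ, OK a ε → ∀ k : ℕ, 1 ≤ k → ∀ δ : ℤ, Sg (ε ^ k) δ → ∃ C : ℝ, 0 < C ∧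
  ∀ (H : ℝ) (b : ℤ) (r : Fin 3 → ℤ), 2 ≤ H → |(b : ℝ)| ≤ H → (∀ i, |(r i : ℝ)| ≤ H) →
  (b ≠ 0 ∨ r ≠ 0) →
  Real.exp (-(C * Real.log H ^ 3)) ≤
    |b + r 0 * (∑' n : ℕ, (δ : ℝ) ^ (n + 1) / (U a ε (k * (n + 1)) : ℝ)) +
      r 1 * (∑' n : ℕ, (δ : ℝ) ^ (n + 1) * (V a ε (k * (n + 1)) : ℝ) /
        (U a ε (k * (n + 1)) : ℝ) ^ 2) +
      r 2 * (∑' n : ℕ, ((δ : ℝ) * (ε : ℝ) ^ k) ^ (n + 1) / (U a ε (k * (n + 1)) : ℝ) ^ 3)|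

end Pool.Agent.H410.FM
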